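import Mathlib

/-!
# MP_405d56_lc: interface between the finite part and the Borel part

`FinExt d` : a notion `Good` of good edge colourings of finite graphs of maximum degree `d` (with the colours `0, ..., d`) and a radius `r` such
that a good colouring of the part outside a set `A` can be changed within distance `r` of `A` only to give a proper colouring of the whole graph.
-/

set_option autoImplicit false

namespace MP405B

open Set

/-- proper colouring with colours `< d + 1` -/
def PropCol {V : Type} (d : ℕ) (G : SimpleGraph V) (c : V → V → ℕ) : Prop :=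
  (∀ x y, G.Adj x y → c x y < d + 1 ∧ c x y = c y x) ∧
    ∀ x y z, G.Adj x y → G.Adj x z → y ≠ z → c x y ≠ c x z

/-- there is a walk of length at most `m` -/
def wd {V : Type} (G : SimpleGraph V) (m : ℕ) (x y : V) : Prop := ∃ p : G.Walk x y, p.length ≤ m

/-- the interface to the finite part: `Good` colourings of finite graphs of maximum degree at most `d` -/
structure FinExt (d : ℕ) where
  r : ℕ
  Good : ∀ (V : Type) [Finite V], SimpleGraph V → (V → V → ℕ) → Prop
  proper : ∀ (V : Type) [Finite V] (G : SimpleGraph V) (c : V → V → ℕ), Good V G c → PropCol d G c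
  iso : ∀ (V W : Type) [Finite V] [Finite W] (e : V ≃ W) (G : SimpleGraph W) (c : W → W → ℕ),
    Good W G c → Good V (G.comap e) (fun x y => c (e x) (e y))
  congr : ∀ (V : Type) [Finite V] (G : SimpleGraph V) (c c' : V → V → ℕ),
    (∀ x y, G.Adj x y → c x y = c' x y) → Good V G c → Good V G c'
  ex : ∀ (V : Type) [Finite V] (G : SimpleGraph V), (∀ v, (G.neighborSet v).ncard ≤ d) →
    ∃ c, Good V G c
  union : ∀ (V I : Type) [Finite V] (G : SimpleGraph V) (c : V → V → ℕ) (f : V → I),
    (∀ x y, G.Adj x y → f x = f y) →
    (∀ i, Good {v // f v = i} (G.comap Subtype.val) (fun x y => c x.1 y.1)) → Good V G c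
  ext : ∀ (V : Type) [Finite V] (G : SimpleGraph V), (∀ v, (G.neighborSet v).ncard ≤ d) →
    ∀ (A : Set V) (c1 : V → V → ℕ),
    Good {v // v ∉ A} (G.comap Subtype.val) (fun x y => c1 x.1 y.1) →
    ∃ c, PropCol d G c ∧ ∀ x y, G.Adj x y → (∀ a ∈ A, ¬ wd G r a x ∧ ¬ wd G r a y) →
      c x y = c1 x y

end MP405B
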