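import Mathlib

/-!
# Finite multigraphs with special edges, partial good colourings, Kempe swaps

Common definitions for the finite part (light extension theorem) of MP_405d56_lc.
-/

set_option autoImplicit false

namespace MP405E

open Finset Classical

/-- A finite multigraph on vertices `V` with edge type `E`; every edge has two different ends.
`S` is the set of special edges; the ordinary edges (not in `S`) form a simple graph. -/
structure MG (V E : Type) where
  a : E → V
  b : E → V
  ne : ∀ e, a e ≠ b e
  S : Finset E
  simple : ∀ e e', e ∉ S → e' ∉ S → s(a e, b e) = s(a e', b e') → e = e'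

variable {V E K : Type} [Fintype V] [Fintype E] [Fintype K]

namespace MG

/-- edge `e` is incident with vertex `v` -/
def inc (G : MG V E) (e : E) (v : V) : Prop := G.a e = v ∨ G.b e = v

/-- the other end of `e`, seen from `v` -/
noncomputable def oth (G : MG V E) (e : E) (v : V) : V := if G.a e = v then G.b e else G.a e

/-- number of edges at `v` (total degree, ordinary and special edges) -/
noncomputable def tdeg (G : MG V E) (v : V) : ℕ := (univ.filter fun e => G.inc e v).card

/-- number of special edges at `v` -/
noncomputable def sdeg (G : MG V E) (v : V) : ℕ := (univ.filter fun e => e ∈ G.S ∧ G.inc e v).card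

/-- the ordinary edges at `v` -/
noncomputable def ord (G : MG V E) (v : V) : Finset E := univ.filter fun e => e ∉ G.S ∧ G.inc e v

/-- `v` is a private vertex of `e`: `e` is the only edge at `v` -/
def priv (G : MG V E) (e : E) (v : V) : Prop := G.inc e v ∧ ∀ e', G.inc e' v → e' = e

/-- the doubles: special edges without a private end (the other special edges are the singles) -/
noncomputable def dbl (G : MG V E) : Finset E := G.S.filter fun e => ∀ v, ¬ G.priv e v

/-- number of doubles at `v` -/
noncomputable def ddeg (G : MG V E) (v : V) : ℕ := (univ.filter fun e => e ∈ G.dbl ∧ G.inc e v).card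

/-- proper partial colouring (`none` = not coloured) -/
def Proper (G : MG V E) (φ : E → Option K) : Prop :=
  ∀ e e' v c, G.inc e v → G.inc e' v → φ e = some c → φ e' = some c → e = e'

/-- good: proper, and the (coloured) special edges have pairwise different colours -/
structure Good (G : MG V E) (φ : E → Option K) : Prop where
  proper : G.Proper φ
  rainbow : ∀ e ∈ G.S, ∀ e' ∈ G.S, ∀ c, φ e = some c → φ e' = some c → e = e'

/-- colours missing at `v` -/
noncomputable def mis (G : MG V E) (φ : E → Option K) (v : V) : Finset K :=
  univ.filter fun c => ∀ e, G.inc e v → φ e ≠ some c

/-- the clean colours: those used on no special edge -/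
noncomputable def clean (G : MG V E) (φ : E → Option K) : Finset K :=
  univ.filter fun c => ∀ e ∈ G.S, φ e ≠ some c

/-- one step in the subgraph of colours `x`, `y` -/
def step (G : MG V E) (φ : E → Option K) (x y : K) (u w : V) : Prop :=
  ∃ e, (φ e = some x ∨ φ e = some y) ∧ G.inc e u ∧ G.inc e w

/-- the Kempe component of `v` in colours `x`, `y` (a set of vertices) -/
noncomputable def comp (G : MG V E) (φ : E → Option K) (x y : K) (v : V) : Finset V :=
  univ.filter fun w => Relation.ReflTransGen (G.step φ x y) v w

/-- the set `C` of vertices is a union of `(x,y)`-components -/
def Closed (G : MG V E) (φ : E → Option K) (x y : K) (C : Finset V) : Prop :=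
  ∀ e, (φ e = some x ∨ φ e = some y) → (G.a e ∈ C ↔ G.b e ∈ C)

/-- exchange the colours `x`, `y` on the edges inside `C` -/
noncomputable def swp (G : MG V E) (φ : E → Option K) (x y : K) (C : Finset V) : E → Option K :=
  fun e => if G.a e ∈ C then (φ e).map (Equiv.swap x y) else φ e

end MG

/-! ### Partial matchings (systems of distinct representatives) for lists -/

section DM

variable {α K : Type} [Fintype α]

/-- `f` is a partial system of distinct representatives for the lists `L` -/
structure PM (L : α → Finset K) (f : α → Option K) : Prop where
  mem : ∀ a c, f a = some c → c ∈ L a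
  inj : ∀ a b c, f a = some c → f b = some c → a = b

/-- the omitted elements -/
noncomputable def om (f : α → Option K) : Finset α := univ.filter fun a => f a = none

/-- `f` omits as few elements as possible -/
def IsOpt (L : α → Finset K) (f : α → Option K) : Prop :=
  PM L f ∧ ∀ g, PM L g → (om f).card ≤ (om g).card

/-- the elements omitted by some optimal matching -/
noncomputable def TT (L : α → Finset K) : Finset α :=
  univ.filter fun a => ∃ f, IsOpt L f ∧ f a = none

end DM

end MP405E
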