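import Mathlib
import Pool.Agent.Lib.MP_405d56_lc.EDefs

/-! # Row E03a: exists_opt, mem_TT, om_subset_TT, dm_exch -/

set_option autoImplicit false

namespace MP405E

open Finset Classical

variable {α K : Type} [Fintype α] [Fintype K] {L : α → Finset K}

omit [Fintype K] in
theorem exists_opt (L : α → Finset K) : ∃ f, IsOpt L f := by
  have hne : ({f : α → Option K | PM L f}).Nonempty :=
    ⟨fun _ => none, ⟨fun a c h => absurd h (by simp), fun a b c h => absurd h (by simp)⟩⟩
  obtain ⟨f, hf, hmin⟩ := (measure fun f : α → Option K => (om f).card).wf.has_min _ hne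
  refine ⟨f, hf, fun g hg => ?_⟩
  have := hmin g hg
  exact not_lt.1 this

omit [Fintype K] in
theorem mem_TT {t : α} : t ∈ TT L ↔ ∃ f, IsOpt L f ∧ f t = none := by
  unfold TT
  rw [mem_filter]
  exact ⟨fun h => h.2, fun h => ⟨mem_univ _, h⟩⟩

omit [Fintype K] in
theorem om_subset_TT {f : α → Option K} (hf : IsOpt L f) : om f ⊆ TT L := by
  intro a ha
  unfold om at ha
  rw [mem_filter] at ha
  exact mem_TT.2 ⟨f, hf, ha.2⟩

omit [Fintype K] in
theorem E03a.card_om (f : α → Option K) : (om f).card = ∑ a, if f a = none then 1 else 0 := by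
  unfold om
  rw [Finset.card_filter]

/-- the colours used -/
noncomputable def E03a.U (f : α → Option K) : Finset K := univ.filter fun c => ∃ a, f a = some c

theorem E03a.card_U {f : α → Option K} (hf : PM L f) :
    (E03a.U f).card + (om f).card = Fintype.card α := by
  have h1 : (univ.filter fun a => f a ≠ none).card = (E03a.U f).card := by
    refine Finset.card_bij (fun a ha => (f a).get
      (Option.isSome_iff_ne_none.2 (mem_filter.1 ha).2)) ?_ ?_ ?_
    · intro a ha
      unfold E03a.U
      rw [mem_filter]
      exact ⟨mem_univ _, a, by rw [Option.some_get]⟩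
    · intro a ha b hb hab
      refine hf.inj a b ((f a).get (Option.isSome_iff_ne_none.2 (mem_filter.1 ha).2)) ?_ ?_
      · rw [Option.some_get]
      · rw [hab, Option.some_get]
    · intro c hc
      unfold E03a.U at hc
      rw [mem_filter] at hc
      obtain ⟨a, ha⟩ := hc.2
      refine ⟨a, ?_, ?_⟩
      · rw [mem_filter]
        exact ⟨mem_univ _, by rw [ha]; simp⟩
      · simp [ha]
  rw [← h1]
  unfold om
  have := Finset.card_filter_add_card_filter_not (s := (univ : Finset α)) (fun a => f a = none)
  rw [Finset.card_univ] at this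
  rw [add_comm]
  exact this

/-- row E03a -/
theorem dm_exch {f : α → Option K} (hf : IsOpt L f) {t : α} (ht : t ∈ TT L) :
    ∃ g, IsOpt L g ∧ g t = none ∧ (∀ c, (∃ a, g a = some c) ↔ (∃ a, f a = some c)) ∧
      ∃ b, f b = none ∧ ∀ a, f a = none → a ≠ b → g a = none := by
  by_cases hft : f t = none
  · exact ⟨f, hf, hft, fun c => Iff.rfl, t, hft, fun a ha _ => ha⟩
  obtain ⟨g, hg, hgt⟩ := mem_TT.1 ht
  set R : α → α → Prop := fun s s' => ∃ c, f s = some c ∧ g s' = some c with hR
  set P : α → Prop := fun s => Relation.ReflTransGen R t s with hP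
  have hPt : P t := Relation.ReflTransGen.refl
  -- predecessors
  have hpred : ∀ a, P a → a ≠ t → ∃ p c, P p ∧ f p = some c ∧ g a = some c := by
    intro a ha hat
    rcases Relation.ReflTransGen.cases_tail ha with h | ⟨p, hp, c, h1, h2⟩
    · exact absurd h.symm (by intro h'; exact hat h'.symm)
    · exact ⟨p, c, hp, h1, h2⟩
  have hsucc : ∀ a b c, P a → f a = some c → g b = some c → P b := by
    intro a b c ha h1 h2
    exact Relation.ReflTransGen.tail ha ⟨c, h1, h2⟩
  set f' : α → Option K := fun a => if P a then g a else f a with hf'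
  set g' : α → Option K := fun a => if P a then f a else g a with hg'
  have hfP : ∀ a, P a → f' a = g a := fun a ha => by rw [hf']; simp only [if_pos ha]
  have hfN : ∀ a, ¬ P a → f' a = f a := fun a ha => by rw [hf']; simp only [if_neg ha]
  have hgP : ∀ a, P a → g' a = f a := fun a ha => by rw [hg']; simp only [if_pos ha]
  have hgN : ∀ a, ¬ P a → g' a = g a := fun a ha => by rw [hg']; simp only [if_neg ha]
  have hcross : ∀ a b c, P a → ¬ P b → g a = some c → f b = some c → False := by
    intro a b c ha hb h1 h2
    have hat : a ≠ t := by rintro rfl; rw [hgt] at h1; exact absurd h1 (by simp)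
    obtain ⟨p, c', hp, h3, h4⟩ := hpred a ha hat
    have : c' = c := Option.some.inj (h4.symm.trans h1)
    subst this
    have := hf.1.inj p b c' h3 h2
    exact hb (this ▸ hp)
  have hpm : PM L f' := by
    refine ⟨fun a c h => ?_, fun a b c h1 h2 => ?_⟩
    · by_cases ha : P a
      · rw [hfP a ha] at h; exact hg.1.mem a c h
      · rw [hfN a ha] at h; exact hf.1.mem a c h
    · by_cases ha : P a <;> by_cases hb : P b
      · rw [hfP a ha] at h1; rw [hfP b hb] at h2; exact hg.1.inj a b c h1 h2
      · rw [hfP a ha] at h1; rw [hfN b hb] at h2; exact (hcross a b c ha hb h1 h2).elim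
      · rw [hfN a ha] at h1; rw [hfP b hb] at h2; exact (hcross b a c hb ha h2 h1).elim
      · rw [hfN a ha] at h1; rw [hfN b hb] at h2; exact hf.1.inj a b c h1 h2
  have hpm' : PM L g' := by
    refine ⟨fun a c h => ?_, fun a b c h1 h2 => ?_⟩
    · by_cases ha : P a
      · rw [hgP a ha] at h; exact hf.1.mem a c h
      · rw [hgN a ha] at h; exact hg.1.mem a c h
    · by_cases ha : P a <;> by_cases hb : P b
      · rw [hgP a ha] at h1; rw [hgP b hb] at h2; exact hf.1.inj a b c h1 h2
      · rw [hgP a ha] at h1; rw [hgN b hb] at h2; exact (hb (hsucc a b c ha h1 h2)).elim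
      · rw [hgN a ha] at h1; rw [hgP b hb] at h2; exact (ha (hsucc b a c hb h2 h1)).elim
      · rw [hgN a ha] at h1; rw [hgN b hb] at h2; exact hg.1.inj a b c h1 h2
  have hsum : (om f').card + (om g').card = (om f).card + (om g).card := by
    rw [E03a.card_om, E03a.card_om, E03a.card_om, E03a.card_om, ← Finset.sum_add_distrib,
      ← Finset.sum_add_distrib]
    refine Finset.sum_congr rfl (fun a _ => ?_)
    by_cases ha : P a
    · rw [hfP a ha, hgP a ha, add_comm]
    · rw [hfN a ha, hgN a ha]
  have hm1 := hf.2 f' hpm
  have hm2 := hg.2 g' hpm'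
  have hm3 := hf.2 g hg.1
  have hm4 := hg.2 f hf.1
  have hcard : (om f').card = (om f).card := by omega
  have hopt : IsOpt L f' := ⟨hpm, fun h hh => by rw [hcard]; exact hf.2 h hh⟩
  have hf't : f' t = none := by rw [hfP t hPt]; exact hgt
  -- the omitted elements in P
  have hone : ((om f).filter P).card = 1 := by
    have h1 : om f' = insert t ((om f).filter fun a => ¬ P a) := by
      ext a
      rw [mem_insert, mem_filter]
      unfold om
      rw [mem_filter, mem_filter]
      constructor
      · rintro ⟨_, h⟩
        by_cases ha : P a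
        · left
          by_contra hat
          obtain ⟨p, c, _, _, h4⟩ := hpred a ha hat
          rw [hfP a ha, h4] at h
          exact absurd h (by simp)
        · right
          rw [hfN a ha] at h
          exact ⟨⟨mem_univ _, h⟩, ha⟩
      · rintro (rfl | ⟨⟨_, h⟩, ha⟩)
        · exact ⟨mem_univ _, hf't⟩
        · exact ⟨mem_univ _, by rw [hfN a ha]; exact h⟩
    have h2 : t ∉ (om f).filter fun a => ¬ P a := by
      rw [mem_filter]; exact fun h => h.2 hPt
    rw [h1, Finset.card_insert_of_notMem h2] at hcard
    have h3 := Finset.card_filter_add_card_filter_not (s := om f) P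
    omega
  obtain ⟨b, hb⟩ := Finset.card_eq_one.1 hone
  have hbm : b ∈ (om f).filter P := by rw [hb]; exact mem_singleton_self b
  have hbo : f b = none := by
    have := (mem_filter.1 hbm).1
    unfold om at this
    exact (mem_filter.1 this).2
  refine ⟨f', hopt, hf't, ?_, b, hbo, ?_⟩
  · have hsub : E03a.U f' ⊆ E03a.U f := by
      intro c hc
      unfold E03a.U at hc ⊢
      rw [mem_filter] at hc ⊢
      refine ⟨mem_univ _, ?_⟩
      obtain ⟨a, ha⟩ := hc.2
      by_cases hPa : P a
      · rw [hfP a hPa] at ha
        have hat : a ≠ t := by rintro rfl; rw [hgt] at ha; exact absurd ha (by simp)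
        obtain ⟨p, c', _, h3, h4⟩ := hpred a hPa hat
        have : c' = c := Option.some.inj (h4.symm.trans ha)
        exact ⟨p, this ▸ h3⟩
      · rw [hfN a hPa] at ha; exact ⟨a, ha⟩
    have hU1 := E03a.card_U hpm
    have hU2 := E03a.card_U hf.1
    have heq : E03a.U f' = E03a.U f := Finset.eq_of_subset_of_card_le hsub (by omega)
    intro c
    have := Finset.ext_iff.1 heq c
    unfold E03a.U at this
    rw [mem_filter, mem_filter] at this
    simpa using this
  · intro a ha hab
    have hPa : ¬ P a := by
      intro hPa
      have : a ∈ (om f).filter P := by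
        rw [mem_filter]
        unfold om
        rw [mem_filter]
        exact ⟨⟨mem_univ _, ha⟩, hPa⟩
      rw [hb, mem_singleton] at this
      exact hab this
    rw [hfN a hPa]; exact ha

omit [Fintype K] in
theorem e03b_mem_om {f : α → Option K} {a : α} : a ∈ om f ↔ f a = none := by
  simp [om]

omit [Fintype K] in
theorem e03b_mem_TT {t : α} : t ∈ TT L ↔ ∃ f, IsOpt L f ∧ f t = none := by
  simp [TT]

omit [Fintype K] in
/-- an omitted element has only used colours in its list -/
theorem e03b_aug {f : α → Option K} (hf : IsOpt L f) {a : α} (ha : f a = none) {c : K}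
    (hc : c ∈ L a) : ∃ s, f s = some c := by
  by_contra hcon
  push Not at hcon
  have hg : PM L (Function.update f a (some c)) := by
    refine ⟨fun x y hx => ?_, fun x z y hx hz => ?_⟩
    · by_cases hxa : x = a
      · subst hxa
        rw [Function.update_self] at hx
        exact (Option.some.inj hx) ▸ hc
      · rw [Function.update_of_ne hxa] at hx
        exact hf.1.mem x y hx
    · by_cases hxa : x = a
      · by_cases hza : z = a
        · rw [hxa, hza]
        · subst hxa
          rw [Function.update_self] at hx
          rw [Function.update_of_ne hza] at hz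
          exact absurd (by rw [hz, ← hx]) (hcon z)
      · by_cases hza : z = a
        · subst hza
          rw [Function.update_self] at hz
          rw [Function.update_of_ne hxa] at hx
          exact absurd (by rw [hx, ← hz]) (hcon x)
        · rw [Function.update_of_ne hxa] at hx
          rw [Function.update_of_ne hza] at hz
          exact hf.1.inj x z y hx hz
  have hlt : (om (Function.update f a (some c))).card < (om f).card := by
    refine card_lt_card ⟨fun x hx => ?_, fun hsub => ?_⟩
    · rw [e03b_mem_om] at hx ⊢
      by_cases hxa : x = a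
      · rw [hxa]; exact ha
      · rwa [Function.update_of_ne hxa] at hx
    · have := hsub (e03b_mem_om.2 ha)
      rw [e03b_mem_om, Function.update_self] at this
      exact absurd this (by simp)
  exact absurd (hf.2 _ hg) (not_le.2 hlt)

omit [Fintype K] in
/-- one alternating step -/
theorem e03b_shift {f : α → Option K} (hf : IsOpt L f) {a s : α} (ha : f a = none) {c : K}
    (hc : c ∈ L a) (hs : f s = some c) :
    IsOpt L (Function.update (Function.update f a (some c)) s none) := by
  have hsa : s ≠ a := fun h => by rw [h, ha] at hs; exact absurd hs (by simp)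
  set g := Function.update (Function.update f a (some c)) s none with hg
  have gs : g s = none := by rw [hg, Function.update_self]
  have ga : g a = some c := by
    rw [hg, Function.update_of_ne (Ne.symm hsa), Function.update_self]
  have go : ∀ x, x ≠ s → x ≠ a → g x = f x := fun x h1 h2 => by
    rw [hg, Function.update_of_ne h1, Function.update_of_ne h2]
  have hPM : PM L g := by
    refine ⟨fun x y hx => ?_, fun x z y hx hz => ?_⟩
    · by_cases h1 : x = s
      · rw [h1, gs] at hx; exact absurd hx (by simp)
      · by_cases h2 : x = a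
        · rw [h2, ga] at hx
          rw [h2]
          exact (Option.some.inj hx) ▸ hc
        · rw [go x h1 h2] at hx
          exact hf.1.mem x y hx
    · by_cases h1 : x = s
      · rw [h1, gs] at hx; exact absurd hx (by simp)
      by_cases h1' : z = s
      · rw [h1', gs] at hz; exact absurd hz (by simp)
      by_cases h2 : x = a
      · by_cases h2' : z = a
        · rw [h2, h2']
        · rw [h2, ga] at hx
          rw [go z h1' h2', ← hx] at hz
          exact absurd (hf.1.inj z s c hz hs) h1'
      · by_cases h2' : z = a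
        · rw [h2', ga] at hz
          rw [go x h1 h2, ← hz] at hx
          exact absurd (hf.1.inj x s c hx hs) h1
        · rw [go x h1 h2] at hx
          rw [go z h1' h2'] at hz
          exact hf.1.inj x z y hx hz
  refine ⟨hPM, fun k hk => le_trans ?_ (hf.2 k hk)⟩
  have hsub : om g ⊆ insert s ((om f).erase a) := by
    intro x hx
    rw [e03b_mem_om] at hx
    by_cases h1 : x = s
    · rw [h1]; exact mem_insert_self _ _
    · by_cases h2 : x = a
      · rw [h2, ga] at hx; exact absurd hx (by simp)
      · rw [go x h1 h2] at hx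
        exact mem_insert_of_mem (mem_erase.2 ⟨h2, e03b_mem_om.2 hx⟩)
  refine (card_le_card hsub).trans ((card_insert_le _ _).trans ?_)
  have ham : a ∈ om f := e03b_mem_om.2 ha
  rw [card_erase_of_mem ham]
  have : 0 < (om f).card := card_pos.2 ⟨a, ham⟩
  omega

omit [Fintype K] in
/-- elements reachable by an alternating path are omitted by an optimal matching -/
theorem e03b_path (n : ℕ) : ∀ f : α → Option K, IsOpt L f → ∀ p : ℕ → α, f (p 0) = none →
    (∀ i < n, ∃ c ∈ L (p i), f (p (i + 1)) = some c) → p n ∈ TT L := by
  induction n using Nat.strong_induction_on with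
  | _ n ih =>
    intro f hf p h0 hp
    rcases n with _ | m
    · exact e03b_mem_TT.2 ⟨f, hf, h0⟩
    obtain ⟨c0, hc0, h1⟩ := hp 0 (by omega)
    by_cases h : ∃ j, 2 ≤ j ∧ j ≤ m + 1 ∧ p j = p 1
    · obtain ⟨j, hj2, hjm, hj⟩ := h
      have := ih (m + 1 - (j - 1)) (by omega) f hf (fun i => if i = 0 then p 0 else p (i + (j - 1)))
        (by simpa using h0) (by
          intro i hi
          rcases Nat.eq_zero_or_pos i with hi0 | hi0
          · subst hi0
            refine ⟨c0, by simpa using hc0, ?_⟩
            have : 0 + 1 + (j - 1) = j := by omega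
            simp only [zero_add, one_ne_zero, if_false]
            rw [show 1 + (j - 1) = j by omega, hj]
            exact h1
          · obtain ⟨c, hc, hc'⟩ := hp (i + (j - 1)) (by omega)
            refine ⟨c, by simpa [hi0.ne'] using hc, ?_⟩
            simp only [Nat.succ_ne_zero, if_false]
            rw [show i + 1 + (j - 1) = i + (j - 1) + 1 by omega]
            exact hc')
      have hne : m + 1 - (j - 1) ≠ 0 := by omega
      simp only [hne, if_false] at this
      rwa [show m + 1 - (j - 1) + (j - 1) = m + 1 by omega] at this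
    · push Not at h
      have hopt := e03b_shift hf h0 hc0 h1
      exact ih m (by omega) _ hopt (fun i => p (i + 1)) (by simp) (by
        intro i hi
        obtain ⟨c, hc, hc'⟩ := hp (i + 1) (by omega)
        refine ⟨c, hc, ?_⟩
        have hne1 : p (i + 1 + 1) ≠ p (0 + 1) := h (i + 2) (by omega) (by omega)
        have hne0 : p (i + 1 + 1) ≠ p 0 := fun he => by
          rw [he, h0] at hc'; exact absurd hc' (by simp)
        show Function.update (Function.update f (p 0) (some c0)) (p (0 + 1)) none (p (i + 1 + 1)) = _
        rw [Function.update_of_ne hne1, Function.update_of_ne hne0]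
        exact hc')

omit [Fintype α] [Fintype K] in
theorem e03b_inj {f : α → Option K} (hf : PM L f) (R : Finset α) :
    ((R.filter fun a => f a ≠ none).image f).card = (R.filter fun a => f a ≠ none).card := by
  refine card_image_of_injOn fun x hx z hz hxz => ?_
  have hx' := (mem_filter.1 hx).2
  obtain ⟨c, hc⟩ := Option.ne_none_iff_exists'.1 hx'
  have hxz' : f x = f z := hxz
  exact hf.inj x z c hc (by rw [← hxz', hc])

omit [Fintype α] [Fintype K] in
/-- the colours of a closed set are matched with its non-omitted elements -/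
theorem e03b_count {f : α → Option K} (hf : PM L f) {R : Finset α}
    (h2 : ∀ t ∈ R, ∀ c ∈ L t, ∃ s ∈ R, f s = some c) :
    (R.biUnion L).card = (R.filter fun a => f a ≠ none).card := by
  rw [← e03b_inj hf R, ← card_image_of_injective (R.biUnion L) (Option.some_injective K)]
  congr 1
  ext y
  simp only [mem_image, mem_biUnion, mem_filter]
  constructor
  · rintro ⟨c, ⟨t, ht, hc⟩, rfl⟩
    obtain ⟨s, hs, hs'⟩ := h2 t ht c hc
    exact ⟨s, ⟨hs, by rw [hs']; simp⟩, hs'⟩
  · rintro ⟨a, ⟨ha, hne⟩, rfl⟩
    obtain ⟨c, hc⟩ := Option.ne_none_iff_exists'.1 hne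
    exact ⟨c, ⟨a, ha, hf.mem a c hc⟩, hc.symm⟩

omit [Fintype α] [Fintype K] in
theorem e03b_count_le {g : α → Option K} (hg : PM L g) (R : Finset α) :
    (R.filter fun a => g a ≠ none).card ≤ (R.biUnion L).card := by
  rw [← e03b_inj hg R, ← card_image_of_injective (R.biUnion L) (Option.some_injective K)]
  refine card_le_card fun y hy => ?_
  simp only [mem_image, mem_biUnion, mem_filter] at hy ⊢
  obtain ⟨a, ⟨ha, hne⟩, rfl⟩ := hy
  obtain ⟨c, hc⟩ := Option.ne_none_iff_exists'.1 hne
  exact ⟨c, ⟨a, ha, hg.mem a c hc⟩, hc.symm⟩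

omit [Fintype K] in
theorem e03b_split (f : α → Option K) {R : Finset α} (h1 : om f ⊆ R) :
    (R.filter fun a => f a ≠ none).card + (om f).card = R.card := by
  have : om f = R.filter fun a => ¬ (f a ≠ none) := by
    ext x
    simp only [mem_filter, not_not, e03b_mem_om]
    exact ⟨fun h => ⟨h1 (e03b_mem_om.2 h), h⟩, fun h => h.2⟩
  rw [this]
  exact card_filter_add_card_filter_not _

omit [Fintype K] in
/-- a closed set containing all omitted elements contains `TT L` -/
theorem e03b_closed {f : α → Option K} (hf : IsOpt L f) {R : Finset α} (h1 : om f ⊆ R)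
    (h2 : ∀ t ∈ R, ∀ c ∈ L t, ∃ s ∈ R, f s = some c) : TT L ⊆ R := by
  intro t ht
  obtain ⟨g, hg, hgt⟩ := e03b_mem_TT.1 ht
  by_contra htR
  have hc1 := e03b_count hf.1 h2
  have hc2 := e03b_count_le hg.1 R
  have hc3 := e03b_split f h1
  have hc4 : (R.filter fun a => g a ≠ none).card + (R.filter fun a => ¬ (g a ≠ none)).card
      = R.card := card_filter_add_card_filter_not _
  have hc5 : (R.filter fun a => ¬ (g a ≠ none)).card < (om g).card := by
    refine card_lt_card ⟨fun x hx => ?_, fun hsub => ?_⟩
    · rw [mem_filter, not_not] at hx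
      exact e03b_mem_om.2 hx.2
    · exact htR (mem_filter.1 (hsub (e03b_mem_om.2 hgt))).1
  have hc6 := hg.2 f hf.1
  omega

/-- row E03b -/
theorem dm_used {f : α → Option K} (hf : IsOpt L f) {t : α} (ht : t ∈ TT L) {c : K} (hc : c ∈ L t) :
    ∃ s ∈ TT L, f s = some c := by
  have hused : ∀ t ∈ TT L, ∀ c ∈ L t, ∃ s, f s = some c := by
    intro t ht c hc
    obtain ⟨g, hg, hgt, hgu, -⟩ := dm_exch hf ht
    exact (hgu c).1 (e03b_aug hg hgt hc)
  set R : Finset α := univ.filter fun a => ∃ n : ℕ, ∃ p : ℕ → α, f (p 0) = none ∧
    (∀ i < n, ∃ c ∈ L (p i), f (p (i + 1)) = some c) ∧ p n = a with hR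
  have hRT : R ⊆ TT L := by
    intro a ha
    obtain ⟨n, p, h0, hp, rfl⟩ := (mem_filter.1 ha).2
    exact e03b_path n f hf p h0 hp
  have h1 : om f ⊆ R := fun a ha => mem_filter.2 ⟨mem_univ _, 0, fun _ => a,
    e03b_mem_om.1 ha, fun i hi => absurd hi (by omega), rfl⟩
  have h2 : ∀ t ∈ R, ∀ c ∈ L t, ∃ s ∈ R, f s = some c := by
    intro t ht c hc
    obtain ⟨s, hs⟩ := hused t (hRT ht) c hc
    refine ⟨s, mem_filter.2 ⟨mem_univ _, ?_⟩, hs⟩
    obtain ⟨n, p, h0, hp, rfl⟩ := (mem_filter.1 ht).2
    refine ⟨n + 1, fun i => if i ≤ n then p i else s, by simpa using h0, fun i hi => ?_, by simp⟩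
    rcases Nat.lt_or_ge i n with hin | hin
    · obtain ⟨c', hc', hc''⟩ := hp i hin
      refine ⟨c', by simpa [hin.le] using hc', ?_⟩
      simpa [Nat.succ_le_of_lt hin] using hc''
    · have : i = n := by omega
      subst this
      exact ⟨c, by simpa using hc, by simpa using hs⟩
  have hTR := e03b_closed hf h1 h2
  obtain ⟨s, hs, hs'⟩ := h2 t (hTR ht) c hc
  exact ⟨s, hRT hs, hs'⟩

/-- row E03b -/
theorem dm_card {f : α → Option K} (hf : IsOpt L f) :
    (TT L).card = ((TT L).biUnion L).card + (om f).card := by
  have h1 : om f ⊆ TT L := fun a ha => e03b_mem_TT.2 ⟨f, hf, e03b_mem_om.1 ha⟩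
  rw [e03b_count hf.1 fun t ht c hc => dm_used hf ht hc, e03b_split f h1]

-- END E03b

theorem e03c_mem_om {f : α → Option K} {a : α} : a ∈ om f ↔ f a = none := by
  simp [om]

/-- un-matching the owner of `l` in an optimal matching gives an optimal matching of the erased lists -/
theorem e03c_unmatch {t : α} (ht : t ∈ TT L) {l : K} (hl : l ∈ L t) {f : α → Option K}
    (hf : IsOpt L f) {o : α} (ho : f o = some l) :
    IsOpt (fun a => (L a).erase l) (Function.update f o none) ∧
      (om (Function.update f o none)).card = (om f).card + 1 := by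
  have hcard : (om (Function.update f o none)).card = (om f).card + 1 := by
    have : om (Function.update f o none) = insert o (om f) := by
      ext a
      by_cases h : a = o
      · subst h; simp [e03c_mem_om]
      · simp [e03c_mem_om, Function.update_of_ne h, h]
    rw [this, card_insert_of_notMem]
    simp [e03c_mem_om, ho]
  refine ⟨⟨⟨?_, ?_⟩, ?_⟩, hcard⟩
  · intro a c hac
    by_cases h : a = o
    · subst h; simp at hac
    · rw [Function.update_of_ne h] at hac
      refine mem_erase.2 ⟨?_, hf.1.mem a c hac⟩
      rintro rfl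
      exact h (hf.1.inj a o c hac ho)
  · intro a b c ha hb
    by_cases h : a = o
    · subst h; simp at ha
    · by_cases h' : b = o
      · subst h'; simp at hb
      · rw [Function.update_of_ne h] at ha
        rw [Function.update_of_ne h'] at hb
        exact hf.1.inj a b c ha hb
  · intro g hg
    rw [hcard]
    have hgL : PM L g := ⟨fun a c hac => (mem_erase.1 (hg.mem a c hac)).2, hg.inj⟩
    have h1 := hf.2 g hgL
    rcases Nat.lt_or_ge (om f).card (om g).card with h | h
    · exact h
    · exfalso
      have hopt : IsOpt L g := ⟨hgL, fun k hk => h.trans (hf.2 k hk)⟩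
      obtain ⟨s, _, hs⟩ := dm_used hopt ht hl
      exact (mem_erase.1 (hg.mem s l hs)).1 rfl

/-- row E03c -/
theorem dm_pair {t t' : α} (hne : t ≠ t') (ht : t ∈ TT L) (ht' : t' ∈ TT L) {l : K}
    (hl : l ∈ L t) (hl' : l ∈ L t') (h1 : ∀ f, IsOpt L f → f t = none → f t' = some l)
    (h2 : ∀ f, IsOpt L f → f t' = none → f t = some l) :
    ∀ s ∈ TT L, l ∈ L s → s = t ∨ s = t' := by
  intro s hs hls
  by_contra hcon
  push Not at hcon
  obtain ⟨hst, hst'⟩ := hcon
  obtain ⟨f, hf, hft⟩ := mem_TT.1 ht
  have hft' := h1 f hf hft
  obtain ⟨hf1, hf1c⟩ := e03c_unmatch ht hl hf hft'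
  -- `s` is omitted by some optimal matching of the erased lists
  obtain ⟨g, hg, hgs⟩ := mem_TT.1 hs
  obtain ⟨o, _, ho⟩ := dm_used hg ht hl
  obtain ⟨hg', _⟩ := e03c_unmatch ht hl hg ho
  have hsT : s ∈ TT (fun a => (L a).erase l) := by
    refine mem_TT.2 ⟨_, hg', ?_⟩
    by_cases h : s = o
    · subst h; simp
    · rw [Function.update_of_ne h]; exact hgs
  obtain ⟨g1, hg1, hg1s, _, b, hb, hbn⟩ := dm_exch hf1 hsT
  have hnol : ∀ a, g1 a ≠ some l := fun a ha => (mem_erase.1 (hg1.1.mem a l ha)).1 rfl
  have hg2 : IsOpt L (Function.update g1 s (some l)) := by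
    refine ⟨⟨?_, ?_⟩, ?_⟩
    · intro a c hac
      by_cases h : a = s
      · subst h
        rw [Function.update_self, Option.some.injEq] at hac
        subst hac; exact hls
      · rw [Function.update_of_ne h] at hac
        exact (mem_erase.1 (hg1.1.mem a c hac)).2
    · intro a b' c ha hb'
      by_cases h : a = s
      · subst h
        rw [Function.update_self, Option.some.injEq] at ha
        subst ha
        by_cases h' : b' = a
        · exact h'.symm
        · rw [Function.update_of_ne h'] at hb'
          exact absurd hb' (hnol b')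
      · rw [Function.update_of_ne h] at ha
        by_cases h' : b' = s
        · subst h'
          rw [Function.update_self, Option.some.injEq] at hb'
          subst hb'
          exact absurd ha (hnol a)
        · rw [Function.update_of_ne h'] at hb'
          exact hg1.1.inj a b' c ha hb'
    · intro k hk
      have hom : om g1 = insert s (om (Function.update g1 s (some l))) := by
        ext a
        by_cases h : a = s
        · subst h; simp [e03c_mem_om, hg1s]
        · simp [e03c_mem_om, Function.update_of_ne h, h]
      have hc : (om g1).card = (om (Function.update g1 s (some l))).card + 1 := by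
        conv_lhs => rw [hom]
        rw [card_insert_of_notMem]
        simp [e03c_mem_om]
      have h3 := hg1.2 _ hf1.1
      have h4 := hf.2 k hk
      omega
  have hs2 : Function.update g1 s (some l) s = some l := by simp
  by_cases hbt : b = t
  · have h5 : g1 t' = none := by
      apply hbn
      · simp
      · rw [hbt]; exact hne.symm
    have h6 : Function.update g1 s (some l) t' = none := by
      rw [Function.update_of_ne (Ne.symm hst')]; exact h5
    have h7 := h2 _ hg2 h6
    exact hst (hg2.1.inj _ _ _ hs2 h7)
  · have h5 : g1 t = none := by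
      apply hbn
      · rw [Function.update_of_ne hne]; exact hft
      · exact fun h => hbt h.symm
    have h6 : Function.update g1 s (some l) t = none := by
      rw [Function.update_of_ne (Ne.symm hst)]; exact h5
    have h7 := h1 _ hg2 h6
    exact hst' (hg2.1.inj _ _ _ hs2 h7)

/-- row E03c -/
theorem dm_closed {f : α → Option K} (hf : IsOpt L f) {R : Finset α} (h1 : om f ⊆ R)
    (h2 : ∀ t ∈ R, ∀ c ∈ L t, ∃ s ∈ R, f s = some c) : TT L ⊆ R := by
  intro t ht
  by_contra htR
  obtain ⟨g, hg, hgt⟩ := mem_TT.1 ht
  have hAB : (R.filter fun a => g a ≠ none).card ≤ (R.filter fun a => f a ≠ none).card := by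
    have hex : ∀ a ∈ R.filter (fun a => g a ≠ none), ∃ s ∈ R.filter (fun a => f a ≠ none),
        ∃ c, g a = some c ∧ f s = some c := by
      intro a ha
      rw [mem_filter] at ha
      obtain ⟨c, hc⟩ := Option.ne_none_iff_exists'.1 ha.2
      obtain ⟨s, hs, hsc⟩ := h2 a ha.1 c (hg.1.mem a c hc)
      exact ⟨s, mem_filter.2 ⟨hs, by rw [hsc]; simp⟩, c, hc, hsc⟩
    choose! σ hσ using hex
    apply card_le_card_of_injOn σ
    · intro a ha
      exact (hσ a ha).1
    · intro a ha a' ha' haa
      obtain ⟨_, c, hc, hc'⟩ := hσ a ha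
      obtain ⟨_, d, hd, hd'⟩ := hσ a' ha'
      rw [haa, hd'] at hc'
      rw [Option.some.injEq] at hc'
      subst hc'
      exact hg.1.inj a a' d hc hd
  have hRg := card_filter_add_card_filter_not (s := R) (fun a => g a = none)
  have hRf := card_filter_add_card_filter_not (s := R) (fun a => f a = none)
  have hfR : R.filter (fun a => f a = none) = om f := by
    ext a
    rw [mem_filter, e03c_mem_om]
    exact ⟨fun h => h.2, fun h => ⟨h1 (e03c_mem_om.2 h), h⟩⟩
  have hsub : insert t (R.filter fun a => g a = none) ⊆ om g := by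
    intro a ha
    rw [mem_insert, mem_filter] at ha
    rw [e03c_mem_om]
    rcases ha with rfl | ha
    · exact hgt
    · exact ha.2
  have hc := card_le_card hsub
  rw [card_insert_of_notMem (fun h => htR (mem_filter.1 h).1)] at hc
  have hgf := hg.2 f hf.1
  rw [hfR] at hRf
  simp only [ne_eq] at hAB
  omega

/-- row E03c: delete the list of an omittable element `z` -/
theorem dm_del {f : α → Option K} (hf : IsOpt L f) {z : α} (hz : f z = none) :
    IsOpt (fun a => if a = z then (∅ : Finset K) else L a) f ∧
    ∀ a, a ∈ TT (fun a => if a = z then (∅ : Finset K) else L a) ↔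
      ∃ g, IsOpt L g ∧ g a = none ∧ g z = none := by
  have key : ∀ g : α → Option K, IsOpt L g → g z = none →
      IsOpt (fun a => if a = z then (∅ : Finset K) else L a) g := by
    intro g hg hgz
    refine ⟨⟨?_, hg.1.inj⟩, ?_⟩
    · intro a c hac
      have hne : a ≠ z := by
        rintro rfl
        rw [hgz] at hac; simp at hac
      simp only [hne, if_false]
      exact hg.1.mem a c hac
    · intro k hk
      apply hg.2
      refine ⟨fun a c hac => ?_, hk.inj⟩
      have := hk.mem a c hac
      split_ifs at this with h
      · simp at this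
      · exact this
  have hfz := key f hf hz
  refine ⟨hfz, fun a => ⟨fun ha => ?_, ?_⟩⟩
  · obtain ⟨g, hg, hga⟩ := mem_TT.1 ha
    have hgz : g z = none := by
      by_contra h
      obtain ⟨c, hc⟩ := Option.ne_none_iff_exists'.1 h
      have := hg.1.mem z c hc
      simp at this
    refine ⟨g, ⟨⟨fun b c hbc => ?_, hg.1.inj⟩, fun k hk => ?_⟩, hga, hgz⟩
    · have := hg.1.mem b c hbc
      split_ifs at this with h
      · simp at this
      · exact this
    · exact (hg.2 f hfz.1).trans (hf.2 k hk)
  · rintro ⟨g, hg, hga, hgz⟩
    exact mem_TT.2 ⟨g, key g hg hgz, hga⟩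

end MP405E
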