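import Mathlib
import Pool.Agent.Lib.MP_405d56_lc.EDefs

/-! # Kempe components and swaps (row E01), assignment of colours at a vertex (row E02) -/

set_option autoImplicit false
set_option linter.unusedSectionVars false

namespace MP405E

open Finset Classical

variable {V E K : Type} [Fintype V] [Fintype E] [Fintype K]

namespace MG

variable (G : MG V E) {φ : E → Option K}

theorem mem_mis {v : V} {c : K} : c ∈ G.mis φ v ↔ ∀ e, G.inc e v → φ e ≠ some c := by
  simp [mis]

theorem mem_clean {c : K} : c ∈ G.clean φ ↔ ∀ e ∈ G.S, φ e ≠ some c := by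
  simp [clean]

theorem mem_ord {v : V} {e : E} : e ∈ G.ord v ↔ e ∉ G.S ∧ G.inc e v := by
  simp [ord]

theorem mem_comp {x y : K} {v w : V} :
    w ∈ G.comp φ x y v ↔ Relation.ReflTransGen (G.step φ x y) v w := by
  simp [comp]

/-! ## Row E01a: components -/

theorem step_symm {x y : K} {u w : V} (h : G.step φ x y u w) : G.step φ x y w u := by
  obtain ⟨e, h1, h2, h3⟩ := h
  exact ⟨e, h1, h3, h2⟩

theorem comp_self (x y : K) (v : V) : v ∈ G.comp φ x y v := by
  simp [comp, Relation.ReflTransGen.refl]

theorem comp_closed (x y : K) (v : V) : G.Closed φ x y (G.comp φ x y v) := by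
  intro e he
  simp only [comp, mem_filter, mem_univ, true_and]
  constructor
  · intro h
    exact h.tail ⟨e, he, Or.inl rfl, Or.inr rfl⟩
  · intro h
    exact h.tail ⟨e, he, Or.inr rfl, Or.inl rfl⟩

theorem comp_eq {x y : K} {v w : V} (h : w ∈ G.comp φ x y v) :
    G.comp φ x y w = G.comp φ x y v := by
  have h' : Relation.ReflTransGen (G.step φ x y) v w := by simpa [comp] using h
  have h'' : Relation.ReflTransGen (G.step φ x y) w v := by
    clear h
    induction h' with
    | refl => exact Relation.ReflTransGen.refl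
    | tail _ h2 ih => exact Relation.ReflTransGen.head (G.step_symm h2) ih
  ext u
  simp only [comp, mem_filter, mem_univ, true_and]
  exact ⟨fun hu => h'.trans hu, fun hu => h''.trans hu⟩

theorem comp_comm (x y : K) (v : V) : G.comp φ x y v = G.comp φ y x v := by
  have h : G.step φ x y = G.step φ y x := by
    ext u w
    constructor
    · rintro ⟨e, h1, h2⟩
      exact ⟨e, h1.symm, h2⟩
    · rintro ⟨e, h1, h2⟩
      exact ⟨e, h1.symm, h2⟩
  unfold comp
  rw [h]

theorem comp_subset {x y : K} {C : Finset V} (hC : G.Closed φ x y C) {v : V} (hv : v ∈ C) :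
    G.comp φ x y v ⊆ C := by
  intro w hw
  have h : Relation.ReflTransGen (G.step φ x y) v w := by simpa [comp] using hw
  induction h with
  | refl => exact hv
  | tail h1 h2 ih =>
    have hb := ih (by simpa [comp] using h1)
    obtain ⟨e, he, hu, hw'⟩ := h2
    have hc := hC e he
    rcases hu with hu | hu <;> rcases hw' with hw' | hw'
    · rw [← hw', hu]; exact hb
    · rw [← hw', ← hc, hu]; exact hb
    · rw [← hw', hc, hu]; exact hb
    · rw [← hw', hu]; exact hb

/-- a vertex missing both colours is its own component -/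
theorem comp_isolated {x y : K} {v : V} (hx : x ∈ G.mis φ v) (hy : y ∈ G.mis φ v) :
    G.comp φ x y v = {v} := by
  apply Finset.Subset.antisymm
  · apply G.comp_subset _ (mem_singleton_self v)
    intro e he
    simp only [mis, mem_filter, mem_univ, true_and] at hx hy
    have hn : ¬ G.inc e v := by
      intro hi
      rcases he with he | he
      · exact hx e hi he
      · exact hy e hi he
    simp only [mem_singleton]
    constructor
    · intro h
      exact absurd (Or.inl h) hn
    · intro h
      exact absurd (Or.inr h) hn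
  · simp [G.comp_self]

/-- a vertex missing both colours belongs to no component of another vertex -/
theorem not_mem_comp {x y : K} {v w : V} (hx : x ∈ G.mis φ w) (hy : y ∈ G.mis φ w)
    (hne : w ≠ v) : w ∉ G.comp φ x y v := by
  intro h
  have h1 := G.comp_eq h
  rw [G.comp_isolated hx hy] at h1
  have h2 := G.comp_self (φ := φ) x y v
  rw [← h1, mem_singleton] at h2
  exact hne h2.symm

/-- the edges of colours `x`, `y` at `u` -/
noncomputable def e01bED (φ : E → Option K) (x y : K) (u : V) : Finset E :=
  univ.filter fun e => G.inc e u ∧ (φ e = some x ∨ φ e = some y)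

theorem e01b_ED_le (hp : G.Proper φ) {x y : K} (u : V) : (G.e01bED φ x y u).card ≤ 2 := by
  have h : (G.e01bED φ x y u).image φ ⊆ {some x, some y} := by
    intro o ho
    simp only [e01bED, mem_image, mem_filter, mem_univ, true_and] at ho
    obtain ⟨e, ⟨_, h1⟩, rfl⟩ := ho
    simpa using h1
  have h2 := Finset.card_le_card h
  rw [Finset.card_image_of_injOn] at h2
  · exact h2.trans Finset.card_le_two
  · intro e he e' he' hh
    simp only [e01bED, coe_filter, mem_univ, true_and, Set.mem_ofPred_eq] at he he'
    rcases he.2 with h1 | h1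
    · exact hp e e' u x he.1 he'.1 h1 (hh ▸ h1)
    · exact hp e e' u y he.1 he'.1 h1 (hh ▸ h1)

theorem e01b_ED_le' (hp : G.Proper φ) {x y : K} (u : V)
    (m : x ∈ G.mis φ u ∨ y ∈ G.mis φ u) : (G.e01bED φ x y u).card ≤ 1 := by
  rw [Finset.card_le_one]
  intro e he e' he'
  simp only [e01bED, mem_filter, mem_univ, true_and] at he he'
  rcases m with m | m
  · rw [G.mem_mis] at m
    exact hp e e' u y he.1 he'.1 (he.2.resolve_left (m e he.1)) (he'.2.resolve_left (m e' he'.1))
  · rw [G.mem_mis] at m
    exact hp e e' u x he.1 he'.1 (he.2.resolve_right (m e he.1)) (he'.2.resolve_right (m e' he'.1))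

/-- the graph on a component -/
def e01bH (φ : E → Option K) (x y : K) (v : V) : SimpleGraph {w // w ∈ G.comp φ x y v} where
  Adj p q := p ≠ q ∧ G.step φ x y p.1 q.1
  symm := ⟨fun _ _ h => ⟨h.1.symm, G.step_symm h.2⟩⟩
  loopless := ⟨fun _ h => h.1 rfl⟩

theorem e01b_conn (φ : E → Option K) (x y : K) (v : V) : (G.e01bH φ x y v).Connected := by
  have hr : ∀ w, Relation.ReflTransGen (G.step φ x y) v w → ∀ hw : w ∈ G.comp φ x y v,
      (G.e01bH φ x y v).Reachable ⟨v, G.comp_self x y v⟩ ⟨w, hw⟩ := by
    intro w h
    induction h with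
    | refl => intro _; exact SimpleGraph.Reachable.refl _
    | @tail b c h1 h2 ih =>
      intro hw
      have hb : b ∈ G.comp φ x y v := by simpa [comp] using h1
      by_cases hbc : b = c
      · subst hbc; exact ih hb
      · refine (ih hb).trans (SimpleGraph.Adj.reachable ?_)
        refine ⟨?_, h2⟩
        intro h
        exact hbc (congrArg Subtype.val h)
  haveI hne0 : Nonempty {w // w ∈ G.comp φ x y v} := ⟨⟨v, G.comp_self x y v⟩⟩
  refine SimpleGraph.Connected.mk ?_
  intro p q
  have h1 := hr p.1 (G.mem_comp.1 p.2) p.2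
  have h2 := hr q.1 (G.mem_comp.1 q.2) q.2
  exact h1.symm.trans h2

theorem e01b_deg (φ : E → Option K) (x y : K) (v : V) (p : {w // w ∈ G.comp φ x y v}) :
    (G.e01bH φ x y v).degree p ≤ (G.e01bED φ x y p.1).card := by
  have h : ((G.e01bH φ x y v).neighborFinset p).image Subtype.val ⊆
      (G.e01bED φ x y p.1).image fun e => G.oth e p.1 := by
    intro w hw
    simp only [mem_image, SimpleGraph.mem_neighborFinset] at hw
    obtain ⟨q, ⟨h1, e, h2, h3, h4⟩, rfl⟩ := hw
    rw [mem_image]
    refine ⟨e, by simp [e01bED, h2, h3], ?_⟩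
    have hne : q.1 ≠ p.1 := fun h => h1 (Subtype.ext h.symm)
    unfold oth
    rcases h3 with h3 | h3 <;> rcases h4 with h4 | h4
    · exact absurd (h4.symm.trans h3) hne
    · rw [if_pos h3, h4]
    · rw [if_neg (by rw [h4]; exact hne), h4]
    · exact absurd (h4.symm.trans h3) hne
  have h2 := Finset.card_le_card h
  rw [Finset.card_image_of_injective _ Subtype.val_injective] at h2
  rw [← SimpleGraph.card_neighborFinset_eq_degree]
  exact h2.trans Finset.card_image_le

/-! ## Row E01b: a component has at most two ends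

Proof. For a proper `φ` let `s v` be the other end of the `x`-edge at `v` (or `v` if there is none), `t v` the same
for `y`; both are involutions and `comp v` is the orbit of `v` under `s`, `t`. Suppose three different vertices
`w1,w2,w3` of one component each miss `x` or `y`. By symmetry (exchange `x` and `y`) `w1` misses `x`, `s w1 = w1`.
Put `f = s ∘ t` (a permutation). Then `s (f^i w1) = f^(-i) w1` and `t (f^i w1) = f^(-(i+1)) w1`, so the component is
`{f^i w1 | i : ℤ}`; write `w2 = f^i w1`, `w3 = f^j w1`, `n` = the minimal period of `w1` under `f`.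
`w = f^i w1` misses `x` iff `f^(2i) w1 = w1` iff `n ∣ 2i`; misses `y` iff `n ∣ 2i+1`. `w2 ≠ w1` gives `¬ n ∣ i`.
If `n ∣ 2i` and `¬ n ∣ i` then `n` is even, hence also `n ∣ 2j` (as `n ∤ 2j+1`), and `i ≡ j ≡ n/2` mod `n`, `w2 = w3`.
If `n ∣ 2i+1` then `n` is odd, hence `n ∣ 2j+1` (if `n ∣ 2j` then `n ∣ j`, `w3 = w1`), so `n ∣ 2(i-j)`, `n ∣ i-j`.
(Any other proof is fine, e.g. by induction on path length, or: no three end vertices because a connected graph with all
degrees at most two has at most two vertices of degree at most one.) -/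
theorem three_ends (hp : G.Proper φ) {x y : K} (hxy : x ≠ y) {v w1 w2 w3 : V}
    (h1 : w1 ∈ G.comp φ x y v) (h2 : w2 ∈ G.comp φ x y v) (h3 : w3 ∈ G.comp φ x y v)
    (m1 : x ∈ G.mis φ w1 ∨ y ∈ G.mis φ w1) (m2 : x ∈ G.mis φ w2 ∨ y ∈ G.mis φ w2)
    (m3 : x ∈ G.mis φ w3 ∨ y ∈ G.mis φ w3) (h12 : w1 ≠ w2) (h13 : w1 ≠ w3) (h23 : w2 ≠ w3) :
    False := by
  have hc := (G.e01b_conn φ x y v).card_vert_le_card_edgeSet_add_one
  have hs := SimpleGraph.sum_degrees_eq_twice_card_edges (G.e01bH φ x y v)
  have he : Nat.card (G.e01bH φ x y v).edgeSet = (G.e01bH φ x y v).edgeFinset.card := by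
    rw [Nat.card_eq_fintype_card, SimpleGraph.edgeFinset_card]
  rw [he] at hc
  have hsum : ∑ p, (G.e01bH φ x y v).degree p + 3 ≤ 2 * Nat.card {w // w ∈ G.comp φ x y v} := by
    let T : Finset {w // w ∈ G.comp φ x y v} := {⟨w1, h1⟩, ⟨w2, h2⟩, ⟨w3, h3⟩}
    have hT : T.card = 3 := by
      apply Finset.card_eq_three.2
      refine ⟨⟨w1, h1⟩, ⟨w2, h2⟩, ⟨w3, h3⟩, ?_, ?_, ?_, rfl⟩
      · intro h; exact h12 (congrArg Subtype.val h)
      · intro h; exact h13 (congrArg Subtype.val h)
      · intro h; exact h23 (congrArg Subtype.val h)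
    have hb : ∀ p, (G.e01bH φ x y v).degree p + (if p ∈ T then 1 else 0) ≤ 2 := by
      intro p
      have hd := G.e01b_deg φ x y v p
      split_ifs with hp'
      · have : x ∈ G.mis φ p.1 ∨ y ∈ G.mis φ p.1 := by
          simp only [T, mem_insert, mem_singleton] at hp'
          rcases hp' with rfl | rfl | rfl
          · exact m1
          · exact m2
          · exact m3
        have := G.e01b_ED_le' hp p.1 this
        omega
      · have := G.e01b_ED_le hp (x := x) (y := y) p.1
        omega
    have hs2 := Finset.sum_le_sum (fun p (_ : p ∈ (univ : Finset {w // w ∈ G.comp φ x y v})) => hb p)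
    rw [Finset.sum_add_distrib, Finset.sum_ite_mem, Finset.univ_inter, Finset.sum_const,
      Finset.sum_const, hT, Finset.card_univ] at hs2
    rw [Nat.card_eq_fintype_card]
    simp only [smul_eq_mul] at hs2
    omega
  omega

/-! ## Row E01c: swaps -/

theorem swp_none {x y : K} {C : Finset V} (e : E) : G.swp φ x y C e = none ↔ φ e = none := by
  unfold swp
  split_ifs <;> simp

theorem e01c_map {x y : K} (o : Option K) (c : K) :
    o.map (Equiv.swap x y) = some c ↔ o = some (Equiv.swap x y c) := by
  cases o with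
  | none => simp
  | some d =>
    simp only [Option.map_some, Option.some.injEq]
    constructor
    · rintro rfl; simp
    · rintro rfl; simp

theorem e01c_self {x y : K} (o : Option K) (h1 : o ≠ some x) (h2 : o ≠ some y) :
    o.map (Equiv.swap x y) = o := by
  cases o with
  | none => rfl
  | some d =>
    simp only [ne_eq, Option.some.injEq] at h1 h2
    simp [Equiv.swap_apply_of_ne_of_ne h1 h2]

/-- edges not inside `C` keep their colour -/
theorem swp_not_mem {x y : K} {C : Finset V} (hC : G.Closed φ x y C) {e : E} {v : V}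
    (he : G.inc e v) (hv : v ∉ C) : G.swp φ x y C e = φ e := by
  unfold swp
  split_ifs with h
  · have hc := hC e
    have hb : G.b e ∉ C := by
      rcases he with he | he
      · rw [he] at h; exact absurd h hv
      · rw [he]; exact hv
    apply e01c_self
    · intro h1
      exact hb ((hc (Or.inl h1)).1 h)
    · intro h1
      exact hb ((hc (Or.inr h1)).1 h)
  · rfl

/-- edges at a vertex of `C` change their colour -/
theorem swp_mem_iff {x y : K} {C : Finset V} (hC : G.Closed φ x y C) {e : E} {v : V}
    (he : G.inc e v) (hv : v ∈ C) (c : K) :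
    G.swp φ x y C e = some c ↔ φ e = some (Equiv.swap x y c) := by
  unfold swp
  split_ifs with h
  · exact e01c_map _ _
  · have hb : G.b e ∈ C := by
      rcases he with he | he
      · rw [he] at h; exact absurd hv h
      · rw [he]; exact hv
    have hx : φ e ≠ some x := fun h1 => h ((hC e (Or.inl h1)).2 hb)
    have hy : φ e ≠ some y := fun h1 => h ((hC e (Or.inr h1)).2 hb)
    rw [← e01c_map, e01c_self _ hx hy]

/-- edges of a third colour keep their colour -/
theorem swp_other {x y : K} {C : Finset V} (e : E) {c : K} (h1 : c ≠ x) (h2 : c ≠ y) :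
    G.swp φ x y C e = some c ↔ φ e = some c := by
  unfold swp
  split_ifs with h
  · rw [e01c_map, Equiv.swap_apply_of_ne_of_ne h1 h2]
  · rfl

theorem swp_proper (hp : G.Proper φ) {x y : K} {C : Finset V} (hC : G.Closed φ x y C) :
    G.Proper (G.swp φ x y C) := by
  intro e e' v c hi hi' h1 h2
  by_cases hv : v ∈ C
  · rw [G.swp_mem_iff hC hi hv] at h1
    rw [G.swp_mem_iff hC hi' hv] at h2
    exact hp e e' v _ hi hi' h1 h2
  · rw [G.swp_not_mem hC hi hv] at h1
    rw [G.swp_not_mem hC hi' hv] at h2
    exact hp e e' v _ hi hi' h1 h2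

/-- swapping a clean colour keeps the colouring good -/
theorem swp_good (h : G.Good φ) {x y : K} {C : Finset V} (hC : G.Closed φ x y C)
    (hy : y ∈ G.clean φ) : G.Good (G.swp φ x y C) := by
  refine ⟨G.swp_proper h.proper hC, ?_⟩
  rw [G.mem_clean] at hy
  have key : ∀ e ∈ G.S, ∀ e' ∈ G.S, ∀ c, φ e = some (Equiv.swap x y c) → φ e' = some c →
      e = e' := by
    intro e he e' he' c h1 h2
    by_cases hcx : c = x
    · rw [hcx, Equiv.swap_apply_left] at h1
      exact absurd h1 (hy e he)
    · by_cases hcy : c = y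
      · rw [hcy] at h2
        exact absurd h2 (hy e' he')
      · rw [Equiv.swap_apply_of_ne_of_ne hcx hcy] at h1
        exact h.rainbow e he e' he' c h1 h2
  intro e he e' he' c h1 h2
  unfold swp at h1 h2
  split_ifs at h1 h2 with h3 h4 h5
  · rw [e01c_map] at h1 h2
    exact h.rainbow e he e' he' _ h1 h2
  · rw [e01c_map] at h1
    exact key e he e' he' c h1 h2
  · rw [e01c_map] at h2
    exact (key e' he' e he c h2 h1).symm
  · exact h.rainbow e he e' he' _ h1 h2

theorem mis_swp_mem {x y : K} {C : Finset V} (hC : G.Closed φ x y C) {v : V} (hv : v ∈ C) :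
    G.mis (G.swp φ x y C) v = (G.mis φ v).image (Equiv.swap x y) := by
  ext c
  rw [mem_image, G.mem_mis]
  constructor
  · intro h
    refine ⟨Equiv.swap x y c, ?_, by simp⟩
    rw [G.mem_mis]
    intro e he h1
    exact h e he ((G.swp_mem_iff hC he hv c).2 h1)
  · rintro ⟨d, hd, rfl⟩ e he h1
    rw [G.mem_mis] at hd
    apply hd e he
    have := (G.swp_mem_iff hC he hv _).1 h1
    simpa using this

theorem mis_swp_not_mem {x y : K} {C : Finset V} (hC : G.Closed φ x y C) {v : V} (hv : v ∉ C) :
    G.mis (G.swp φ x y C) v = G.mis φ v := by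
  ext c
  rw [G.mem_mis, G.mem_mis]
  constructor
  · intro h e he
    rw [← G.swp_not_mem hC he hv]
    exact h e he
  · intro h e he
    rw [G.swp_not_mem hC he hv]
    exact h e he

/-- no special edge of colour `x` inside `C`: the clean colours do not change -/
theorem clean_swp {x y : K} {C : Finset V} (hy : y ∈ G.clean φ)
    (hx : ∀ e ∈ G.S, φ e = some x → G.a e ∉ C) : G.clean (G.swp φ x y C) = G.clean φ := by
  have key : ∀ e ∈ G.S, G.swp φ x y C e = φ e := by
    intro e he
    unfold swp
    split_ifs with h
    · apply e01c_self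
      · intro h1
        exact hx e he h1 h
      · exact (G.mem_clean.1 hy) e he
    · rfl
  ext c
  rw [G.mem_clean, G.mem_clean]
  constructor
  · intro h e he
    rw [← key e he]; exact h e he
  · intro h e he
    rw [key e he]; exact h e he

/-- in general a swap with a clean colour changes at most `x` and `y` in the set of clean colours -/
theorem mem_clean_swp {x y : K} {C : Finset V} {c : K} (h1 : c ≠ x) (h2 : c ≠ y) :
    c ∈ G.clean (G.swp φ x y C) ↔ c ∈ G.clean φ := by
  rw [G.mem_clean, G.mem_clean]
  constructor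
  · intro h e he h3
    exact h e he ((G.swp_other e h1 h2).2 h3)
  · intro h e he h3
    exact h e he ((G.swp_other e h1 h2).1 h3)

/-! ## Row E02: colours of a set of edges are assigned -/

/-- recolour the edges of `Z` by `g` -/
noncomputable def asg (φ : E → Option K) (Z : Finset E) (g : E → Option K) : E → Option K :=
  fun e => if e ∈ Z then g e else φ e

theorem mem_mis_asg {Z : Finset E} {g : E → Option K} (hn : ∀ e ∈ Z, φ e = none) {v : V}
    {c : K} : c ∈ G.mis (asg φ Z g) v ↔
      c ∈ G.mis φ v ∧ ∀ e ∈ Z, G.inc e v → g e ≠ some c := by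
  simp only [mem_mis, asg]
  constructor
  · intro h
    refine ⟨fun e he => ?_, fun e he hi => ?_⟩
    · by_cases hz : e ∈ Z
      · rw [hn e hz]; simp
      · have := h e he
        rwa [if_neg hz] at this
    · have := h e hi
      rwa [if_pos he] at this
  · rintro ⟨h1, h2⟩ e he
    by_cases hz : e ∈ Z
    · rw [if_pos hz]; exact h2 e hz he
    · rw [if_neg hz]; exact h1 e he

theorem mem_clean_asg {Z : Finset E} {g : E → Option K} (hn : ∀ e ∈ Z, φ e = none)
    {c : K} : c ∈ G.clean (asg φ Z g) ↔
      c ∈ G.clean φ ∧ ∀ e ∈ Z, e ∈ G.S → g e ≠ some c := by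
  simp only [mem_clean, asg]
  constructor
  · intro h
    refine ⟨fun e he => ?_, fun e he hi => ?_⟩
    · by_cases hz : e ∈ Z
      · rw [hn e hz]; simp
      · have := h e he
        rwa [if_neg hz] at this
    · have := h e hi
      rwa [if_pos he] at this
  · rintro ⟨h1, h2⟩ e he
    by_cases hz : e ∈ Z
    · rw [if_pos hz]; exact h2 e hz he
    · rw [if_neg hz]; exact h1 e he

theorem e02_inc_iff {z : V} {e : E} (he : G.inc e z) (v : V) :
    G.inc e v ↔ v = z ∨ v = G.oth e z := by
  unfold inc oth at *
  by_cases h : G.a e = z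
  · rw [if_pos h]
    constructor
    · rintro (h1 | h1)
      · exact Or.inl (h1.symm.trans h)
      · exact Or.inr h1.symm
    · rintro (h1 | h1)
      · exact Or.inl (h.trans h1.symm)
      · exact Or.inr h1.symm
  · rw [if_neg h]
    have hb : G.b e = z := he.resolve_left h
    constructor
    · rintro (h1 | h1)
      · exact Or.inr h1.symm
      · exact Or.inl (h1.symm.trans hb)
    · rintro (h1 | h1)
      · exact Or.inr (hb.trans h1.symm)
      · exact Or.inl h1.symm

/-- assignment at the vertex `z`: the edges of `Z` (all at `z`, not coloured before) get pairwise different colours,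
each missing at `z` and at the other end, clean ones for special edges -/
theorem asg_good (h : G.Good φ) (z : V) {Z : Finset E} {g : E → Option K}
    (hZ : ∀ e ∈ Z, G.inc e z) (hn : ∀ e ∈ Z, φ e = none)
    (hinj : ∀ e ∈ Z, ∀ e' ∈ Z, ∀ c, g e = some c → g e' = some c → e = e')
    (hz : ∀ e ∈ Z, ∀ c, g e = some c → c ∈ G.mis φ z)
    (ho : ∀ e ∈ Z, ∀ c, g e = some c → c ∈ G.mis φ (G.oth e z))
    (hs : ∀ e ∈ Z, e ∈ G.S → ∀ c, g e = some c → c ∈ G.clean φ) :
    G.Good (asg φ Z g) := by
  have key : ∀ e e' v c, e ∈ Z → e' ∉ Z → G.inc e v → G.inc e' v → g e = some c → φ e' = some c →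
      False := by
    intro e e' v c he he' hi hi' h1 h2
    rcases (G.e02_inc_iff (hZ e he) v).1 hi with rfl | rfl
    · have := hz e he c h1
      simp only [mis, mem_filter, mem_univ, true_and] at this
      exact this e' hi' h2
    · have := ho e he c h1
      simp only [mis, mem_filter, mem_univ, true_and] at this
      exact this e' hi' h2
  constructor
  · intro e e' v c hi hi' h1 h2
    simp only [asg] at h1 h2
    by_cases he : e ∈ Z <;> by_cases he' : e' ∈ Z
    · rw [if_pos he] at h1; rw [if_pos he'] at h2
      exact hinj e he e' he' c h1 h2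
    · rw [if_pos he] at h1; rw [if_neg he'] at h2
      exact (key e e' v c he he' hi hi' h1 h2).elim
    · rw [if_neg he] at h1; rw [if_pos he'] at h2
      exact (key e' e v c he' he hi' hi h2 h1).elim
    · rw [if_neg he] at h1; rw [if_neg he'] at h2
      exact h.proper e e' v c hi hi' h1 h2
  · intro e heS e' heS' c h1 h2
    simp only [asg] at h1 h2
    have key2 : ∀ e e', e ∈ G.S → e' ∈ G.S → e ∈ Z → g e = some c → φ e' = some c → False := by
      intro e e' heS heS' he h1 h2
      have := hs e he heS c h1
      simp only [clean, mem_filter, mem_univ, true_and] at this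
      exact this e' heS' h2
    by_cases he : e ∈ Z <;> by_cases he' : e' ∈ Z
    · rw [if_pos he] at h1; rw [if_pos he'] at h2
      exact hinj e he e' he' c h1 h2
    · rw [if_pos he] at h1; rw [if_neg he'] at h2
      exact (key2 e e' heS heS' he h1 h2).elim
    · rw [if_neg he] at h1; rw [if_pos he'] at h2
      exact (key2 e' e heS' heS he' h2 h1).elim
    · rw [if_neg he] at h1; rw [if_neg he'] at h2
      exact h.rainbow e heS e' heS' c h1 h2

/-- uncolouring edges -/
theorem Good.mono (h : G.Good φ) {φ' : E → Option K} (h' : ∀ e c, φ' e = some c → φ e = some c) :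
    G.Good φ' :=
  ⟨fun e e' v c hi hi' h1 h2 => h.proper e e' v c hi hi' (h' _ _ h1) (h' _ _ h2),
    fun e he e' he' c h1 h2 => h.rainbow e he e' he' c (h' _ _ h1) (h' _ _ h2)⟩

theorem mis_mono {φ' : E → Option K} (h' : ∀ e c, φ' e = some c → φ e = some c) (v : V) :
    G.mis φ v ⊆ G.mis φ' v := by
  intro c hc
  simp only [mis, mem_filter, mem_univ, true_and] at *
  intro e he h
  exact hc e he (h' e c h)

theorem clean_mono {φ' : E → Option K} (h' : ∀ e c, φ' e = some c → φ e = some c) :
    G.clean φ ⊆ G.clean φ' := by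
  intro c hc
  simp only [clean, mem_filter, mem_univ, true_and] at *
  intro e he h
  exact hc e he (h' e c h)

/-- number of missing colours = all colours minus the coloured edges at `v` -/
theorem card_mis (hp : G.Proper φ) (v : V) :
    (G.mis φ v).card + (univ.filter fun e => G.inc e v ∧ φ e ≠ none).card = Fintype.card K := by
  have h1 : (univ.filter fun e => G.inc e v ∧ φ e ≠ none).card =
      (univ.filter fun c : K => ¬ (∀ e, G.inc e v → φ e ≠ some c)).card := by
    have ha : (univ.filter fun e => G.inc e v ∧ φ e ≠ none).image φ =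
        (univ.filter fun c : K => ¬ (∀ e, G.inc e v → φ e ≠ some c)).image some := by
      ext o
      simp only [mem_image, mem_filter, mem_univ, true_and]
      constructor
      · rintro ⟨e, ⟨he, hn⟩, rfl⟩
        obtain ⟨c, hc⟩ := Option.ne_none_iff_exists'.1 hn
        exact ⟨c, by push Not; exact ⟨e, he, hc⟩, hc.symm⟩
      · rintro ⟨c, hc, rfl⟩
        push Not at hc
        obtain ⟨e, he, hc⟩ := hc
        exact ⟨e, ⟨he, by rw [hc]; simp⟩, hc⟩
    have hb := congrArg Finset.card ha
    rw [Finset.card_image_of_injOn, Finset.card_image_of_injective _ (Option.some_injective K)] at hb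
    · exact hb
    · intro e he e' he' h
      simp only [coe_filter, mem_univ, true_and, Set.mem_ofPred_eq] at he he'
      obtain ⟨c, hc⟩ := Option.ne_none_iff_exists'.1 he.2
      exact hp e e' v c he.1 he'.1 hc (h ▸ hc)
  rw [h1]
  have h2 := Finset.card_filter_add_card_filter_not (s := (univ : Finset K))
    (fun c : K => ∀ e, G.inc e v → φ e ≠ some c)
  simpa [mis] using h2

/-- if all special edges are coloured, the number of clean colours is `|K| - |S|` -/
theorem card_clean (h : G.Good φ) (hS : ∀ e ∈ G.S, φ e ≠ none) :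
    (G.clean φ).card + G.S.card = Fintype.card K := by
  have h1 : G.S.card = (univ.filter fun c : K => ¬ (∀ e ∈ G.S, φ e ≠ some c)).card := by
    have ha : G.S.image φ =
        (univ.filter fun c : K => ¬ (∀ e ∈ G.S, φ e ≠ some c)).image some := by
      ext o
      simp only [mem_image, mem_filter, mem_univ, true_and]
      constructor
      · rintro ⟨e, he, rfl⟩
        obtain ⟨c, hc⟩ := Option.ne_none_iff_exists'.1 (hS e he)
        exact ⟨c, by push Not; exact ⟨e, he, hc⟩, hc.symm⟩
      · rintro ⟨c, hc, rfl⟩
        push Not at hc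
        obtain ⟨e, he, hc⟩ := hc
        exact ⟨e, he, hc⟩
    have hb := congrArg Finset.card ha
    rw [Finset.card_image_of_injOn, Finset.card_image_of_injective _ (Option.some_injective K)] at hb
    · exact hb
    · intro e he e' he' hh
      obtain ⟨c, hc⟩ := Option.ne_none_iff_exists'.1 (hS e he)
      exact h.rainbow e he e' he' c hc (hh ▸ hc)
  rw [h1]
  have h2 := Finset.card_filter_add_card_filter_not (s := (univ : Finset K))
    (fun c : K => ∀ e ∈ G.S, φ e ≠ some c)
  simpa [clean] using h2

/-- two different ordinary edges at `z` have different other ends -/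
theorem e02_sym {z : V} {e : E} (he : G.inc e z) : s(G.a e, G.b e) = s(z, G.oth e z) := by
  unfold inc oth at *
  by_cases h : G.a e = z
  · rw [if_pos h, h]
  · rw [if_neg h, he.resolve_left h, Sym2.eq_swap]

theorem oth_inj {z : V} {e e' : E} (he : e ∈ G.ord z) (he' : e' ∈ G.ord z)
    (h : G.oth e z = G.oth e' z) : e = e' := by
  simp only [ord, mem_filter, mem_univ, true_and] at he he'
  apply G.simple e e' he.1 he'.1
  rw [G.e02_sym he.2, G.e02_sym he'.2, h]

theorem inc_oth {z : V} {e : E} (he : G.inc e z) : G.inc e (G.oth e z) :=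
  (G.e02_inc_iff he _).2 (Or.inr rfl)

theorem oth_ne {z : V} {e : E} (he : G.inc e z) : G.oth e z ≠ z := by
  intro h
  have h1 := G.e02_sym he
  rw [h] at h1
  have h2 := G.ne e
  apply h2
  rw [Sym2.eq_iff] at h1
  rcases h1 with ⟨h3, h4⟩ | ⟨h3, h4⟩
  · rw [h3, h4]
  · rw [h3, h4]

theorem inc_iff {z : V} {e : E} (he : G.inc e z) (v : V) : G.inc e v ↔ v = z ∨ v = G.oth e z :=
  G.e02_inc_iff he v

end MG

end MP405E
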