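import Mathlib
import Pool.Agent.Lib.MP_405d56_lc.EKempeS
import Pool.Agent.Lib.MP_405d56_lc.EDMS

/-! # Insertion of one ordinary edge at a centre `z` (row E04) and its iteration (row E05) -/

set_option autoImplicit false

namespace MP405E

open Finset Classical

variable {V E K : Type} [Fintype V] [Fintype E] [Fintype K]

namespace MG

/-- the flexible singles at `z`: coloured special edges at `z` whose other end is private -/
noncomputable def flex (G : MG V E) (χ : E → Option K) (z : V) : Finset E :=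
  univ.filter fun e => e ∈ G.S ∧ G.inc e z ∧ G.priv e (G.oth e z) ∧ χ e ≠ none

/-- `χ` with the ordinary edges and the flexible singles at `z` uncoloured -/
noncomputable def base (G : MG V E) (χ : E → Option K) (z : V) : E → Option K :=
  fun e => if e ∈ G.ord z ∨ e ∈ G.flex χ z then none else χ e

/-- elements to be assigned (row E04) -/
noncomputable def e04_Z (G : MG V E) (χ : E → Option K) (z : V) (e0 : E) : Finset E :=
  univ.filter fun e => (e ∈ G.ord z ∧ (χ e ≠ none ∨ e = e0)) ∨ e ∈ G.flex χ z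

/-- the lists (row E04) -/
noncomputable def e04_L (G : MG V E) (χ : E → Option K) (z : V) (e0 : E) (ψ : K)
    (R Y : Finset K) : E → Finset K :=
  fun e => univ.filter fun c => e ∈ G.e04_Z χ z e0 ∧ c ≠ ψ ∧ c ∉ R ∧
    c ∈ G.mis (G.base χ z) z ∧ c ∈ G.mis (G.base χ z) (G.oth e z) ∧
    (e ∈ G.S → c ∈ G.clean (G.base χ z) ∧ c ∉ Y) ∧ (e = e0 → c ∉ Y)

theorem e04_base_le (G : MG V E) {χ : E → Option K} {z : V} (e : E) (c : K)
    (h : G.base χ z e = some c) : χ e = some c := by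
  unfold base at h
  split_ifs at h
  exact h

theorem e04_mem_Z (G : MG V E) {χ : E → Option K} {z : V} {e0 e : E} :
    e ∈ G.e04_Z χ z e0 ↔ (e ∈ G.ord z ∧ (χ e ≠ none ∨ e = e0)) ∨ e ∈ G.flex χ z := by
  simp [e04_Z]

theorem e04_mem_flex (G : MG V E) {χ : E → Option K} {z : V} {e : E} :
    e ∈ G.flex χ z ↔ e ∈ G.S ∧ G.inc e z ∧ G.priv e (G.oth e z) ∧ χ e ≠ none := by
  simp [flex]

theorem e04_mem_ord (G : MG V E) {z : V} {e : E} :
    e ∈ G.ord z ↔ e ∉ G.S ∧ G.inc e z := by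
  simp [ord]

theorem e04_mem_L (G : MG V E) {χ : E → Option K} {z : V} {e0 : E} {ψ : K}
    {R Y : Finset K} {e : E} {c : K} : c ∈ G.e04_L χ z e0 ψ R Y e ↔
    e ∈ G.e04_Z χ z e0 ∧ c ≠ ψ ∧ c ∉ R ∧
    c ∈ G.mis (G.base χ z) z ∧ c ∈ G.mis (G.base χ z) (G.oth e z) ∧
    (e ∈ G.S → c ∈ G.clean (G.base χ z) ∧ c ∉ Y) ∧ (e = e0 → c ∉ Y) := by
  simp [e04_L]

theorem e04_base_none (G : MG V E) {χ : E → Option K} {z : V} {e0 : E} (hn : χ e0 = none)
    (e : E) : G.base χ z e = none ↔ e ∈ G.e04_Z χ z e0 ∨ χ e = none := by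
  rw [e04_mem_Z]
  unfold base
  split_ifs with h
  · simp only [true_iff]
    rcases h with h | h
    · by_cases hc : χ e = none
      · exact Or.inr hc
      · exact Or.inl (Or.inl ⟨h, Or.inl hc⟩)
    · exact Or.inl (Or.inr h)
  · constructor
    · intro hc
      exact Or.inr hc
    · rintro ((⟨h1, h2⟩ | h1) | h1)
      · exact absurd (Or.inl h1) h
      · exact absurd (Or.inr h1) h
      · exact h1

theorem e04_inc (G : MG V E) {χ : E → Option K} {z : V} {e0 e : E}
    (h : e ∈ G.e04_Z χ z e0) : G.inc e z := by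
  rw [e04_mem_Z] at h
  rcases h with h | h
  · exact (G.e04_mem_ord.1 h.1).2
  · exact (G.e04_mem_flex.1 h).2.1

theorem e04_ord_of_Z (G : MG V E) {χ : E → Option K} {z : V} {e0 e : E}
    (h : e ∈ G.e04_Z χ z e0) (hS : e ∉ G.S) : e ∈ G.ord z :=
  G.e04_mem_ord.2 ⟨hS, G.e04_inc h⟩

/-- a special edge of `Z` has a private other end -/
theorem e04_priv (G : MG V E) {χ : E → Option K} {z : V} {e0 e : E}
    (h : e ∈ G.e04_Z χ z e0) (hS : e ∈ G.S) : G.priv e (G.oth e z) := by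
  rw [e04_mem_Z] at h
  rcases h with h | h
  · exact absurd hS (G.e04_mem_ord.1 h.1).1
  · exact (G.e04_mem_flex.1 h).2.2.1

theorem e04_mis_priv (G : MG V E) {χ χ1 : E → Option K} {z : V} {e0 e : E}
    (h : e ∈ G.e04_Z χ z e0) (hS : e ∈ G.S) (h1 : χ1 e = none) (c : K) :
    c ∈ G.mis χ1 (G.oth e z) := by
  simp only [mis, mem_filter, mem_univ, true_and]
  intro e' he' hc
  have := (G.e04_priv h hS).2 e' he'
  rw [this, h1] at hc
  exact absurd hc (by simp)

/-- only `e0` among the edges of `Z` is incident with the other end of `e0` -/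
theorem e04_inc_oth (G : MG V E) {χ : E → Option K} {z : V} {e0 e : E}
    (he0 : e0 ∈ G.ord z) (h : e ∈ G.e04_Z χ z e0) (hi : G.inc e (G.oth e0 z)) : e = e0 := by
  have h0 := (G.e04_mem_ord.1 he0).2
  have hne : G.oth e0 z ≠ z := G.oth_ne h0
  have hz := G.e04_inc h
  have h2 : G.oth e0 z = G.oth e z := by
    rcases (G.inc_iff hz _).1 hi with h3 | h3
    · exact absurd h3 hne
    · exact h3
  by_cases hS : e ∈ G.S
  · have h3 := (G.e04_priv h hS).2 e0 (by rw [← h2]; exact G.inc_oth h0)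
    exact h3.symm
  · exact G.oth_inj (G.e04_ord_of_Z h hS) he0 h2.symm

/-- FINISH (row E04) -/
theorem e04_finish (G : MG V E) {χ χ1 : E → Option K} {z : V} {e0 : E}
    (he0 : e0 ∈ G.ord z) (hg1 : G.Good χ1)
    (hnone : ∀ e, χ1 e = none ↔ e ∈ G.e04_Z χ z e0 ∨ χ e = none) {g : E → Option K}
    (hgn : ∀ e ∈ G.e04_Z χ z e0, g e ≠ none)
    (hinj : ∀ e ∈ G.e04_Z χ z e0, ∀ e' ∈ G.e04_Z χ z e0, ∀ c, g e = some c → g e' = some c → e = e')
    (hz : ∀ e ∈ G.e04_Z χ z e0, ∀ c, g e = some c → c ∈ G.mis χ1 z)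
    (ho : ∀ e ∈ G.e04_Z χ z e0, e ∉ G.S → ∀ c, g e = some c → c ∈ G.mis χ1 (G.oth e z))
    (hs : ∀ e ∈ G.e04_Z χ z e0, e ∈ G.S → ∀ c, g e = some c → c ∈ G.clean χ1)
    {R R' Y Y' : Finset K} (hRc : R'.card = R.card) (hYc : Y'.card = Y.card)
    (hR : ∀ c ∈ R', c ∈ G.mis χ1 z ∧ c ∈ G.clean χ1 ∧ ∀ e ∈ G.e04_Z χ z e0, g e ≠ some c)
    (hY : ∀ c ∈ Y', c ∈ G.mis χ1 (G.oth e0 z) ∧ c ∈ G.clean χ1 ∧ g e0 ≠ some c ∧
      ∀ e ∈ G.e04_Z χ z e0, e ∈ G.S → g e ≠ some c) :
    ∃ χ' : E → Option K, G.Good χ' ∧ (∀ e, χ' e = none ↔ χ e = none ∧ e ≠ e0) ∧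
      (∃ R' : Finset K, R'.card = R.card ∧ ∀ c ∈ R', c ∈ G.mis χ' z ∧ c ∈ G.clean χ') ∧
      ∃ Y' : Finset K, Y'.card = Y.card ∧
        ∀ c ∈ Y', c ∈ G.mis χ' (G.oth e0 z) ∧ c ∈ G.clean χ' := by
  have hZn : ∀ e ∈ G.e04_Z χ z e0, χ1 e = none := fun e he => (hnone e).2 (Or.inl he)
  have h0Z : e0 ∈ G.e04_Z χ z e0 := G.e04_mem_Z.2 (Or.inl ⟨he0, Or.inr rfl⟩)
  refine ⟨asg χ1 (G.e04_Z χ z e0) g, ?_, ?_, ⟨R', hRc, ?_⟩, ⟨Y', hYc, ?_⟩⟩
  · refine G.asg_good hg1 z (fun e he => G.e04_inc he) hZn hinj hz ?_ hs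
    intro e he c hc
    by_cases hS : e ∈ G.S
    · exact G.e04_mis_priv he hS (hZn e he) c
    · exact ho e he hS c hc
  · intro e
    unfold asg
    split_ifs with he
    · refine iff_of_false (hgn e he) ?_
      rintro ⟨h1, h2⟩
      rcases G.e04_mem_Z.1 he with ⟨_, h3 | h3⟩ | h3
      · exact h3 h1
      · exact h2 h3
      · exact (G.e04_mem_flex.1 h3).2.2.2 h1
    · rw [hnone]
      constructor
      · rintro (h | h)
        · exact absurd h he
        · refine ⟨h, ?_⟩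
          rintro rfl
          exact he h0Z
      · rintro ⟨h, _⟩
        exact Or.inr h
  · intro c hc
    obtain ⟨h1, h2, h3⟩ := hR c hc
    rw [G.mem_mis_asg hZn, G.mem_clean_asg hZn]
    exact ⟨⟨h1, fun e he _ => h3 e he⟩, ⟨h2, fun e he _ => h3 e he⟩⟩
  · intro c hc
    obtain ⟨h1, h2, h3, h4⟩ := hY c hc
    rw [G.mem_mis_asg hZn, G.mem_clean_asg hZn]
    refine ⟨⟨h1, fun e he hi => ?_⟩, ⟨h2, fun e he hS => h4 e he hS⟩⟩
    rw [G.e04_inc_oth he0 he hi]
    exact h3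

/-- the colouring itself is a matching -/
theorem e04_pm (G : MG V E) {χ : E → Option K} (hg : G.Good χ) {z : V} {e0 : E}
    (hn : χ e0 = none) {ψ : K} (hψ : ψ ∈ G.mis χ z)
    (R Y : Finset K) (hR : ∀ c ∈ R, c ∈ G.mis χ z ∧ c ∈ G.clean χ ∧ c ≠ ψ)
    (hY : ∀ c ∈ Y, c ∈ G.mis χ (G.oth e0 z) ∧ c ∈ G.clean χ ∧ c ≠ ψ) :
    PM (G.e04_L χ z e0 ψ R Y) (fun e => if e ∈ G.e04_Z χ z e0 then χ e else none) := by
  constructor
  · intro e c hc
    split_ifs at hc with he
    have hi := G.e04_inc he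
    have hbn : G.base χ z e = none := (G.e04_base_none hn e).2 (Or.inl he)
    rw [e04_mem_L]
    refine ⟨he, ?_, ?_, ?_, ?_, ?_, ?_⟩
    · rintro rfl
      simp only [mis, mem_filter, mem_univ, true_and] at hψ
      exact hψ e hi hc
    · intro hcR
      have := (hR c hcR).1
      simp only [mis, mem_filter, mem_univ, true_and] at this
      exact this e hi hc
    · simp only [mis, mem_filter, mem_univ, true_and]
      intro e' he' hc'
      have h1 := G.e04_base_le e' c hc'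
      have h2 := hg.proper e e' z c hi he' hc h1
      rw [← h2, hbn] at hc'
      exact absurd hc' (by simp)
    · simp only [mis, mem_filter, mem_univ, true_and]
      intro e' he' hc'
      have h1 := G.e04_base_le e' c hc'
      have h2 := hg.proper e e' (G.oth e z) c (G.inc_oth hi) he' hc h1
      rw [← h2, hbn] at hc'
      exact absurd hc' (by simp)
    · intro hS
      constructor
      · simp only [clean, mem_filter, mem_univ, true_and]
        intro e' he' hc'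
        have h1 := G.e04_base_le e' c hc'
        have h2 := hg.rainbow e hS e' he' c hc h1
        rw [← h2, hbn] at hc'
        exact absurd hc' (by simp)
      · intro hcY
        have := (hY c hcY).2.1
        simp only [clean, mem_filter, mem_univ, true_and] at this
        exact this e hS hc
    · rintro rfl
      rw [hn] at hc
      exact absurd hc (by simp)
  · intro e e' c h1 h2
    split_ifs at h1 with he
    split_ifs at h2 with he'
    exact hg.proper e e' z c (G.e04_inc he) (G.e04_inc he') h1 h2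

/-- FINISH with one more element `t` of colour `ρ` -/
theorem e04_finish2 (G : MG V E) {χ χ1 : E → Option K} {z : V} {e0 : E}
    (he0 : e0 ∈ G.ord z) (hg1 : G.Good χ1)
    (hnone : ∀ e, χ1 e = none ↔ e ∈ G.e04_Z χ z e0 ∨ χ e = none) {f : E → Option K}
    (hfi : ∀ e e' c, f e = some c → f e' = some c → e = e') {t : E}
    (hft : ∀ e ∈ G.e04_Z χ z e0, e ≠ t → f e ≠ none)
    (hz : ∀ e ∈ G.e04_Z χ z e0, ∀ c, f e = some c → c ∈ G.mis χ1 z)
    (ho : ∀ e ∈ G.e04_Z χ z e0, e ∉ G.S → ∀ c, f e = some c → c ∈ G.mis χ1 (G.oth e z))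
    (hs : ∀ e ∈ G.e04_Z χ z e0, e ∈ G.S → ∀ c, f e = some c → c ∈ G.clean χ1)
    {ρ : K} (hρz : ρ ∈ G.mis χ1 z) (hρo : t ∉ G.S → ρ ∈ G.mis χ1 (G.oth t z))
    (hρs : t ∈ G.S → ρ ∈ G.clean χ1) (hρf : ∀ e, f e ≠ some ρ)
    {R R' Y Y' : Finset K} (hRc : R'.card = R.card) (hYc : Y'.card = Y.card)
    (hR : ∀ c ∈ R', c ∈ G.mis χ1 z ∧ c ∈ G.clean χ1 ∧ c ≠ ρ ∧
      ∀ e ∈ G.e04_Z χ z e0, f e ≠ some c)
    (hY : ∀ c ∈ Y', c ∈ G.mis χ1 (G.oth e0 z) ∧ c ∈ G.clean χ1 ∧ (t = e0 ∨ t ∈ G.S → c ≠ ρ) ∧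
      f e0 ≠ some c ∧ ∀ e ∈ G.e04_Z χ z e0, e ∈ G.S → f e ≠ some c) :
    ∃ χ' : E → Option K, G.Good χ' ∧ (∀ e, χ' e = none ↔ χ e = none ∧ e ≠ e0) ∧
      (∃ R' : Finset K, R'.card = R.card ∧ ∀ c ∈ R', c ∈ G.mis χ' z ∧ c ∈ G.clean χ') ∧
      ∃ Y' : Finset K, Y'.card = Y.card ∧
        ∀ c ∈ Y', c ∈ G.mis χ' (G.oth e0 z) ∧ c ∈ G.clean χ' := by
  have key : ∀ e c, Function.update f t (some ρ) e = some c →
      (e = t ∧ c = ρ) ∨ (e ≠ t ∧ f e = some c) := by
    intro e c h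
    by_cases het : e = t
    · subst het
      rw [Function.update_self] at h
      exact Or.inl ⟨rfl, (Option.some.inj h).symm⟩
    · rw [Function.update_of_ne het] at h
      exact Or.inr ⟨het, h⟩
  refine G.e04_finish (g := Function.update f t (some ρ)) he0 hg1 hnone ?_ ?_ ?_ ?_ ?_ hRc hYc ?_ ?_
  · intro e he
    by_cases het : e = t
    · subst het
      rw [Function.update_self]
      simp
    · rw [Function.update_of_ne het]
      exact hft e he het
  · intro e _ e' _ c h1 h2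
    rcases key e c h1 with ⟨a1, a2⟩ | ⟨a1, a2⟩ <;> rcases key e' c h2 with ⟨b1, b2⟩ | ⟨b1, b2⟩
    · rw [a1, b1]
    · rw [a2] at b2
      exact absurd b2 (hρf e')
    · rw [b2] at a2
      exact absurd a2 (hρf e)
    · exact hfi e e' c a2 b2
  · intro e he c hc
    rcases key e c hc with ⟨a1, a2⟩ | ⟨a1, a2⟩
    · rw [a2]; exact hρz
    · exact hz e he c a2
  · intro e he hS c hc
    rcases key e c hc with ⟨a1, a2⟩ | ⟨a1, a2⟩
    · rw [a2, a1]; rw [a1] at hS; exact hρo hS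
    · exact ho e he hS c a2
  · intro e he hS c hc
    rcases key e c hc with ⟨a1, a2⟩ | ⟨a1, a2⟩
    · rw [a2]; rw [a1] at hS; exact hρs hS
    · exact hs e he hS c a2
  · intro c hc
    obtain ⟨h1, h2, h3, h4⟩ := hR c hc
    refine ⟨h1, h2, fun e he hec => ?_⟩
    rcases key e c hec with ⟨a1, a2⟩ | ⟨a1, a2⟩
    · exact h3 a2
    · exact h4 e he a2
  · intro c hc
    obtain ⟨h1, h2, h3, h4, h5⟩ := hY c hc
    refine ⟨h1, h2, fun hec => ?_, fun e he hS hec => ?_⟩
    · rcases key e0 c hec with ⟨a1, a2⟩ | ⟨a1, a2⟩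
      · exact h3 (Or.inl a1.symm) a2
      · exact h4 a2
    · rcases key e c hec with ⟨a1, a2⟩ | ⟨a1, a2⟩
      · exact h3 (Or.inr (a1 ▸ hS)) a2
      · exact h5 e he hS a2

/-- an optimal matching omits at most one element of `Z` -/
theorem e04_one (G : MG V E) {χ : E → Option K} (hg : G.Good χ) {z : V} {e0 : E}
    (he0 : e0 ∈ G.ord z) (hn : χ e0 = none) {ψ : K} (hψ : ψ ∈ G.mis χ z)
    (R Y : Finset K) (hR : ∀ c ∈ R, c ∈ G.mis χ z ∧ c ∈ G.clean χ ∧ c ≠ ψ)
    (hY : ∀ c ∈ Y, c ∈ G.mis χ (G.oth e0 z) ∧ c ∈ G.clean χ ∧ c ≠ ψ)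
    {f : E → Option K} (hf : IsOpt (G.e04_L χ z e0 ψ R Y) f) {t t' : E}
    (ht : t ∈ G.e04_Z χ z e0) (ht' : t' ∈ G.e04_Z χ z e0) (h : f t = none) (h' : f t' = none) :
    t = t' := by
  by_contra hne
  have hZ0 : ∀ e, e ∉ G.e04_Z χ z e0 → f e = none := by
    intro e he
    by_contra hc
    obtain ⟨c, hc⟩ := Option.ne_none_iff_exists'.1 hc
    exact he (G.e04_mem_L.1 (hf.1.mem e c hc)).1
  have h1 := hf.2 _ (G.e04_pm hg hn hψ R Y hR hY)
  have h2 : (om (fun e => if e ∈ G.e04_Z χ z e0 then χ e else none)) ⊆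
      insert e0 (univ \ G.e04_Z χ z e0) := by
    intro e he
    simp only [om, mem_filter, mem_univ, true_and] at he
    rw [mem_insert, mem_sdiff]
    by_cases hc : e ∈ G.e04_Z χ z e0
    · rw [if_pos hc] at he
      rcases G.e04_mem_Z.1 hc with ⟨_, h3 | h3⟩ | h3
      · exact absurd he h3
      · exact Or.inl h3
      · exact absurd he (G.e04_mem_flex.1 h3).2.2.2
    · exact Or.inr ⟨mem_univ _, hc⟩
  have h3 : insert t (insert t' (univ \ G.e04_Z χ z e0)) ⊆ om f := by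
    intro e he
    simp only [om, mem_filter, mem_univ, true_and]
    rw [mem_insert, mem_insert, mem_sdiff] at he
    rcases he with rfl | rfl | he
    · exact h
    · exact h'
    · exact hZ0 e he.2
  have h4 := card_le_card h2
  have h5 := card_le_card h3
  have h6 : (insert e0 (univ \ G.e04_Z χ z e0)).card ≤ (univ \ G.e04_Z χ z e0).card + 1 :=
    card_insert_le _ _
  rw [card_insert_of_notMem, card_insert_of_notMem] at h5
  · omega
  · simp [ht']
  · rw [mem_insert, mem_sdiff]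
    rintro (h7 | h7)
    · exact hne h7
    · exact h7.2 ht

theorem e04_T (G : MG V E) {χ : E → Option K} (hg : G.Good χ) {z : V} {e0 : E}
    (he0 : e0 ∈ G.ord z) (hn : χ e0 = none) {ψ : K} (hψ : ψ ∈ G.mis χ z)
    (R Y : Finset K) (hR : ∀ c ∈ R, c ∈ G.mis χ z ∧ c ∈ G.clean χ ∧ c ≠ ψ)
    (hY : ∀ c ∈ Y, c ∈ G.mis χ (G.oth e0 z) ∧ c ∈ G.clean χ ∧ c ≠ ψ)
    (h0 : ∀ f, IsOpt (G.e04_L χ z e0 ψ R Y) f → ∃ t ∈ G.e04_Z χ z e0, f t = none) :
    ((TT (G.e04_L χ z e0 ψ R Y)).filter (fun e => e ∈ G.e04_Z χ z e0)).card =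
      (((TT (G.e04_L χ z e0 ψ R Y)).filter (fun e => e ∈ G.e04_Z χ z e0)).biUnion
        (G.e04_L χ z e0 ψ R Y)).card + 1 ∧ e0 ∈ TT (G.e04_L χ z e0 ψ R Y) := by
  obtain ⟨f, hf⟩ := exists_opt (G.e04_L χ z e0 ψ R Y)
  obtain ⟨t, htZ, ht⟩ := h0 f hf
  have hZ0 : ∀ e, e ∉ G.e04_Z χ z e0 → f e = none := by
    intro e he
    by_contra hc
    obtain ⟨c, hc⟩ := Option.ne_none_iff_exists'.1 hc
    exact he (G.e04_mem_L.1 (hf.1.mem e c hc)).1
  have hom : om f = insert t (univ \ G.e04_Z χ z e0) := by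
    ext e
    simp only [om, mem_filter, mem_univ, true_and]
    rw [mem_insert, mem_sdiff]
    constructor
    · intro he
      by_cases hc : e ∈ G.e04_Z χ z e0
      · exact Or.inl (G.e04_one hg he0 hn hψ R Y hR hY hf hc htZ he ht)
      · exact Or.inr ⟨mem_univ _, hc⟩
    · rintro (rfl | h)
      · exact ht
      · exact hZ0 e h.2
  have homc : (om f).card = (univ \ G.e04_Z χ z e0).card + 1 := by
    rw [hom, card_insert_of_notMem]
    rw [mem_sdiff]
    exact fun h => h.2 htZ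
  have hTT : TT (G.e04_L χ z e0 ψ R Y) = (univ \ G.e04_Z χ z e0) ∪
      (TT (G.e04_L χ z e0 ψ R Y)).filter (fun e => e ∈ G.e04_Z χ z e0) := by
    ext e
    rw [mem_union, mem_sdiff, mem_filter]
    constructor
    · intro he
      by_cases hc : e ∈ G.e04_Z χ z e0
      · exact Or.inr ⟨he, hc⟩
      · exact Or.inl ⟨mem_univ _, hc⟩
    · rintro (h | h)
      · exact mem_TT.2 ⟨f, hf, hZ0 e h.2⟩
      · exact h.1
  have hdisj : Disjoint (univ \ G.e04_Z χ z e0)
      ((TT (G.e04_L χ z e0 ψ R Y)).filter (fun e => e ∈ G.e04_Z χ z e0)) := by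
    rw [Finset.disjoint_left]
    intro e h1 h2
    exact (mem_sdiff.1 h1).2 (mem_filter.1 h2).2
  have hbi : (TT (G.e04_L χ z e0 ψ R Y)).biUnion (G.e04_L χ z e0 ψ R Y) =
      ((TT (G.e04_L χ z e0 ψ R Y)).filter (fun e => e ∈ G.e04_Z χ z e0)).biUnion
        (G.e04_L χ z e0 ψ R Y) := by
    ext c
    simp only [mem_biUnion, mem_filter]
    constructor
    · rintro ⟨e, he, hc⟩
      exact ⟨e, ⟨he, (G.e04_mem_L.1 hc).1⟩, hc⟩
    · rintro ⟨e, he, hc⟩
      exact ⟨e, he.1, hc⟩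
  have hcard := dm_card hf
  have h1 : (TT (G.e04_L χ z e0 ψ R Y)).card = (univ \ G.e04_Z χ z e0).card +
      ((TT (G.e04_L χ z e0 ψ R Y)).filter (fun e => e ∈ G.e04_Z χ z e0)).card := by
    conv_lhs => rw [hTT]
    exact card_union_of_disjoint hdisj
  constructor
  · rw [hbi, homc] at hcard
    omega
  · refine mem_TT.2 ⟨_, ⟨G.e04_pm hg hn hψ R Y hR hY, fun g hg' => ?_⟩, ?_⟩
    · have h2 := hf.2 g hg'
      have h3 : (om (fun e => if e ∈ G.e04_Z χ z e0 then χ e else none)) ⊆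
          insert e0 (univ \ G.e04_Z χ z e0) := by
        intro e he
        simp only [om, mem_filter, mem_univ, true_and] at he
        rw [mem_insert, mem_sdiff]
        by_cases hc : e ∈ G.e04_Z χ z e0
        · rw [if_pos hc] at he
          rcases G.e04_mem_Z.1 hc with ⟨_, h3 | h3⟩ | h3
          · exact absurd he h3
          · exact Or.inl h3
          · exact absurd he (G.e04_mem_flex.1 h3).2.2.2
        · exact Or.inr ⟨mem_univ _, hc⟩
      have h4 := card_le_card h3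
      have h6 : (insert e0 (univ \ G.e04_Z χ z e0)).card ≤
        (univ \ G.e04_Z χ z e0).card + 1 := card_insert_le _ _
      omega
    · split_ifs
      · exact hn
      · rfl

/-- some colour is in at least three lists -/
theorem e04_three {T : Finset E} {L : E → Finset K} (h1 : T.card = (T.biUnion L).card + 1)
    (h2 : 2 * T.card ≤ 1 + ∑ e ∈ T, (L e).card) :
    ∃ c, 3 ≤ (T.filter fun t => c ∈ L t).card := by
  by_contra hcon
  push Not at hcon
  have h3 : ∑ e ∈ T, (L e).card = ∑ c ∈ T.biUnion L, (T.filter fun t => c ∈ L t).card := by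
    have : ∀ e ∈ T, (L e).card = ∑ c ∈ T.biUnion L, if c ∈ L e then 1 else 0 := by
      intro e he
      rw [← Finset.card_filter]
      congr 1
      ext c
      rw [mem_filter, mem_biUnion]
      exact ⟨fun h => ⟨⟨e, he, h⟩, h⟩, fun h => h.2⟩
    rw [Finset.sum_congr rfl this, Finset.sum_comm]
    refine Finset.sum_congr rfl fun c _ => ?_
    rw [← Finset.card_filter]
  have h4 : ∑ c ∈ T.biUnion L, (T.filter fun t => c ∈ L t).card ≤ ∑ c ∈ T.biUnion L, 2 :=
    Finset.sum_le_sum fun c _ => by have := hcon c; omega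
  rw [Finset.sum_const, smul_eq_mul] at h4
  omega

/-- choice of `t` and of the matching `f` in case (2d) -/
theorem e04_choice (G : MG V E) {φ : E → Option K} (hp : G.Proper φ) {z : V} {c ψ : K}
    (hcψ : c ≠ ψ) {L : E → Finset K} {T : Finset E} (hT : ∀ t ∈ T, t ∈ G.ord z)
    (hTT : ∀ t ∈ T, t ∈ TT L) (hTT' : ∀ t ∈ TT L, c ∈ L t → t ∈ T)
    (hc : ∀ t ∈ T, c ∈ L t → c ∈ G.mis φ (G.oth t z))
    (h3 : 3 ≤ (T.filter fun t => c ∈ L t).card) :
    ∃ t ∈ T, c ∈ L t ∧ ∃ f, IsOpt L f ∧ f t = none ∧ ∃ t' ∈ T, f t' = some c ∧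
      G.oth t' z ∉ G.comp φ c ψ (G.oth t z) := by
  -- the other ends of three different elements are not in one component
  have key : ∀ v, ∀ t1 ∈ T, ∀ t2 ∈ T, ∀ t3 ∈ T, c ∈ L t1 → c ∈ L t2 → c ∈ L t3 → t1 ≠ t2 → t1 ≠ t3 →
      t2 ≠ t3 → G.oth t1 z ∈ G.comp φ c ψ v → G.oth t2 z ∈ G.comp φ c ψ v →
      G.oth t3 z ∈ G.comp φ c ψ v → False := by
    intro v t1 h1 t2 h2 t3 h3 l1 l2 l3 n12 n13 n23 c1 c2 c3
    exact G.three_ends hp hcψ c1 c2 c3 (Or.inl (hc t1 h1 l1)) (Or.inl (hc t2 h2 l2))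
      (Or.inl (hc t3 h3 l3)) (fun h => n12 (G.oth_inj (hT _ h1) (hT _ h2) h))
      (fun h => n13 (G.oth_inj (hT _ h1) (hT _ h3) h))
      (fun h => n23 (G.oth_inj (hT _ h2) (hT _ h3) h))
  obtain ⟨t, htX⟩ : (T.filter fun t => c ∈ L t).Nonempty := by
    rw [← Finset.card_pos]; omega
  rw [mem_filter] at htX
  by_cases h : ∃ t'' ∈ T, c ∈ L t'' ∧ t'' ≠ t ∧ G.oth t'' z ∈ G.comp φ c ψ (G.oth t z)
  · obtain ⟨t'', h1, h2, h4, h5⟩ := h
    -- an element different from `t`, `t''`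
    have hex : ∃ s ∈ T, c ∈ L s ∧ s ≠ t ∧ s ≠ t'' := by
      by_contra hcon
      push Not at hcon
      have : (T.filter fun t => c ∈ L t) ⊆ {t, t''} := by
        intro s hs
        rw [mem_filter] at hs
        rw [mem_insert, mem_singleton]
        by_cases hst : s = t
        · exact Or.inl hst
        · exact Or.inr (hcon s hs.1 hs.2 hst)
      have := (card_le_card this).trans Finset.card_le_two
      omega
    obtain ⟨s, hs1, hs2, hs3, hs4⟩ := hex
    have hor : (∃ f, IsOpt L f ∧ f t = none ∧ f t'' ≠ some c) ∨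
        (∃ f, IsOpt L f ∧ f t'' = none ∧ f t ≠ some c) := by
      by_contra hcon
      push Not at hcon
      rcases dm_pair h4.symm (hTT _ htX.1) (hTT _ h1) htX.2 h2 hcon.1 hcon.2 s (hTT _ hs1) hs2 with
        h6 | h6
      · exact hs3 h6
      · exact hs4 h6
    rcases hor with ⟨f, hf, hf1, hf2⟩ | ⟨f, hf, hf1, hf2⟩
    · obtain ⟨t', ht', hft'⟩ := dm_used hf (hTT _ htX.1) htX.2
      have hLt' := hf.1.mem _ _ hft'
      refine ⟨t, htX.1, htX.2, f, hf, hf1, t', hTT' _ ht' hLt', hft', fun hmem => ?_⟩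
      refine key _ t htX.1 t'' h1 t' (hTT' _ ht' hLt') htX.2 h2 hLt' h4.symm ?_ ?_
        (G.comp_self _ _ _) h5 hmem
      · rintro rfl
        rw [hf1] at hft'
        exact absurd hft' (by simp)
      · rintro rfl
        exact hf2 hft'
    · obtain ⟨t', ht', hft'⟩ := dm_used hf (hTT _ htX.1) htX.2
      have hLt' := hf.1.mem _ _ hft'
      refine ⟨t'', h1, h2, f, hf, hf1, t', hTT' _ ht' hLt', hft', fun hmem => ?_⟩
      rw [G.comp_eq h5] at hmem
      refine key _ t htX.1 t'' h1 t' (hTT' _ ht' hLt') htX.2 h2 hLt' h4.symm ?_ ?_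
        (G.comp_self _ _ _) h5 hmem
      · rintro rfl
        exact hf2 hft'
      · rintro rfl
        rw [hf1] at hft'
        exact absurd hft' (by simp)
  · push Not at h
    obtain ⟨f, hf, hf1⟩ := mem_TT.1 (hTT _ htX.1)
    obtain ⟨t', ht', hft'⟩ := dm_used hf (hTT _ htX.1) htX.2
    have hLt' := hf.1.mem _ _ hft'
    refine ⟨t, htX.1, htX.2, f, hf, hf1, t', hTT' _ ht' hLt', hft',
      h t' (hTT' _ ht' hLt') hLt' ?_⟩
    rintro rfl
    rw [hf1] at hft'
    exact absurd hft' (by simp)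

theorem e04_mis_swp (G : MG V E) {φ : E → Option K} {x y : K} {C : Finset V}
    (hC : G.Closed φ x y C) {v : V} {d : K} (h1 : d ≠ x) (h2 : d ≠ y)
    (h : d ∈ G.mis φ v) : d ∈ G.mis (G.swp φ x y C) v := by
  by_cases hv : v ∈ C
  · rw [G.mis_swp_mem hC hv, mem_image]
    exact ⟨d, h, Equiv.swap_apply_of_ne_of_ne h1 h2⟩
  · rw [G.mis_swp_not_mem hC hv]
    exact h

theorem e04_mis_swp' (G : MG V E) {φ : E → Option K} {x y : K} {C : Finset V}
    (hC : G.Closed φ x y C) {v : V} (hv : v ∈ C)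
    (h : x ∈ G.mis φ v) : y ∈ G.mis (G.swp φ x y C) v := by
  rw [G.mis_swp_mem hC hv, mem_image]
  exact ⟨x, h, Equiv.swap_apply_left x y⟩

/-- Row E04, INSERTION. `χ` good, `e0` an ordinary not coloured edge at `z`, `ψ` clean and missing at `z`, `R` (reserve at `z`),
`Y` (reserve at the other end of `e0`) clean colours. `hC` is a counting condition.
Proof. `χ0 = base χ z`. Elements `α = {e // (e ∈ ord z ∧ (χ e ≠ none ∨ e = e0)) ∨ e ∈ flex χ z}`, `pos e = oth e z`. Lists: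
`L e = ((mis χ0 (pos e) ∩ mis χ0 z) \ R).erase ψ`, minus `Y` if `e = e0`; for `e ∈ flex`: `L e = ((clean χ0 ∩ mis χ0 z) \ (R ∪ Y)).erase ψ`.
`χ` itself (restricted to `α`) is a `PM` omitting only `e0` (its colours are not in `R`, not `ψ`: those are missing at `z`; a flexible
single has no colour of `Y`, because `Y ⊆ clean χ`).
FINISH: if `χ1` is good, `χ1 e = none ↔ e ∈ α ∨ χ e = none`, and `g` colours all elements of `α` injectively, with colours missing at `z`
and at `pos e` (under `χ1`), clean (under `χ1`) for `e ∈ flex`, then `asg χ1 α g` is the colouring wanted, if the new reserves are clean under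
`χ1`, missing at `z` (at `oth e0 z`) under `χ1`, and not used by `g` (at all, for `R'`; on `flex` and `e0`, for `Y'`).
Note: `mis χ1 (pos e)` contains every colour except the one of `e` for `e ∈ flex`, as `pos e` is private.
Let `f` be an optimal matching.
(1) `om f = ∅`: FINISH with `χ1 = χ0`. So `(om f).card = 1` for optimal `f` and `e0 ∈ T := TT L`; `|T| = |L(T)| + 1` (`dm_card`).
(2a) some `t ∈ T` has `t ∈ flex` or `ψ ∈ mis χ0 (pos t)`: take `f` omitting `t`, `g = f` and `g t = ψ`, `R' = R`, `Y' = Y`.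
Otherwise `T ⊆ ord z` and `pos t` does not miss `ψ` for `t ∈ T`.
(2b) some `t ∈ T` has a colour `ρ ∈ R` in `mis χ0 (pos t)` (and `ρ ∉ Y` if `t = e0`): take `f` omitting `t`, `g t = ρ`, `R' = R - ρ + ψ`, `Y' = Y`.
Otherwise `L t = (mis χ0 (pos t) ∩ mis χ0 z) \ (Y if t = e0)` for all `t ∈ T`.
(2c) some `δ ∉ mis χ0 z` and `t1 ≠ t2` in `T` with `δ ∈ mis χ0 (pos ti)`. The edge of colour `δ` at `z` is a special edge (all ordinary
edges at `z` are not coloured in `χ0`). By `three_ends` not both `pos t1`, `pos t2` are in `comp χ0 δ ψ z`; say `pos t1` is not. Swap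
`C = comp χ0 δ ψ (pos t1)`; `z ∉ C`, so the clean colours do not change (`clean_swp`), `f` (omitting `t1`) still is a matching (its colours are
missing at `z`, so not `δ`, and not `ψ`), and `pos t1` misses `ψ` now: `g t1 = ψ`. `R' = R`, `Y' = Y` (`δ` is not clean).
(2d) otherwise `hC` applies to `T` (as a set of edges): `2|T| ≤ 1 + ∑_{t ∈ T} |L t| = 1 + ∑_{c ∈ L(T)} |X c|`, `X c = {t ∈ T | c ∈ L t}`; since
`|T| = |L(T)| + 1`, some `c ∈ L(T)` has `|X c| ≥ 3`. Take `t ∈ X c`. There is at most one `t'' ∈ X c`, `t'' ≠ t` with `pos t'' ∈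
comp χ0 c ψ (pos t)` (`three_ends`). If there is none, let `f` be any optimal matching omitting `t`. If there is one, then by `dm_pair`
(`|X c| ≥ 3`) there is an optimal `f` omitting `t` with `f t'' ≠ c` or an optimal `f` omitting `t''` with `f t ≠ c`; exchange the names.
The owner `t'` of `c` under `f`, if any, is in `T` (`dm_used`), and `pos t' ∉ C := comp χ0 c ψ (pos t)`. Swap `C` (`z ∉ C` because `z` misses
`c` and `ψ`, `not_mem_comp`): good; `f` is still a matching (colours other than `c`, `ψ` are not touched, in particular for `flex`: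
`mem_clean_swp`), `pos t` misses `ψ`: `g t = ψ` (`t` is ordinary). `R' = R` (`c ∉ R`). `Y'`: if `c ∈ Y` (so `t ≠ e0`, `c` is clean, no special
edge has colour `c` or `ψ`, the clean colours do not change) and `pos e0 ∈ C` then `Y' = Y - c + ψ`, otherwise `Y' = Y`. -/
theorem insertion (G : MG V E) {χ : E → Option K} (hg : G.Good χ) {z : V} {e0 : E}
    (he0 : e0 ∈ G.ord z) (hn : χ e0 = none) {ψ : K} (hψ : ψ ∈ G.mis χ z) (hψc : ψ ∈ G.clean χ)
    (R Y : Finset K) (hR : ∀ c ∈ R, c ∈ G.mis χ z ∧ c ∈ G.clean χ ∧ c ≠ ψ)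
    (hY : ∀ c ∈ Y, c ∈ G.mis χ (G.oth e0 z) ∧ c ∈ G.clean χ ∧ c ≠ ψ)
    (hC : ∀ T : Finset E, T ⊆ G.ord z → e0 ∈ T → (∀ e ∈ T, e = e0 ∨ χ e ≠ none) →
      (∀ δ, δ ∉ G.mis (G.base χ z) z →
        (T.filter fun e => δ ∈ G.mis (G.base χ z) (G.oth e z)).card ≤ 1) →
      2 * T.card ≤ 1 + ∑ e ∈ T, ((G.mis (G.base χ z) (G.oth e z) ∩ G.mis (G.base χ z) z) \
        (if e = e0 then Y else ∅)).card) :
    ∃ χ' : E → Option K, G.Good χ' ∧ (∀ e, χ' e = none ↔ χ e = none ∧ e ≠ e0) ∧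
      (∃ R' : Finset K, R'.card = R.card ∧ ∀ c ∈ R', c ∈ G.mis χ' z ∧ c ∈ G.clean χ') ∧
      ∃ Y' : Finset K, Y'.card = Y.card ∧
        ∀ c ∈ Y', c ∈ G.mis χ' (G.oth e0 z) ∧ c ∈ G.clean χ' := by
  set L := G.e04_L χ z e0 ψ R Y with hL
  set Z := G.e04_Z χ z e0 with hZdef
  set χ0 := G.base χ z with hχ0
  have hle : ∀ e c, χ0 e = some c → χ e = some c := fun e c h => G.e04_base_le e c h
  have hg0 : G.Good χ0 := Good.mono G hg hle
  have hn0 : ∀ e, χ0 e = none ↔ e ∈ Z ∨ χ e = none := fun e => G.e04_base_none hn e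
  have hmm : ∀ v, G.mis χ v ⊆ G.mis χ0 v := fun v => G.mis_mono hle v
  have hcm : G.clean χ ⊆ G.clean χ0 := G.clean_mono hle
  have hψz : ψ ∈ G.mis χ0 z := hmm z hψ
  have hψ0 : ψ ∈ G.clean χ0 := hcm hψc
  have h0Z : e0 ∈ Z := G.e04_mem_Z.2 (Or.inl ⟨he0, Or.inr rfl⟩)
  have he0S : e0 ∉ G.S := (G.e04_mem_ord.1 he0).1
  -- properties of matchings
  have hLm : ∀ {f : E → Option K}, PM L f → ∀ {e c}, f e = some c → e ∈ Z ∧ c ≠ ψ ∧ c ∉ R ∧
      c ∈ G.mis χ0 z ∧ c ∈ G.mis χ0 (G.oth e z) ∧ (e ∈ G.S → c ∈ G.clean χ0 ∧ c ∉ Y) ∧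
      (e = e0 → c ∉ Y) := fun hf e c h => G.e04_mem_L.1 (hf.mem e c h)
  -- case (1)
  by_cases h0 : ∀ f, IsOpt L f → ∃ t ∈ Z, f t = none
  swap
  · push Not at h0
    obtain ⟨f, hf, hfn⟩ := h0
    refine G.e04_finish he0 hg0 hn0 hfn (fun e _ e' _ c h h' => hf.1.inj e e' c h h')
      (fun e _ c hc => (hLm hf.1 hc).2.2.2.1) (fun e _ _ c hc => (hLm hf.1 hc).2.2.2.2.1)
      (fun e _ hS c hc => ((hLm hf.1 hc).2.2.2.2.2.1 hS).1) (R' := R) (Y' := Y) rfl rfl ?_ ?_
    · intro c hc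
      exact ⟨hmm z (hR c hc).1, hcm (hR c hc).2.1, fun e _ hec => (hLm hf.1 hec).2.2.1 hc⟩
    · intro c hc
      exact ⟨hmm _ (hY c hc).1, hcm (hY c hc).2.1, fun hec => (hLm hf.1 hec).2.2.2.2.2.2 rfl hc,
        fun e _ hS hec => ((hLm hf.1 hec).2.2.2.2.2.1 hS).2 hc⟩
  -- an optimal matching omitting `t` omits nothing else
  have hone : ∀ {f : E → Option K}, IsOpt L f → ∀ {t}, t ∈ Z → f t = none →
      ∀ e ∈ Z, e ≠ t → f e ≠ none := by
    intro f hf t ht hft e he het hen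
    exact het (G.e04_one hg he0 hn hψ R Y hR hY hf he ht hen hft)
  -- case (2a)
  by_cases ha : ∃ t ∈ TT L, t ∈ Z ∧ ψ ∈ G.mis χ0 (G.oth t z)
  · obtain ⟨t, htT, htZ, htψ⟩ := ha
    obtain ⟨f, hf, hft⟩ := mem_TT.1 htT
    refine G.e04_finish2 he0 hg0 hn0 hf.1.inj (hone hf htZ hft)
      (fun e _ c hc => (hLm hf.1 hc).2.2.2.1) (fun e _ _ c hc => (hLm hf.1 hc).2.2.2.2.1)
      (fun e _ hS c hc => ((hLm hf.1 hc).2.2.2.2.2.1 hS).1) hψz (fun _ => htψ) (fun _ => hψ0)
      (fun e he => (hLm hf.1 he).2.1 rfl) (R' := R) (Y' := Y) rfl rfl ?_ ?_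
    · intro c hc
      exact ⟨hmm z (hR c hc).1, hcm (hR c hc).2.1, (hR c hc).2.2,
        fun e _ hec => (hLm hf.1 hec).2.2.1 hc⟩
    · intro c hc
      exact ⟨hmm _ (hY c hc).1, hcm (hY c hc).2.1, fun _ => (hY c hc).2.2,
        fun hec => (hLm hf.1 hec).2.2.2.2.2.2 rfl hc,
        fun e _ hS hec => ((hLm hf.1 hec).2.2.2.2.2.1 hS).2 hc⟩
  push Not at ha
  -- all elements of `T` are ordinary
  have hTS : ∀ t ∈ TT L, t ∈ Z → t ∉ G.S := by
    intro t ht htZ hS
    exact ha t ht htZ (G.e04_mis_priv htZ hS ((hn0 t).2 (Or.inl htZ)) ψ)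
  -- case (2b)
  by_cases hb : ∃ t ∈ TT L, t ∈ Z ∧ ∃ ρ ∈ R, ρ ∈ G.mis χ0 (G.oth t z) ∧ (t = e0 → ρ ∉ Y)
  · obtain ⟨t, htT, htZ, ρ, hρR, hρm, hρY⟩ := hb
    obtain ⟨f, hf, hft⟩ := mem_TT.1 htT
    have htS := hTS t htT htZ
    refine G.e04_finish2 he0 hg0 hn0 hf.1.inj (hone hf htZ hft)
      (fun e _ c hc => (hLm hf.1 hc).2.2.2.1) (fun e _ _ c hc => (hLm hf.1 hc).2.2.2.2.1)
      (fun e _ hS c hc => ((hLm hf.1 hc).2.2.2.2.2.1 hS).1) (ρ := ρ) (hmm z (hR ρ hρR).1)
      (fun _ => hρm) (fun hS => absurd hS htS)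
      (fun e he => (hLm hf.1 he).2.2.1 hρR) (R := R) (R' := insert ψ (R.erase ρ)) (Y := Y)
      (Y' := Y) ?_ rfl ?_ ?_
    · rw [card_insert_of_notMem, card_erase_of_mem hρR]
      · have : 0 < R.card := card_pos.2 ⟨ρ, hρR⟩
        omega
      · rw [mem_erase]
        rintro ⟨_, h⟩
        exact (hR ψ h).2.2 rfl
    · intro c hc
      rw [mem_insert, mem_erase] at hc
      rcases hc with rfl | ⟨hc1, hc⟩
      · exact ⟨hψz, hψ0, fun h => (hR ρ hρR).2.2 h.symm, fun e _ hec => (hLm hf.1 hec).2.1 rfl⟩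
      · exact ⟨hmm z (hR c hc).1, hcm (hR c hc).2.1, hc1,
          fun e _ hec => (hLm hf.1 hec).2.2.1 hc⟩
    · intro c hc
      refine ⟨hmm _ (hY c hc).1, hcm (hY c hc).2.1, ?_,
        fun hec => (hLm hf.1 hec).2.2.2.2.2.2 rfl hc,
        fun e _ hS hec => ((hLm hf.1 hec).2.2.2.2.2.1 hS).2 hc⟩
      rintro (h | h)
      · rintro rfl
        exact hρY h hc
      · exact absurd h htS
  push Not at hb
  -- case (2c)
  by_cases hc : ∃ δ, δ ∉ G.mis χ0 z ∧ ∃ t1 ∈ TT L, t1 ∈ Z ∧ ∃ t2 ∈ TT L, t2 ∈ Z ∧ t1 ≠ t2 ∧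
      δ ∈ G.mis χ0 (G.oth t1 z) ∧ δ ∈ G.mis χ0 (G.oth t2 z)
  · obtain ⟨δ, hδz, t1, ht1, ht1Z, t2, ht2, ht2Z, hne, hd1, hd2⟩ := hc
    have hδψ : δ ≠ ψ := by
      rintro rfl
      exact hδz hψz
    have hs : ∃ s, G.inc s z ∧ χ0 s = some δ := by
      by_contra hcon
      push Not at hcon
      exact hδz (by simp only [mis, mem_filter, mem_univ, true_and]; exact hcon)
    obtain ⟨s, hsz, hsc⟩ := hs
    have hsS : s ∈ G.S := by
      by_contra hS
      have h1 : s ∈ G.ord z := G.e04_mem_ord.2 ⟨hS, hsz⟩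
      have h2 : χ0 s = none := by
        rw [hχ0]
        unfold base
        rw [if_pos (Or.inl h1)]
      rw [h2] at hsc
      exact absurd hsc (by simp)
    have step : ∀ t ∈ TT L, t ∈ Z → δ ∈ G.mis χ0 (G.oth t z) →
        G.oth t z ∉ G.comp χ0 δ ψ z →
        ∃ χ' : E → Option K, G.Good χ' ∧ (∀ e, χ' e = none ↔ χ e = none ∧ e ≠ e0) ∧
          (∃ R' : Finset K, R'.card = R.card ∧ ∀ c ∈ R', c ∈ G.mis χ' z ∧ c ∈ G.clean χ') ∧
          ∃ Y' : Finset K, Y'.card = Y.card ∧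
            ∀ c ∈ Y', c ∈ G.mis χ' (G.oth e0 z) ∧ c ∈ G.clean χ' := by
      intro t ht htZ htd htc
      obtain ⟨f, hf, hft⟩ := mem_TT.1 ht
      have htS := hTS t ht htZ
      have hCc := G.comp_closed (φ := χ0) δ ψ (G.oth t z)
      set C := G.comp χ0 δ ψ (G.oth t z) with hCdef
      have htC : G.oth t z ∈ C := G.comp_self _ _ _
      have hzC : z ∉ C := by
        intro h
        apply htc
        rw [G.comp_eq h]
        exact htC
      have hcl : G.clean (G.swp χ0 δ ψ C) = G.clean χ0 := by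
        refine G.clean_swp hψ0 ?_
        intro e he hec
        have hes : e = s := hg0.rainbow e he s hsS δ hec hsc
        subst hes
        rcases hsz with h | h
        · rw [h]; exact hzC
        · rw [hCc e (Or.inl hec), h]; exact hzC
      have hmz : G.mis (G.swp χ0 δ ψ C) z = G.mis χ0 z := G.mis_swp_not_mem hCc hzC
      have hδc : δ ∉ G.clean χ0 := by
        intro h
        simp only [clean, mem_filter, mem_univ, true_and] at h
        exact h s hsS hsc
      refine G.e04_finish2 he0 (G.swp_good hg0 hCc hψ0)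
        (fun e => by rw [G.swp_none]; exact hn0 e) hf.1.inj (hone hf htZ hft)
        (fun e _ c hc => by rw [hmz]; exact (hLm hf.1 hc).2.2.2.1)
        (fun e _ _ c hc => ?_)
        (fun e _ hS c hc => by rw [hcl]; exact ((hLm hf.1 hc).2.2.2.2.2.1 hS).1)
        (ρ := ψ) (by rw [hmz]; exact hψz) (fun _ => G.e04_mis_swp' hCc htC htd)
        (fun hS => absurd hS htS)
        (fun e he => (hLm hf.1 he).2.1 rfl) (R' := R) (Y' := Y) rfl rfl ?_ ?_
      · refine G.e04_mis_swp hCc ?_ (hLm hf.1 hc).2.1 (hLm hf.1 hc).2.2.2.2.1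
        rintro rfl
        exact hδz (hLm hf.1 hc).2.2.2.1
      · intro c hc
        rw [hmz, hcl]
        exact ⟨hmm z (hR c hc).1, hcm (hR c hc).2.1, (hR c hc).2.2,
          fun e _ hec => (hLm hf.1 hec).2.2.1 hc⟩
      · intro c hc
        rw [hcl]
        refine ⟨G.e04_mis_swp hCc ?_ (hY c hc).2.2 (hmm _ (hY c hc).1), hcm (hY c hc).2.1,
          fun _ => (hY c hc).2.2, fun hec => (hLm hf.1 hec).2.2.2.2.2.2 rfl hc,
          fun e _ hS hec => ((hLm hf.1 hec).2.2.2.2.2.1 hS).2 hc⟩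
        rintro rfl
        exact hδc (hcm (hY c hc).2.1)
    by_cases h1 : G.oth t1 z ∈ G.comp χ0 δ ψ z
    · by_cases h2 : G.oth t2 z ∈ G.comp χ0 δ ψ z
      · exfalso
        refine G.three_ends hg0.proper hδψ (G.comp_self _ _ z) h1 h2 (Or.inr hψz) (Or.inl hd1)
          (Or.inl hd2) (G.oth_ne (G.e04_inc ht1Z)).symm (G.oth_ne (G.e04_inc ht2Z)).symm ?_
        intro h
        exact hne (G.oth_inj (G.e04_ord_of_Z ht1Z (hTS t1 ht1 ht1Z))
          (G.e04_ord_of_Z ht2Z (hTS t2 ht2 ht2Z)) h)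
      · exact step t2 ht2 ht2Z hd2 h2
    · exact step t1 ht1 ht1Z hd1 h1
  push Not at hc
  -- case (2d)
  obtain ⟨hcard, he0T⟩ := G.e04_T hg he0 hn hψ R Y hR hY h0
  set T := (TT L).filter (fun e => e ∈ Z) with hTdef
  have hTmem : ∀ {t}, t ∈ T ↔ t ∈ TT L ∧ t ∈ Z := by
    intro t
    rw [hTdef, mem_filter]
  have hTord : ∀ t ∈ T, t ∈ G.ord z := fun t ht =>
    G.e04_ord_of_Z (hTmem.1 ht).2 (hTS t (hTmem.1 ht).1 (hTmem.1 ht).2)
  have hLT : ∀ t ∈ T, L t = (G.mis χ0 (G.oth t z) ∩ G.mis χ0 z) \ (if t = e0 then Y else ∅) := by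
    intro t ht
    obtain ⟨ht1, ht2⟩ := hTmem.1 ht
    ext c
    rw [hL, G.e04_mem_L, mem_sdiff, mem_inter]
    constructor
    · rintro ⟨_, _, _, h4, h5, _, h7⟩
      refine ⟨⟨h5, h4⟩, ?_⟩
      split_ifs with h
      · exact h7 h
      · exact notMem_empty _
    · rintro ⟨⟨h5, h4⟩, h7⟩
      refine ⟨ht2, ?_, ?_, h4, h5, fun hS => absurd hS (hTS t ht1 ht2), ?_⟩
      · rintro rfl
        exact ha t ht1 ht2 h5
      · intro hcR
        obtain ⟨h8, h9⟩ := hb t ht1 ht2 c hcR h5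
        rw [if_pos h8] at h7
        exact h7 h9
      · intro h
        rw [if_pos h] at h7
        exact h7
  have hCT := hC T hTord (hTmem.2 ⟨he0T, h0Z⟩) (by
      intro e he
      rcases G.e04_mem_Z.1 (hTmem.1 he).2 with ⟨_, h3 | h3⟩ | h3
      · exact Or.inr h3
      · exact Or.inl h3
      · exact Or.inr (G.e04_mem_flex.1 h3).2.2.2) (by
      intro δ hδ
      rw [Finset.card_le_one]
      intro t1 h1 t2 h2
      rw [mem_filter] at h1 h2
      by_contra hne
      exact hc δ hδ t1 (hTmem.1 h1.1).1 (hTmem.1 h1.1).2 t2 (hTmem.1 h2.1).1 (hTmem.1 h2.1).2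
        hne h1.2 h2.2)
  rw [← Finset.sum_congr rfl (fun t ht => congrArg Finset.card (hLT t ht))] at hCT
  obtain ⟨c, hc3⟩ := e04_three hcard hCT
  have hcmem : ∀ t ∈ T, c ∈ L t → c ≠ ψ ∧ c ∉ R ∧ c ∈ G.mis χ0 z ∧ c ∈ G.mis χ0 (G.oth t z) ∧
      (t = e0 → c ∉ Y) := by
    intro t _ h
    obtain ⟨_, h2, h3, h4, h5, _, h7⟩ := G.e04_mem_L.1 h
    exact ⟨h2, h3, h4, h5, h7⟩
  have hcψ : c ≠ ψ := by
    obtain ⟨t, ht⟩ := Finset.card_pos.1 (lt_of_lt_of_le (by norm_num) hc3)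
    rw [mem_filter] at ht
    exact (hcmem t ht.1 ht.2).1
  obtain ⟨t, htT, hct, f, hf, hft, t', ht'T, hft', hcomp⟩ := G.e04_choice hg0.proper (ψ := ψ) hcψ
    hTord (fun t ht => (hTmem.1 ht).1)
    (fun t ht hct => hTmem.2 ⟨ht, (G.e04_mem_L.1 hct).1⟩)
    (fun t ht hct => (hcmem t ht hct).2.2.2.1) hc3
  obtain ⟨_, hcR, hcz, hcot, hct0⟩ := hcmem t htT hct
  have htZ := (hTmem.1 htT).2
  have htS := hTS t (hTmem.1 htT).1 htZ
  have hCc := G.comp_closed (φ := χ0) c ψ (G.oth t z)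
  set C := G.comp χ0 c ψ (G.oth t z) with hCdef
  have htC : G.oth t z ∈ C := G.comp_self _ _ _
  have hzC : z ∉ C := G.not_mem_comp hcz hψz (G.oth_ne (G.e04_inc htZ)).symm
  have hmz : G.mis (G.swp χ0 c ψ C) z = G.mis χ0 z := G.mis_swp_not_mem hCc hzC
  -- the colour of an edge of `Z` under `f`
  have hfo : ∀ e d, f e = some d → d ∈ G.mis (G.swp χ0 c ψ C) (G.oth e z) := by
    intro e d hed
    obtain ⟨_, h2, _, _, h5, _, _⟩ := hLm hf.1 hed
    by_cases hdc : d = c
    · subst hdc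
      have : e = t' := hf.1.inj e t' d hed hft'
      subst this
      rw [G.mis_swp_not_mem hCc hcomp]
      exact h5
    · exact G.e04_mis_swp hCc hdc h2 h5
  have hfs : ∀ e, e ∈ G.S → ∀ d, f e = some d → d ∈ G.clean (G.swp χ0 c ψ C) := by
    intro e hS d hed
    obtain ⟨_, h2, _, _, _, h6, _⟩ := hLm hf.1 hed
    have hdc : d ≠ c := by
      rintro rfl
      have : e = t' := hf.1.inj e t' d hed hft'
      subst this
      exact hTS e (hTmem.1 ht'T).1 (hTmem.1 ht'T).2 hS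
    rw [G.mem_clean_swp hdc h2]
    exact (h6 hS).1
  have main : ∀ Y' : Finset K, Y'.card = Y.card →
      (∀ d ∈ Y', d ∈ G.mis (G.swp χ0 c ψ C) (G.oth e0 z) ∧ d ∈ G.clean (G.swp χ0 c ψ C) ∧
        (t = e0 ∨ t ∈ G.S → d ≠ ψ) ∧ f e0 ≠ some d ∧ ∀ e ∈ Z, e ∈ G.S → f e ≠ some d) →
      ∃ χ' : E → Option K, G.Good χ' ∧ (∀ e, χ' e = none ↔ χ e = none ∧ e ≠ e0) ∧
        (∃ R' : Finset K, R'.card = R.card ∧ ∀ c ∈ R', c ∈ G.mis χ' z ∧ c ∈ G.clean χ') ∧
        ∃ Y' : Finset K, Y'.card = Y.card ∧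
          ∀ c ∈ Y', c ∈ G.mis χ' (G.oth e0 z) ∧ c ∈ G.clean χ' := by
    intro Y' hYc hY'
    refine G.e04_finish2 he0 (G.swp_good hg0 hCc hψ0)
      (fun e => by rw [G.swp_none]; exact hn0 e) hf.1.inj (hone hf htZ hft)
      (fun e _ c hc => by rw [hmz]; exact (hLm hf.1 hc).2.2.2.1)
      (fun e _ _ d hd => hfo e d hd) (fun e _ hS d hd => hfs e hS d hd)
      (ρ := ψ) (by rw [hmz]; exact hψz) (fun _ => G.e04_mis_swp' hCc htC hcot)
      (fun hS => absurd hS htS)
      (fun e he => (hLm hf.1 he).2.1 rfl) (R' := R) (Y := Y) (Y' := Y') rfl hYc ?_ hY'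
    intro d hd
    have hdc : d ≠ c := by
      rintro rfl
      exact hcR hd
    rw [hmz, G.mem_clean_swp hdc (hR d hd).2.2]
    exact ⟨hmm z (hR d hd).1, hcm (hR d hd).2.1, (hR d hd).2.2,
      fun e _ hec => (hLm hf.1 hec).2.2.1 hd⟩
  by_cases hcY : c ∈ Y
  · have hte0 : t ≠ e0 := fun h => hct0 h hcY
    have hcc : c ∈ G.clean χ0 := hcm (hY c hcY).2.1
    have hcl : G.clean (G.swp χ0 c ψ C) = G.clean χ0 := by
      refine G.clean_swp hψ0 ?_
      intro e he hec
      simp only [clean, mem_filter, mem_univ, true_and] at hcc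
      exact absurd hec (hcc e he)
    by_cases heC : G.oth e0 z ∈ C
    · refine main (insert ψ (Y.erase c)) ?_ ?_
      · rw [card_insert_of_notMem, card_erase_of_mem hcY]
        · have : 0 < Y.card := card_pos.2 ⟨c, hcY⟩
          omega
        · rw [mem_erase]
          rintro ⟨_, h⟩
          exact (hY ψ h).2.2 rfl
      · intro d hd
        rw [mem_insert, mem_erase] at hd
        rcases hd with rfl | ⟨hdc, hd⟩
        · refine ⟨G.e04_mis_swp' hCc heC (hmm _ (hY c hcY).1), by rw [hcl]; exact hψ0, ?_,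
            fun h => (hLm hf.1 h).2.1 rfl, fun e _ _ h => (hLm hf.1 h).2.1 rfl⟩
          rintro (h | h)
          · exact absurd h hte0
          · exact absurd h htS
        · exact ⟨G.e04_mis_swp hCc hdc (hY d hd).2.2 (hmm _ (hY d hd).1),
            by rw [hcl]; exact hcm (hY d hd).2.1, fun _ => (hY d hd).2.2,
            fun h => (hLm hf.1 h).2.2.2.2.2.2 rfl hd,
            fun e _ hS h => ((hLm hf.1 h).2.2.2.2.2.1 hS).2 hd⟩
    · refine main Y rfl ?_
      intro d hd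
      refine ⟨?_, by rw [hcl]; exact hcm (hY d hd).2.1, fun _ => (hY d hd).2.2,
            fun h => (hLm hf.1 h).2.2.2.2.2.2 rfl hd,
            fun e _ hS h => ((hLm hf.1 h).2.2.2.2.2.1 hS).2 hd⟩
      rw [G.mis_swp_not_mem hCc heC]
      exact hmm _ (hY d hd).1
  · refine main Y rfl ?_
    intro d hd
    have hdc : d ≠ c := by
      rintro rfl
      exact hcY hd
    exact ⟨G.e04_mis_swp hCc hdc (hY d hd).2.2 (hmm _ (hY d hd).1),
      by rw [G.mem_clean_swp hdc (hY d hd).2.2]; exact hcm (hY d hd).2.1,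
      fun _ => (hY d hd).2.2, fun h => (hLm hf.1 h).2.2.2.2.2.2 rfl hd,
      fun e _ hS h => ((hLm hf.1 h).2.2.2.2.2.1 hS).2 hd⟩


/-- number of missing colours at the other end of an uncoloured edge -/
theorem card_mis_ge (G : MG V E) {χ : E → Option K} (hg : G.Good χ) {v : V} {e : E}
    (he : G.inc e v) (hn : χ e = none) : Fintype.card K + 1 ≤ (G.mis χ v).card + G.tdeg v := by
  have h1 := card_mis G hg.proper v
  have h2 : (univ.filter fun e' => G.inc e' v ∧ χ e' ≠ none).card + 1 ≤ G.tdeg v := by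
    have hsub : insert e (univ.filter fun e' => G.inc e' v ∧ χ e' ≠ none) ⊆
        univ.filter fun e' => G.inc e' v := by
      intro e' he'
      rw [Finset.mem_insert] at he'
      rcases he' with rfl | he'
      · exact Finset.mem_filter.mpr ⟨Finset.mem_univ _, he⟩
      · exact Finset.mem_filter.mpr ⟨Finset.mem_univ _, (Finset.mem_filter.mp he').2.1⟩
    have hnot : e ∉ (univ.filter fun e' => G.inc e' v ∧ χ e' ≠ none) := by
      intro h
      exact (Finset.mem_filter.mp h).2.2 hn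
    have := Finset.card_le_card hsub
    rw [Finset.card_insert_of_notMem hnot] at this
    exact this
  omega

/-- the colours not missing at `z` in `base χ z` are colours of special edges at `z`; there are at most `sdeg z` -/
theorem card_blocked (G : MG V E) {χ : E → Option K} (hg : G.Good χ) {z : V} :
    (univ \ G.mis (G.base χ z) z).card ≤ G.sdeg z := by
  have hex : ∀ δ ∈ univ \ G.mis (G.base χ z) z, ∃ e, G.inc e z ∧ G.base χ z e = some δ := by
    intro δ hδ
    have h1 := (Finset.mem_sdiff.mp hδ).2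
    by_contra hcon
    push Not at hcon
    exact h1 (Finset.mem_filter.mpr ⟨Finset.mem_univ _, fun e he => hcon e he⟩)
  have hsub : (univ \ G.mis (G.base χ z) z).image some ⊆
      (univ.filter fun e => e ∈ G.S ∧ G.inc e z).image (G.base χ z) := by
    intro o ho
    obtain ⟨δ, hδ, rfl⟩ := Finset.mem_image.mp ho
    obtain ⟨e, hi, hc⟩ := hex δ hδ
    refine Finset.mem_image.mpr ⟨e, Finset.mem_filter.mpr ⟨Finset.mem_univ _, ?_, hi⟩, hc⟩
    by_contra hS
    have : e ∈ G.ord z := Finset.mem_filter.mpr ⟨Finset.mem_univ _, hS, hi⟩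
    simp only [base, this, true_or, if_true] at hc
    exact absurd hc (by simp)
  have h1 := Finset.card_le_card hsub
  rw [Finset.card_image_of_injective _ (Option.some_injective K)] at h1
  exact le_trans h1 Finset.card_image_le

/-- the total good colourings with `β` clean colours missing at `x` -/
def Goal (G : MG V E) (x : V) (K : Type) [Fintype K] (β : ℕ) : Prop :=
  ∃ χ : E → Option K, G.Good χ ∧ (∀ e, χ e ≠ none) ∧ β ≤ (G.mis χ x ∩ G.clean χ).card

/-- Row E05, ITERATION: if the uncoloured edges are ordinary edges at `x`, `r` of them, and `x` misses `r + β` clean colours, then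
all can be inserted. Proof: induction on `r`; `r = 0` clear. Otherwise take one uncoloured `e0`, `ψ` clean missing at `x`, `R` = all other
clean colours missing at `x`, `Y = ∅`, apply `insertion` with `z = x`. The counting condition: for `e ∈ T`,
`|mis χ0 (oth e x) ∩ mis χ0 x| ≥ |mis χ0 (oth e x)| - |univ \ mis χ0 x| ≥ |K| + 1 - tdeg (oth e x) - sdeg x ≥ 2`
(`card_mis_ge` for `base χ x`, `card_blocked`). -/
theorem iterate (G : MG V E) {x : V} {β : ℕ}
    (h1 : ∀ e ∈ G.ord x, G.tdeg (G.oth e x) + G.sdeg x + 1 ≤ Fintype.card K)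
    {χ : E → Option K} (hg : G.Good χ) (hu : ∀ e, χ e = none → e ∈ G.ord x)
    (hr : (univ.filter fun e => χ e = none).card + β ≤ (G.mis χ x ∩ G.clean χ).card) :
    G.Goal x K β := by
  obtain ⟨r, hrr⟩ : ∃ r, r = (univ.filter fun e => χ e = none).card := ⟨_, rfl⟩
  induction r generalizing χ with
  | zero =>
    refine ⟨χ, hg, fun e he => ?_, by omega⟩
    have h0 := Finset.card_eq_zero.mp hrr.symm
    have : e ∈ (univ.filter fun e => χ e = none) := Finset.mem_filter.mpr ⟨Finset.mem_univ _, he⟩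
    rw [h0] at this
    exact absurd this (Finset.notMem_empty _)
  | succ r ih =>
    obtain ⟨e0, he0⟩ : (univ.filter fun e => χ e = none).Nonempty := by
      rw [← Finset.card_pos]; omega
    have hn : χ e0 = none := (Finset.mem_filter.mp he0).2
    have he0x : e0 ∈ G.ord x := hu e0 hn
    obtain ⟨ψ, hψ⟩ : (G.mis χ x ∩ G.clean χ).Nonempty := by
      rw [← Finset.card_pos]; omega
    have hψ1 := (Finset.mem_inter.mp hψ).1
    have hψ2 := (Finset.mem_inter.mp hψ).2
    obtain ⟨χ', hg', hnone', ⟨R', hR'card, hR'⟩, _⟩ := insertion G hg he0x hn hψ1 hψ2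
      ((G.mis χ x ∩ G.clean χ).erase ψ) ∅
      (by
        intro c hc
        rw [Finset.mem_erase, Finset.mem_inter] at hc
        exact ⟨hc.2.1, hc.2.2, hc.1⟩)
      (by
        intro c hc
        exact absurd hc (Finset.notMem_empty _))
      (by
        intro T hT _ _ _
        have hterm : ∀ e ∈ T, 2 ≤ ((G.mis (G.base χ x) (G.oth e x) ∩ G.mis (G.base χ x) x) \
            (if e = e0 then (∅ : Finset K) else ∅)).card := by
          intro e he
          have heo : e ∈ G.ord x := hT he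
          have hgb : G.Good (G.base χ x) := Good.mono G hg (by
            intro e' c hc
            by_cases hh : e' ∈ G.ord x ∨ e' ∈ G.flex χ x
            · simp only [base, hh, if_true] at hc
              exact absurd hc (by simp)
            · simp only [base, hh, if_false] at hc
              exact hc)
          have hbn : G.base χ x e = none := by simp [base, heo]
          have hinc : G.inc e x := (Finset.mem_filter.mp heo).2.2
          have h2 := card_mis_ge G hgb (inc_oth G hinc) hbn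
          have h3 := card_blocked G hg (z := x)
          have h4 := h1 e heo
          have h5 : (G.mis (G.base χ x) (G.oth e x)).card ≤
              (G.mis (G.base χ x) (G.oth e x) ∩ G.mis (G.base χ x) x).card +
              (univ \ G.mis (G.base χ x) x).card := by
            have hsub : G.mis (G.base χ x) (G.oth e x) ⊆
                (G.mis (G.base χ x) (G.oth e x) ∩ G.mis (G.base χ x) x) ∪
                (univ \ G.mis (G.base χ x) x) := by
              intro c hc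
              by_cases hcx : c ∈ G.mis (G.base χ x) x
              · exact Finset.mem_union_left _ (Finset.mem_inter.mpr ⟨hc, hcx⟩)
              · exact Finset.mem_union_right _ (Finset.mem_sdiff.mpr ⟨Finset.mem_univ _, hcx⟩)
            exact le_trans (Finset.card_le_card hsub) (Finset.card_union_le _ _)
          rw [ite_self, Finset.sdiff_empty]
          omega
        have hsum := Finset.sum_le_sum hterm
        rw [Finset.sum_const, smul_eq_mul] at hsum
        omega)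
    have hcard : (univ.filter fun e => χ' e = none).card = r := by
      have heq : (univ.filter fun e => χ' e = none) = (univ.filter fun e => χ e = none).erase e0 := by
        ext e
        simp only [Finset.mem_filter, Finset.mem_univ, true_and, Finset.mem_erase]
        rw [hnone' e]
        tauto
      rw [heq, Finset.card_erase_of_mem he0]
      omega
    refine ih hg' (fun e he => hu e ((hnone' e).mp he).1) ?_ hcard.symm
    have hsub : R' ⊆ G.mis χ' x ∩ G.clean χ' := by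
      intro c hc
      exact Finset.mem_inter.mpr (hR' c hc)
    have h6 := Finset.card_le_card hsub
    rw [hR'card, Finset.card_erase_of_mem hψ] at h6
    omega

end MG

end MP405E
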