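import Mathlib
import Pool.Agent.Lib.MP_405d56_lc.EInsert

/-! # The star of the centre `x` is uncoloured: Lemma A (row E06), Lemma J (row E07), claim 3 (row E08) -/

set_option autoImplicit false

namespace MP405E

open Finset Classical

variable {V E K : Type} [Fintype V] [Fintype E] [Fintype K]

namespace MG

/-- the elements: the ordinary edges at `x` -/
abbrev El (G : MG V E) (x : V) : Type := {e : E // e ∈ G.ord x}

/-- the other end -/
noncomputable def pos (G : MG V E) (x : V) (e : G.El x) : V := G.oth e.1 x

/-- the list of an element: the colours missing at both ends -/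
noncomputable def lis (G : MG V E) (x : V) (φ : E → Option K) (e : G.El x) : Finset K :=
  G.mis φ (G.pos x e) ∩ G.mis φ x

/-- `φ` is good and colours exactly the edges different from the ordinary edges at `x` -/
structure St (G : MG V E) (x : V) (φ : E → Option K) : Prop where
  good : G.Good φ
  none_iff : ∀ e, φ e = none ↔ e ∈ G.ord x

/-- the hypotheses on the degrees -/
structure Hyp (G : MG V E) (x : V) (K : Type) [Fintype K] (β : ℕ) : Prop where
  hβ : β ≤ 1
  hall : ∀ v, G.tdeg v + 1 ≤ Fintype.card K
  h1 : ∀ e ∈ G.ord x, G.tdeg (G.oth e x) + G.sdeg x + 1 ≤ Fintype.card K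
  h2 : G.tdeg x + β + 1 ≤ Fintype.card K
  h3 : G.dbl.card + G.S.card < Fintype.card K
  h4 : G.S.card + 1 + β ≤ Fintype.card K

/-- `f` is a matching of the elements into the lists using special colours only -/
structure SM (G : MG V E) (x : V) (φ : E → Option K) (f : G.El x → Option K) : Prop where
  pm : PM (G.lis x φ) f
  spec : ∀ e c, f e = some c → c ∉ G.clean φ

variable {G : MG V E} {x : V} {β : ℕ} {φ : E → Option K}

theorem pos_inj {s t : G.El x} (h : G.pos x s = G.pos x t) : s = t :=
  Subtype.ext (G.oth_inj s.2 t.2 h)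

theorem pos_ne (s : G.El x) : G.pos x s ≠ x :=
  G.oth_ne (G.mem_ord.1 s.2).2

/-- clean colours are missing at `x` -/
theorem St.clean_mis (hS : G.St x φ) {c : K} (hc : c ∈ G.clean φ) : c ∈ G.mis φ x := by
  rw [mem_clean] at hc
  rw [mem_mis]
  intro e he h
  by_cases heS : e ∈ G.S
  · exact hc e heS h
  · have h1 := (hS.none_iff e).2 (G.mem_ord.2 ⟨heS, he⟩)
    rw [h1] at h
    exact absurd h (by simp)

theorem e06_card_mis_x (hS : G.St x φ) : (G.mis φ x).card + G.sdeg x = Fintype.card K := by
  rw [← G.card_mis hS.good.proper x]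
  congr 1
  unfold sdeg
  congr 1
  ext e
  simp only [mem_filter, mem_univ, true_and, ne_eq, hS.none_iff e, mem_ord]
  tauto

theorem e06_card_El : Fintype.card (G.El x) + G.sdeg x = G.tdeg x := by
  have h1 : Fintype.card (G.El x) = (G.ord x).card := by simp [El]
  rw [h1]
  have h2 := Finset.card_filter_add_card_filter_not (s := (univ : Finset E).filter fun e => G.inc e x)
    (fun e => e ∉ G.S)
  unfold tdeg sdeg ord
  rw [← h2, Finset.filter_filter, Finset.filter_filter]
  congr 1
  · congr 1
    ext e
    simp only [mem_filter, mem_univ, true_and]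
    tauto
  · congr 1
    ext e
    simp only [mem_filter, mem_univ, true_and]
    tauto

/-- row E06 -/
theorem St.two_le_lis (H : G.Hyp x K β) (hS : G.St x φ) (e : G.El x) : 2 ≤ (G.lis x φ e).card := by
  have hi : G.inc e.1 x := (G.mem_ord.1 e.2).2
  have h1 := G.card_mis_ge hS.good (v := G.pos x e) (e := e.1) (G.inc_oth hi)
    ((hS.none_iff e.1).2 e.2)
  have h2 := e06_card_mis_x hS
  have h3 := H.h1 e.1 e.2
  have h4 := Finset.card_union_add_card_inter (G.mis φ (G.pos x e)) (G.mis φ x)
  have h5 : (G.mis φ (G.pos x e) ∪ G.mis φ x).card ≤ Fintype.card K := Finset.card_le_univ _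
  have h6 : G.tdeg (G.pos x e) = G.tdeg (G.oth e.1 x) := rfl
  unfold lis
  omega

/-- row E06: every colour not clean is the colour of a special edge, exactly one -/
theorem St.special (hS : G.St x φ) {c : K} (hc : c ∉ G.clean φ) :
    ∃ e ∈ G.S, φ e = some c ∧ ∀ e' ∈ G.S, φ e' = some c → e' = e := by
  rw [mem_clean] at hc
  push Not at hc
  obtain ⟨e, he, h⟩ := hc
  exact ⟨e, he, h, fun e' he' h' => hS.good.rainbow e' he' e he c h' h⟩

/-- row E06: numbers of colours; `|clean| = |K| - |S|` and `|mis x| = |K| - sdeg x` -/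
theorem St.card_clean (hS : G.St x φ) : (G.clean φ).card + G.S.card = Fintype.card K := by
  refine G.card_clean hS.good fun e he h => ?_
  exact (G.mem_ord.1 ((hS.none_iff e).1 h)).1 he

theorem St.card_mis_x (hS : G.St x φ) :
    (G.mis φ x).card + G.sdeg x = Fintype.card K ∧ Fintype.card (G.El x) + G.sdeg x = G.tdeg x :=
  ⟨e06_card_mis_x hS, e06_card_El⟩

/-- Row E06, Lemma A. Proof: otherwise colour the star by `f` (`asg_good`); the clean colours of `φ` are clean and missing at `x`,
the uncoloured edges are those omitted by `f`; apply `iterate`. -/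
theorem lemA (H : G.Hyp x K β) (hng : ¬ G.Goal x K β) (hS : G.St x φ) {f : G.El x → Option K}
    (hf : G.SM x φ f) : (G.clean φ).card + 1 ≤ (om f).card + β := by
  by_contra hlt
  have hlt' : (om f).card + β ≤ (G.clean φ).card := by omega
  apply hng
  set g : E → Option K := fun e => if h : e ∈ G.ord x then f ⟨e, h⟩ else none with hgdef
  have hg1 : ∀ e (h : e ∈ G.ord x), g e = f ⟨e, h⟩ := fun e h => by simp only [hgdef, dif_pos h]
  have hn : ∀ e ∈ G.ord x, φ e = none := fun e h => (hS.none_iff e).2 h
  have hgood : G.Good (asg φ (G.ord x) g) := by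
    refine G.asg_good hS.good x (fun e he => (G.mem_ord.1 he).2) hn ?_ ?_ ?_ ?_
    · intro e he e' he' c h1 h2
      rw [hg1 e he] at h1
      rw [hg1 e' he'] at h2
      exact congrArg Subtype.val (hf.pm.inj _ _ c h1 h2)
    · intro e he c h1
      rw [hg1 e he] at h1
      exact (mem_inter.1 (hf.pm.mem _ c h1)).2
    · intro e he c h1
      rw [hg1 e he] at h1
      exact (mem_inter.1 (hf.pm.mem _ c h1)).1
    · intro e he heS
      exact absurd heS (G.mem_ord.1 he).1
  refine G.iterate H.h1 hgood ?_ ?_
  · intro e he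
    by_contra h
    simp only [asg, if_neg h] at he
    exact h ((hS.none_iff e).1 he)
  · have h1 : (univ.filter fun e => asg φ (G.ord x) g e = none).card = (om f).card := by
      have h2 : (univ.filter fun e => asg φ (G.ord x) g e = none) =
          (om f).map (Function.Embedding.subtype _) := by
        ext e
        simp only [mem_filter, mem_univ, true_and, mem_map, om, Function.Embedding.subtype_apply,
          Subtype.exists, exists_and_right, exists_eq_right]
        constructor
        · intro h
          by_cases he : e ∈ G.ord x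
          · refine ⟨he, ?_⟩
            simp only [asg, if_pos he] at h
            rwa [hg1 e he] at h
          · simp only [asg, if_neg he] at h
            exact absurd ((hS.none_iff e).1 h) he
        · rintro ⟨he, h⟩
          simp only [asg, if_pos he]
          rwa [hg1 e he]
      rw [h2, card_map]
    rw [h1]
    refine hlt'.trans (Finset.card_le_card fun c hc => ?_)
    rw [mem_inter]
    constructor
    · rw [G.mem_mis_asg hn]
      refine ⟨hS.clean_mis hc, fun e he _ h => ?_⟩
      rw [hg1 e he] at h
      exact hf.spec _ c h hc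
    · rw [G.mem_clean_asg hn]
      exact ⟨hc, fun e he heS => absurd heS (G.mem_ord.1 he).1⟩

theorem e07_oth_oth {e : E} {v : V} (he : G.inc e v) : G.oth e (G.oth e v) = v := by
  have h := G.ne e
  unfold inc at he
  unfold oth
  by_cases h1 : G.a e = v
  · rw [if_pos h1, if_neg h]; exact h1
  · have h2 : G.b e = v := he.resolve_left h1
    rw [if_neg h1, if_pos rfl]; exact h2

theorem e07_base_sub {χ : E → Option K} {z : V} (e : E) (c : K) (h : G.base χ z e = some c) :
    χ e = some c := by
  unfold base at h
  split at h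
  · exact absurd h (by simp)
  · exact h

/-- in `base χ z` the colours not missing at `z` are colours of doubles, if there is an ordinary edge at `z` -/
theorem e07_card_blocked {χ : E → Option K} (hp : G.Proper χ) {z : V} {e0 : E} (he0 : e0 ∈ G.ord z) :
    (univ \ G.mis (G.base χ z) z).card ≤ G.ddeg z := by
  have key : ∀ δ ∈ univ \ G.mis (G.base χ z) z, ∃ e, e ∈ G.dbl ∧ G.inc e z ∧ χ e = some δ := by
    intro δ hδ
    rw [mem_sdiff, mem_mis] at hδ
    have h2 := hδ.2
    push Not at h2
    obtain ⟨e, hez, hec⟩ := h2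
    have hχ := e07_base_sub e δ hec
    have hnot : ¬ (e ∈ G.ord z ∨ e ∈ G.flex χ z) := by
      intro h
      have : G.base χ z e = none := by unfold base; rw [if_pos h]
      rw [this] at hec
      exact absurd hec (by simp)
    push Not at hnot
    have heS : e ∈ G.S := by
      by_contra hS
      exact hnot.1 ((G.mem_ord).2 ⟨hS, hez⟩)
    refine ⟨e, ?_, hez, hχ⟩
    unfold dbl
    rw [mem_filter]
    refine ⟨heS, fun v hv => ?_⟩
    rcases (G.inc_iff hez v).1 hv.1 with rfl | rfl
    · have := hv.2 e0 ((G.mem_ord).1 he0).2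
      rw [this] at he0
      exact ((G.mem_ord).1 he0).1 heS
    · apply hnot.2
      unfold flex
      rw [mem_filter]
      exact ⟨mem_univ _, heS, hez, hv, by rw [hχ]; simp⟩
  have : Nonempty E := ⟨e0⟩
  choose! F hF1 hF2 hF3 using key
  unfold ddeg
  refine card_le_card_of_injOn F (fun δ hδ => ?_) (fun δ hδ δ' hδ' h => ?_)
  · have hδ' := mem_coe.1 hδ
    rw [mem_coe, mem_filter]
    exact ⟨mem_univ _, hF1 δ hδ', hF2 δ hδ'⟩
  · have h1 := hF3 δ (mem_coe.1 hδ)
    have h2 := hF3 δ' (mem_coe.1 hδ')
    rw [h, h2] at h1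
    exact (Option.some.inj h1).symm

/-- number of edges at `v` without colour and number of missing colours -/
theorem e07_card_mis {χ : E → Option K} (hp : G.Proper χ) (v : V) :
    (G.mis χ v).card + G.tdeg v =
      Fintype.card K + (univ.filter fun e => G.inc e v ∧ χ e = none).card := by
  have h1 := G.card_mis hp v
  have h2 : G.tdeg v = (univ.filter fun e => G.inc e v ∧ χ e = none).card +
      (univ.filter fun e => G.inc e v ∧ χ e ≠ none).card := by
    unfold tdeg
    rw [← card_filter_add_card_filter_not (s := univ.filter fun e => G.inc e v)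
      (fun e => χ e = none)]
    congr 1
    · congr 1
      ext e; simp
    · congr 1
      ext e; simp
  omega

/-- the double counting in the counting condition -/
theorem e07_count {T : Finset E} {D : Finset K} (hD : D.card ≤ 1) {A B : E → Finset K}
    (hA : ∀ e ∈ T, 2 ≤ (A e).card) (hAB : ∀ e ∈ T, A e ⊆ B e ∪ (D.filter fun δ => δ ∈ A e))
    (hδ : ∀ δ ∈ D, (T.filter fun e => δ ∈ A e).card ≤ 1) :
    2 * T.card ≤ 1 + ∑ e ∈ T, (B e).card := by
  have h1 : 2 * T.card ≤ ∑ e ∈ T, (A e).card := by
    calc 2 * T.card = ∑ _e ∈ T, 2 := by rw [sum_const, smul_eq_mul, mul_comm]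
      _ ≤ _ := sum_le_sum hA
  have h2 : ∑ e ∈ T, (A e).card ≤ ∑ e ∈ T, (B e).card + ∑ e ∈ T, (D.filter fun δ => δ ∈ A e).card := by
    rw [← sum_add_distrib]
    exact sum_le_sum fun e he => (card_le_card (hAB e he)).trans (card_union_le _ _)
  have h3 : ∑ e ∈ T, (D.filter fun δ => δ ∈ A e).card = ∑ δ ∈ D, (T.filter fun e => δ ∈ A e).card := by
    simp only [card_filter]
    exact sum_comm
  have h4 : ∑ δ ∈ D, (T.filter fun e => δ ∈ A e).card ≤ 1 := by
    calc _ ≤ ∑ _δ ∈ D, 1 := sum_le_sum hδ
      _ = D.card := by simp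
      _ ≤ 1 := hD
  omega

/-- Row E07, Lemma J. Proof: suppose `ddeg (pos u) ≤ 1`. Let `χ` be `φ` with the star coloured by `f` and `z := ψ` (`asg_good`). The
uncoloured edges are `om f - z`, `mis χ x ∩ clean χ = clean φ - ψ`. Apply `insertion` at the centre `pos u`, `e0 = u` (whose other end is `x`),
clean colour `ψ` (missing at `pos u`), `R = ∅`, `Y = clean φ - ψ`. Counting condition: the colours `δ` not missing at `pos u` in
`χ0 = base χ (pos u)` are colours of doubles at `pos u` (a special edge at `pos u` is a double or has a private end, which is not `pos u`, because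
`u` is incident with `pos u`), so there is at most one such `δ`, and at most one `e ∈ T` has it; for `e ∈ T`, `e ≠ u`:
`|mis χ0 (oth e (pos u))| ≥ |K| + 1 - tdeg ≥ 2` (`hall`, `card_mis_ge`); for `e = u`: `|mis χ0 x \ Y| ≥ |mis χ x| - |clean φ| + 1
= |K| - sdeg x - (|ord x| - |om f|) - 1 - |clean φ| + 1 = |K| - tdeg x + |om f| - |clean φ| ≥ |K| - tdeg x + 1 - β ≥ 2` (`hfc`, `h2`).
Together `∑_{e ∈ T} ≥ 2|T| - 1`. The new colouring `χ'` has `|om f| - 2` uncoloured edges, all at `x`, and `x` misses
`|clean φ| - 1 = |om f| - 2 + β` clean colours; `iterate` gives `Goal`, contradiction. -/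
theorem lemJ (H : G.Hyp x K β) (hng : ¬ G.Goal x K β) (hS : G.St x φ) {f : G.El x → Option K}
    (hf : G.SM x φ f) (hfc : (om f).card + β = (G.clean φ).card + 1) {u z : G.El x} (huz : u ≠ z)
    (hu : f u = none) (hz : f z = none) {ψ : K} (hψ : ψ ∈ G.clean φ)
    (hψu : ψ ∈ G.mis φ (G.pos x u)) (hψz : ψ ∈ G.mis φ (G.pos x z)) :
    2 ≤ G.ddeg (G.pos x u) := by
  by_contra hcon
  push Not at hcon
  apply hng
  have hux : G.inc u.1 x := ((G.mem_ord).1 u.2).2
  have hzx : G.inc z.1 x := ((G.mem_ord).1 z.2).2
  -- the colouring of the star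
  obtain ⟨g, hgdef⟩ : ∃ g : G.El x → Option K, g = fun e => if e = z then some ψ else f e := ⟨_, rfl⟩
  obtain ⟨g', hg'def⟩ : ∃ g' : E → Option K,
      g' = fun e => if h : e ∈ G.ord x then g ⟨e, h⟩ else none := ⟨_, rfl⟩
  have hg' : ∀ e (h : e ∈ G.ord x), g' e = g ⟨e, h⟩ := by
    intro e h; rw [hg'def]; simp only [dif_pos h]
  have hgz : g z = some ψ := by rw [hgdef]; simp
  have hgne : ∀ e, e ≠ z → g e = f e := by
    intro e he; rw [hgdef]; simp [he]
  have hgspec : ∀ e c, g e = some c → (e = z ∧ c = ψ) ∨ (e ≠ z ∧ f e = some c ∧ c ∉ G.clean φ) := by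
    intro e c h
    by_cases he : e = z
    · left; rw [he, hgz] at h; exact ⟨he, (Option.some.inj h).symm⟩
    · right; rw [hgne e he] at h; exact ⟨he, h, hf.spec e c h⟩
  have hginj : ∀ e e' c, g e = some c → g e' = some c → e = e' := by
    intro e e' c h h'
    rcases hgspec e c h with ⟨h1, h2⟩ | ⟨h1, h2, h3⟩ <;>
    rcases hgspec e' c h' with ⟨h1', h2'⟩ | ⟨h1', h2', h3'⟩
    · rw [h1, h1']
    · rw [h2] at h3'; exact absurd hψ h3'
    · rw [h2'] at h3; exact absurd hψ h3
    · exact hf.pm.inj e e' c h2 h2'
  have hnone : ∀ e ∈ G.ord x, φ e = none := fun e he => (hS.none_iff e).2 he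
  obtain ⟨χ, hχdef⟩ : ∃ χ : E → Option K, χ = asg φ (G.ord x) g' := ⟨_, rfl⟩
  have hχo : ∀ e (h : e ∈ G.ord x), χ e = g ⟨e, h⟩ := by
    intro e h; rw [hχdef]; unfold asg; rw [if_pos h, hg' e h]
  have hχn : ∀ e, e ∉ G.ord x → χ e = φ e := by
    intro e h; rw [hχdef]; unfold asg; rw [if_neg h]
  have hχ : G.Good χ := by
    rw [hχdef]
    refine G.asg_good hS.good x (fun e he => ((G.mem_ord).1 he).2) hnone ?_ ?_ ?_ ?_
    · intro e he e' he' c h h'
      rw [hg' e he] at h; rw [hg' e' he'] at h'
      exact congrArg Subtype.val (hginj _ _ c h h')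
    · intro e he c h
      rw [hg' e he] at h
      rcases hgspec _ c h with ⟨_, h2⟩ | ⟨_, h2, _⟩
      · rw [h2]; exact hS.clean_mis hψ
      · exact (mem_inter.1 (hf.pm.mem _ c h2)).2
    · intro e he c h
      rw [hg' e he] at h
      rcases hgspec _ c h with ⟨h1, h2⟩ | ⟨_, h2, _⟩
      · rw [h2]
        have : e = z.1 := congrArg Subtype.val h1
        rw [this]; exact hψz
      · exact (mem_inter.1 (hf.pm.mem _ c h2)).1
    · intro e he hs
      exact absurd hs ((G.mem_ord).1 he).1
  have hχnone : ∀ e, χ e = none ↔ ∃ h : e ∈ G.ord x, (⟨e, h⟩ : G.El x) ≠ z ∧ f ⟨e, h⟩ = none := by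
    intro e
    by_cases h : e ∈ G.ord x
    · rw [hχo e h]
      constructor
      · intro h0
        refine ⟨h, ?_, ?_⟩
        · intro h1; rw [h1, hgz] at h0; exact absurd h0 (by simp)
        · by_cases h1 : (⟨e, h⟩ : G.El x) = z
          · rw [h1, hgz] at h0; exact absurd h0 (by simp)
          · rw [hgne _ h1] at h0; exact h0
      · rintro ⟨_, h1, h2⟩
        rw [hgne _ h1]; exact h2
    · rw [hχn e h]
      constructor
      · intro h0; exact absurd ((hS.none_iff e).1 h0) h
      · rintro ⟨h', _⟩; exact absurd h' h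
  -- the centre
  obtain ⟨p, hpdef⟩ : ∃ p : V, p = G.pos x u := ⟨_, rfl⟩
  rw [← hpdef] at hcon hψu
  have hp' : G.oth u.1 x = p := hpdef.symm
  have hup : G.inc u.1 p := by rw [← hp']; exact G.inc_oth hux
  have hothp : G.oth u.1 p = x := by rw [← hp']; exact e07_oth_oth hux
  have hpx : p ≠ x := by rw [← hp']; exact G.oth_ne hux
  have huS : u.1 ∉ G.S := ((G.mem_ord).1 u.2).1
  have hup' : u.1 ∈ G.ord p := (G.mem_ord).2 ⟨huS, hup⟩
  have hun : χ u.1 = none := (hχnone u.1).2 ⟨u.2, huz, hu⟩
  have hatp : ∀ e (h : e ∈ G.ord x), G.inc e p → e = u.1 := by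
    intro e h hi
    have hex : G.inc e x := ((G.mem_ord).1 h).2
    rcases (G.inc_iff hex p).1 hi with h1 | h1
    · exact absurd h1 hpx
    · exact G.oth_inj h u.2 (by rw [← h1, hp'])
  have hcl : ∀ c, c ∈ G.clean χ ↔ c ∈ G.clean φ := by
    intro c
    rw [hχdef, G.mem_clean_asg hnone]
    exact ⟨fun h => h.1, fun h => ⟨h, fun e he hs => absurd hs ((G.mem_ord).1 he).1⟩⟩
  have hψχ : ψ ∈ G.mis χ p := by
    rw [hχdef, G.mem_mis_asg hnone]
    refine ⟨hψu, fun e he hi => ?_⟩
    have h1 := hatp e he hi
    subst h1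
    rw [hg' u.1 he]
    have : g ⟨u.1, he⟩ = none := by
      have : (⟨u.1, he⟩ : G.El x) = u := rfl
      rw [this, hgne u huz, hu]
    rw [this]; simp
  have hYx : ∀ c ∈ (G.clean φ).erase ψ, c ∈ G.mis χ x ∧ c ∈ G.clean χ ∧ c ≠ ψ := by
    intro c hc
    rw [mem_erase] at hc
    refine ⟨?_, (hcl c).2 hc.2, hc.1⟩
    rw [hχdef, G.mem_mis_asg hnone]
    refine ⟨hS.clean_mis hc.2, fun e he _ h => ?_⟩
    rw [hg' e he] at h
    rcases hgspec _ c h with ⟨_, h2⟩ | ⟨_, _, h3⟩
    · exact hc.1 h2
    · exact h3 hc.2
  -- numbers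
  have hune : u ∈ om f := by unfold om; simp [hu]
  have hzne : z ∈ om f := by unfold om; simp [hz]
  have hcard_om : 2 ≤ (om f).card := by
    rw [← card_pair huz]
    exact card_le_card (by intro e he; rw [mem_insert, mem_singleton] at he; rcases he with rfl | rfl <;> assumption)
  have hcx : (univ.filter fun e => G.inc e x ∧ χ e = none).card + 1 = (om f).card := by
    have h1 : (univ.filter fun e => G.inc e x ∧ χ e = none) =
        ((om f).erase z).map (Function.Embedding.subtype _) := by
      ext e
      simp only [mem_filter, mem_univ, true_and, mem_map, mem_erase, Function.Embedding.coe_subtype]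
      constructor
      · rintro ⟨_, h⟩
        obtain ⟨h1, h2, h3⟩ := (hχnone e).1 h
        exact ⟨⟨e, h1⟩, ⟨h2, by unfold om; simp [h3]⟩, rfl⟩
      · rintro ⟨s, ⟨h2, h3⟩, rfl⟩
        refine ⟨((G.mem_ord).1 s.2).2, (hχnone s.1).2 ⟨s.2, h2, ?_⟩⟩
        unfold om at h3; simpa using h3
    rw [h1, card_map, card_erase_of_mem hzne]
    omega
  have hmx := e07_card_mis hχ.proper x
  have hYcard : ((G.clean φ).erase ψ).card + 1 = (G.clean φ).card := by
    rw [card_erase_of_mem hψ]
    have := card_pos.2 ⟨ψ, hψ⟩
    omega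
  -- insertion
  have hbase : G.Good (G.base χ p) := hχ.mono (G := G) (fun e c h => e07_base_sub e c h)
  obtain ⟨χ', hχ'good, hχ'none, _, Y', hY'card, hY'⟩ := G.insertion hχ hup' hun hψχ
    ((hcl ψ).2 hψ) ∅ ((G.clean φ).erase ψ) (by simp) (by rw [hothp]; exact hYx)
    (by
      intro T hT h0T hTc hδ
      have hD : (univ \ G.mis (G.base χ p) p).card ≤ 1 :=
        (e07_card_blocked hχ.proper hup').trans (by omega)
      refine e07_count hD
        (A := fun e => G.mis (G.base χ p) (G.oth e p) \ (if e = u.1 then (G.clean φ).erase ψ else ∅))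
        ?_ ?_ ?_
      · intro e he
        by_cases heu : e = u.1
        · rw [if_pos heu, heu, hothp]
          have hsub : G.mis χ x \ (G.clean φ).erase ψ ⊆
              G.mis (G.base χ p) x \ (G.clean φ).erase ψ :=
            sdiff_subset_sdiff (G.mis_mono (fun e c h => e07_base_sub e c h) x) (Subset.refl _)
          refine le_trans ?_ (card_le_card hsub)
          rw [card_sdiff_of_subset (fun c hc => (hYx c hc).1)]
          have h2 := H.h2
          have hle : ((G.clean φ).erase ψ).card ≤ (G.mis χ x).card :=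
            card_le_card (fun c hc => (hYx c hc).1)
          omega
        · rw [if_neg heu, sdiff_empty]
          have heo := (G.mem_ord).1 (hT he)
          have hn : G.base χ p e = none := by
            unfold base; rw [if_pos (Or.inl (hT he))]
          have h1 := G.card_mis_ge hbase (G.inc_oth heo.2) hn
          have h2 := H.hall (G.oth e p)
          omega
      · intro e he c hc
        rw [mem_sdiff] at hc
        rw [mem_union, mem_sdiff, mem_inter, mem_filter, mem_sdiff]
        by_cases hcp : c ∈ G.mis (G.base χ p) p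
        · left; exact ⟨⟨hc.1, hcp⟩, hc.2⟩
        · right; exact ⟨⟨mem_univ _, hcp⟩, mem_sdiff.2 hc⟩
      · intro δ hδD
        rw [mem_sdiff] at hδD
        refine le_trans (card_le_card ?_) (hδ δ hδD.2)
        intro e he
        rw [mem_filter] at he ⊢
        exact ⟨he.1, (mem_sdiff.1 he.2).1⟩)
  rw [hothp] at hY'
  -- iteration
  refine G.iterate H.h1 hχ'good ?_ ?_
  · intro e he
    obtain ⟨h1, _⟩ := (hχnone e).1 ((hχ'none e).1 he).1
    exact h1
  · have h1 : (univ.filter fun e => χ' e = none) =
        (univ.filter fun e => G.inc e x ∧ χ e = none).erase u.1 := by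
      ext e
      simp only [mem_filter, mem_univ, true_and, mem_erase]
      rw [hχ'none e]
      constructor
      · rintro ⟨h1, h2⟩
        obtain ⟨h3, _⟩ := (hχnone e).1 h1
        exact ⟨h2, ((G.mem_ord).1 h3).2, h1⟩
      · rintro ⟨h1, _, h2⟩
        exact ⟨h2, h1⟩
    rw [h1, card_erase_of_mem (by simp only [mem_filter, mem_univ, true_and]; exact ⟨hux, hun⟩)]
    have h2 : Y' ⊆ G.mis χ' x ∩ G.clean χ' := fun c hc => mem_inter.2 (hY' c hc)
    have h3 := card_le_card h2
    omega

/-- Row E08: a matching survives a swap of `C`, if `x ∉ C` and the owner of the special colour `l` is not in `C` -/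
theorem SM.swp {f : G.El x → Option K} (hf : G.SM x φ f) (hS : G.St x φ) {l ψ : K}
    (hψ : ψ ∈ G.clean φ) {C : Finset V} (hC : G.Closed φ l ψ C) (hx : x ∉ C)
    (hl : ∀ e ∈ G.S, φ e = some l → G.a e ∉ C) (ho : ∀ e, f e = some l → G.pos x e ∉ C) :
    G.SM x (G.swp φ l ψ C) f := by
  refine ⟨⟨fun e c hc => ?_, hf.pm.inj⟩, fun e c hc => ?_⟩
  · have h1 := Finset.mem_inter.mp (hf.pm.mem e c hc)
    refine Finset.mem_inter.mpr ⟨?_, ?_⟩
    · by_cases hp : G.pos x e ∈ C
      · rw [mis_swp_mem G hC hp]
        refine Finset.mem_image.mpr ⟨c, h1.1, ?_⟩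
        apply Equiv.swap_apply_of_ne_of_ne
        · rintro rfl
          exact ho e hc hp
        · rintro rfl
          exact hf.spec e _ hc hψ
      · rw [mis_swp_not_mem G hC hp]
        exact h1.1
    · rw [mis_swp_not_mem G hC hx]
      exact h1.2
  · rw [clean_swp G hψ hl]
    exact hf.spec e c hc

theorem St.swp (hS : G.St x φ) {l ψ : K} (hψ : ψ ∈ G.clean φ) {C : Finset V}
    (hC : G.Closed φ l ψ C) : G.St x (G.swp φ l ψ C) :=
  ⟨swp_good G hS.good hC hψ, fun e => by rw [swp_none G e]; exact hS.none_iff e⟩

/-- Row E08, claim 3: `f` is a matching with the critical number of omitted elements, `f t = none`, `ψ` clean and missing at `pos t`,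
`c` special, missing at `x`, not used by `f`: then the special edge of colour `c` is in the `(c,ψ)`-component of `pos t`.
Proof: otherwise swap this component `C` (`x ∉ C` because `x` misses `c` and `ψ`): now `pos t` misses `c`, and `f` with `t := c` contradicts `lemA`. -/
theorem claim3 (H : G.Hyp x K β) (hng : ¬ G.Goal x K β) (hS : G.St x φ) {f : G.El x → Option K}
    (hf : G.SM x φ f) (hfc : (om f).card + β = (G.clean φ).card + 1) {t : G.El x} (ht : f t = none)
    {ψ : K} (hψ : ψ ∈ G.clean φ) (hψt : ψ ∈ G.mis φ (G.pos x t)) {c : K} (hc : c ∉ G.clean φ)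
    (hcx : c ∈ G.mis φ x) (hcf : ∀ e, f e ≠ some c) :
    ∀ e ∈ G.S, φ e = some c → G.a e ∈ G.comp φ c ψ (G.pos x t) := by
  intro e heS hec
  by_contra hcon
  have hCl := comp_closed G (φ := φ) c ψ (G.pos x t)
  have hxC : x ∉ G.comp φ c ψ (G.pos x t) :=
    not_mem_comp G hcx (hS.clean_mis hψ) (pos_ne t).symm
  have hl : ∀ e' ∈ G.S, φ e' = some c → G.a e' ∉ G.comp φ c ψ (G.pos x t) := by
    intro e' he'S he'c
    rw [hS.good.rainbow e' he'S e heS c he'c hec]
    exact hcon
  have hSM := hf.swp hS hψ hCl hxC hl (fun e' he' => absurd he' (hcf e'))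
  have hSt := hS.swp hψ hCl
  have hcl := clean_swp G hψ hl
  have hSM' : G.SM x (G.swp φ c ψ (G.comp φ c ψ (G.pos x t))) (Function.update f t (some c)) := by
    refine ⟨⟨fun e' c' he' => ?_, fun a b c' ha hb => ?_⟩, fun e' c' he' => ?_⟩
    · by_cases het : e' = t
      · subst het
        rw [Function.update_self] at he'
        have hcc : c = c' := Option.some.inj he'
        subst hcc
        refine Finset.mem_inter.mpr ⟨?_, ?_⟩
        · rw [mis_swp_mem G hCl (comp_self G c ψ _)]
          exact Finset.mem_image.mpr ⟨ψ, hψt, Equiv.swap_apply_right c ψ⟩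
        · rw [mis_swp_not_mem G hCl hxC]
          exact hcx
      · rw [Function.update_of_ne het] at he'
        exact hSM.pm.mem e' c' he'
    · by_cases hat : a = t
      · by_cases hbt : b = t
        · rw [hat, hbt]
        · subst hat
          rw [Function.update_self] at ha
          rw [Function.update_of_ne hbt] at hb
          have hcc : c = c' := Option.some.inj ha
          subst hcc
          exact absurd hb (hcf b)
      · by_cases hbt : b = t
        · subst hbt
          rw [Function.update_self] at hb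
          rw [Function.update_of_ne hat] at ha
          have hcc : c = c' := Option.some.inj hb
          subst hcc
          exact absurd ha (hcf a)
        · rw [Function.update_of_ne hat] at ha
          rw [Function.update_of_ne hbt] at hb
          exact hf.pm.inj a b c' ha hb
    · by_cases het : e' = t
      · subst het
        rw [Function.update_self] at he'
        have hcc : c = c' := Option.some.inj he'
        subst hcc
        rw [hcl]; exact hc
      · rw [Function.update_of_ne het] at he'
        exact hSM.spec e' c' he'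
  have hA := lemA H hng hSt hSM'
  rw [hcl] at hA
  have hom : (om (Function.update f t (some c))).card + 1 ≤ (om f).card := by
    have hsub : insert t (om (Function.update f t (some c))) ⊆ om f := by
      intro e' he'
      rw [Finset.mem_insert] at he'
      rcases he' with rfl | he'
      · exact Finset.mem_filter.mpr ⟨Finset.mem_univ _, ht⟩
      · have h2 := (Finset.mem_filter.mp he').2
        by_cases het : e' = t
        · subst het
          rw [Function.update_self] at h2
          exact absurd h2 (by simp)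
        · rw [Function.update_of_ne het] at h2
          exact Finset.mem_filter.mpr ⟨Finset.mem_univ _, h2⟩
    have hnot : t ∉ om (Function.update f t (some c)) := by
      intro h
      have h2 := (Finset.mem_filter.mp h).2
      rw [Function.update_self] at h2
      exact absurd h2 (by simp)
    have := Finset.card_le_card hsub
    rwa [Finset.card_insert_of_notMem hnot] at this
  omega

/-- Row E08: there is a special colour missing at `x` and not used by `f`. Proof: the number of special colours missing at `x` is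
`|K| - |clean| - sdeg x`, `f` uses `|ord x| - |om f|` of them, the difference is `|K| - tdeg x - |clean| + |om f| ≥ 1`. -/
theorem free_colour (H : G.Hyp x K β) (hS : G.St x φ) {f : G.El x → Option K}
    (hf : G.SM x φ f) (hfc : (om f).card + β = (G.clean φ).card + 1) :
    ∃ c, c ∉ G.clean φ ∧ c ∈ G.mis φ x ∧ ∀ e, f e ≠ some c := by
  by_contra hcon
  push Not at hcon
  have hsubc : G.clean φ ⊆ G.mis φ x := fun c hc => hS.clean_mis hc
  have h1 : (G.mis φ x \ G.clean φ).card + (G.clean φ).card = (G.mis φ x).card :=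
    Finset.card_sdiff_add_card_eq_card hsubc
  have h2 : (G.mis φ x \ G.clean φ).card ≤ (univ.filter fun e => f e ≠ none).card := by
    have hsub : (G.mis φ x \ G.clean φ).image some ⊆
        (univ.filter fun e => f e ≠ none).image f := by
      intro o ho
      obtain ⟨c, hc, rfl⟩ := Finset.mem_image.mp ho
      have hc' := Finset.mem_sdiff.mp hc
      obtain ⟨e, he⟩ := hcon c hc'.2 hc'.1
      exact Finset.mem_image.mpr ⟨e, Finset.mem_filter.mpr
        ⟨Finset.mem_univ _, by rw [he]; simp⟩, he⟩
    have h3 := Finset.card_le_card hsub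
    rw [Finset.card_image_of_injective _ (Option.some_injective K)] at h3
    exact le_trans h3 Finset.card_image_le
  have h3 : (om f).card + (univ.filter fun e => f e ≠ none).card = Fintype.card (G.El x) :=
    Finset.card_filter_add_card_filter_not (s := (univ : Finset (G.El x))) (fun e => f e = none)
  obtain ⟨h4, h5⟩ := hS.card_mis_x
  have h6 := H.h2
  omega

end MG

end MP405E
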