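import Mathlib
import Pool.Agent.Lib.MP_405d56_lc.EStar

/-! # States with tokens; swaps; extremal states (rows E09, E10, E11) -/

set_option autoImplicit false

namespace MP405E

open Finset Classical

variable {V E K : Type} [Fintype V] [Fintype E] [Fintype K]

namespace MG

variable (G : MG V E) (x : V) (β : ℕ)

/-- the special part of the token lists -/
noncomputable def LL (φ : E → Option K) (L : G.El x → Finset K) (e : G.El x) : Finset K :=
  L e \ G.clean φ

/-- a state: a colouring `φ` of all edges except the ordinary ones at `x`, a two-element token list for every element, such that there is a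
matching into the special tokens with the critical number of omitted elements -/
structure State (φ : E → Option K) (L : G.El x → Finset K) : Prop where
  st : G.St x φ
  sub : ∀ e, L e ⊆ G.lis x φ e
  two : ∀ e, (L e).card = 2
  crit : ∃ f, PM (G.LL x φ L) f ∧ (om f).card + β ≤ (G.clean φ).card + 1

/-- the omittable elements -/
noncomputable def T (φ : E → Option K) (L : G.El x → Finset K) : Finset (G.El x) :=
  TT (G.LL x φ L)

/-- the elements of `T` with token `c` -/
noncomputable def X (φ : E → Option K) (L : G.El x → Finset K) (c : K) : Finset (G.El x) :=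
  (G.T x φ L).filter fun t => c ∈ L t

/-- number of clean tokens on `T` -/
noncomputable def P (φ : E → Option K) (L : G.El x → Finset K) : ℕ :=
  ∑ t ∈ G.T x φ L, (L t ∩ G.clean φ).card

/-- extremal state: `|T|` minimal, then `P` maximal -/
structure Ext (φ : E → Option K) (L : G.El x → Finset K) : Prop where
  state : G.State x β φ L
  ext : ∀ (φ' : E → Option K) (L' : G.El x → Finset K), G.State x β φ' L' → (G.T x φ' L').card ≤ (G.T x φ L).card →
    (G.T x φ' L').card = (G.T x φ L).card ∧ G.P x φ' L' ≤ G.P x φ L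

variable {G x β} {φ : E → Option K} {L : G.El x → Finset K}

/-- an optimal matching of a state is an `SM` with the critical number of omitted elements. Row E09. -/
theorem State.opt (H : G.Hyp x K β) (hng : ¬ G.Goal x K β) (hS : G.State x β φ L)
    {f : G.El x → Option K} (hf : IsOpt (G.LL x φ L) f) :
    G.SM x φ f ∧ (om f).card + β = (G.clean φ).card + 1 := by
  have hSM : G.SM x φ f := by
    refine ⟨⟨fun a c hac => ?_, hf.1.inj⟩, fun e c hec => ?_⟩
    · exact hS.sub a (mem_sdiff.1 (hf.1.mem a c hac)).1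
    · exact (mem_sdiff.1 (hf.1.mem e c hec)).2
  obtain ⟨f0, h0, h1⟩ := hS.crit
  have h2 := hf.2 f0 h0
  have h3 := lemA H hng hS.st hSM
  exact ⟨hSM, by omega⟩

/-- conversely a matching into the special tokens with the critical number is optimal. Row E09. -/
theorem State.opt_of (H : G.Hyp x K β) (hng : ¬ G.Goal x K β) (hS : G.State x β φ L)
    {f : G.El x → Option K} (hf : PM (G.LL x φ L) f)
    (hfc : (om f).card + β ≤ (G.clean φ).card + 1) : IsOpt (G.LL x φ L) f := by
  obtain ⟨g, hg⟩ := exists_opt (G.LL x φ L)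
  have h1 := (hS.opt H hng hg).2
  refine ⟨hf, fun h hh => ?_⟩
  have h2 := hg.2 h hh
  omega

/-- Row E09: there is a state. Proof: `φ = χ` with the ordinary edges at `x` uncoloured; for an element `e` let `L e` be a two-element
subset of `lis e` containing the colour `χ e` if `χ e ≠ none` (`St.two_le_lis`; `χ e ∈ lis e` because `χ` is proper). `f e = χ e` if this is a special
colour of `φ` and `none` otherwise. The omitted elements are those not coloured by `χ` and those of a clean colour: at most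
`#uncoloured + |clean φ|`. -/
theorem state_exists (H : G.Hyp x K β) {χ : E → Option K} (hg : G.Good χ)
    (hu : ∀ e, χ e = none → e ∈ G.ord x) (hr : (univ.filter fun e => χ e = none).card + β ≤ 1) :
    ∃ φ : E → Option K, ∃ L, G.State x β φ L := by
  set φ : E → Option K := fun e => if e ∈ G.ord x then none else χ e with hφ
  have hφχ : ∀ e c, φ e = some c → e ∉ G.ord x ∧ χ e = some c := by
    intro e c h
    by_cases he : e ∈ G.ord x
    · simp [hφ, he] at h
    · simp only [hφ, he, if_false] at h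
      exact ⟨he, h⟩
  have hst : G.St x φ := by
    refine ⟨Good.mono G hg (fun e c h => (hφχ e c h).2), fun e => ?_⟩
    constructor
    · intro h
      by_contra he
      simp only [hφ, he, if_false] at h
      exact he (hu e h)
    · intro he
      simp [hφ, he]
  have hordinc : ∀ e : G.El x, G.inc e.1 x := by
    intro e
    exact (mem_filter.1 e.2).2.2
  have hlisχ : ∀ (e : G.El x) c, χ e.1 = some c → c ∈ G.lis x φ e := by
    intro e c hc
    unfold lis
    rw [mem_inter]
    have key : ∀ v, G.inc e.1 v → c ∈ G.mis φ v := by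
      intro v hv
      unfold mis
      rw [mem_filter]
      refine ⟨mem_univ _, fun e' he' h => ?_⟩
      obtain ⟨h1, h2⟩ := hφχ e' c h
      have := hg.proper e' e.1 v c he' hv h2 hc
      exact h1 (this ▸ e.2)
    exact ⟨key _ (G.inc_oth (hordinc e)), key _ (hordinc e)⟩
  have hL : ∀ e : G.El x, ∃ u : Finset K, (χ e.1).toFinset ⊆ u ∧ u ⊆ G.lis x φ e ∧ u.card = 2 := by
    intro e
    refine exists_subsuperset_card_eq ?_ ?_ (hst.two_le_lis H e)
    · intro c hc
      rw [Option.mem_toFinset] at hc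
      exact hlisχ e c hc
    · cases χ e.1 <;> simp
  choose L hL1 hL2 hL3 using hL
  set f : G.El x → Option K := fun e => if ∃ c, χ e.1 = some c ∧ c ∉ G.clean φ then χ e.1 else none
    with hf
  have hfsome : ∀ a c, f a = some c → χ a.1 = some c ∧ c ∉ G.clean φ := by
    intro a c h
    by_cases h1 : ∃ c, χ a.1 = some c ∧ c ∉ G.clean φ
    · simp only [hf, h1, if_true] at h
      obtain ⟨d, hd1, hd2⟩ := h1
      rw [h] at hd1
      simp only [Option.some.injEq] at hd1
      exact ⟨h, hd1 ▸ hd2⟩
    · simp [hf, h1] at h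
  refine ⟨φ, L, hst, hL2, hL3, f, ⟨fun a c h => ?_, fun a b c h1 h2 => ?_⟩, ?_⟩
  · obtain ⟨h1, h2⟩ := hfsome a c h
    unfold LL
    exact mem_sdiff.2 ⟨hL1 a (Option.mem_toFinset.2 h1), h2⟩
  · exact Subtype.ext (hg.proper a.1 b.1 x c (hordinc a) (hordinc b) (hfsome a c h1).1
      (hfsome b c h2).1)
  · have hsub : om f ⊆ (univ.filter fun a : G.El x => χ a.1 = none) ∪
        (univ.filter fun a : G.El x => ∃ c ∈ G.clean φ, χ a.1 = some c) := by
      intro a ha
      have ha' : f a = none := (mem_filter.1 ha).2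
      rw [mem_union, mem_filter, mem_filter]
      by_cases h1 : χ a.1 = none
      · exact Or.inl ⟨mem_univ _, h1⟩
      · right
        refine ⟨mem_univ _, ?_⟩
        obtain ⟨c, hc⟩ := Option.ne_none_iff_exists'.1 h1
        by_contra hno
        push Not at hno
        have : c ∉ G.clean φ := fun h => hno c h hc
        have h2 : ∃ c, χ a.1 = some c ∧ c ∉ G.clean φ := ⟨c, hc, this⟩
        simp only [hf, h2, if_true] at ha'
        exact h1 ha'
    have h1 : (univ.filter fun a : G.El x => χ a.1 = none).card ≤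
        (univ.filter fun e => χ e = none).card := by
      refine card_le_card_of_injOn (fun a => a.1) ?_ ?_
      · intro a ha
        exact mem_coe.2 (mem_filter.2 ⟨mem_univ _, (mem_filter.1 (mem_coe.1 ha)).2⟩)
      · intro a _ b _ h
        exact Subtype.ext h
    have h2 : (univ.filter fun a : G.El x => ∃ c ∈ G.clean φ, χ a.1 = some c).card ≤
        (G.clean φ).card := by
      refine (card_le_card_of_injOn (t := (G.clean φ).image some) (fun a => χ a.1) ?_ ?_).trans
        card_image_le
      · intro a ha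
        obtain ⟨c, hc, hac⟩ := (mem_filter.1 (mem_coe.1 ha)).2
        exact mem_coe.2 (mem_image.2 ⟨c, hc, hac.symm⟩)
      · intro a ha b _ h
        obtain ⟨c, hc, hac⟩ := (mem_filter.1 (mem_coe.1 ha)).2
        have h' : χ a.1 = χ b.1 := h
        exact Subtype.ext (hg.proper a.1 b.1 x c (hordinc a) (hordinc b) hac (h' ▸ hac))
    have h3 := card_le_card hsub
    have h4 := card_union_le (univ.filter fun a : G.El x => χ a.1 = none)
      (univ.filter fun a : G.El x => ∃ c ∈ G.clean φ, χ a.1 = some c)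
    omega

/-- Row E09. Proof: minimise `(2 * card E + 1) * |T| + (2 * card E - P)`, note `P ≤ 2 * card E`. -/
theorem ext_exists (h : ∃ φ : E → Option K, ∃ L, G.State x β φ L) :
    ∃ φ : E → Option K, ∃ L, G.Ext x β φ L := by
  set N := Fintype.card (G.El x) with hN
  have hP : ∀ (φ : E → Option K) L, G.State x β φ L → G.P x φ L ≤ 2 * N := by
    intro φ L hS
    unfold P
    calc ∑ t ∈ G.T x φ L, (L t ∩ G.clean φ).card ≤ ∑ t ∈ G.T x φ L, 2 :=
          sum_le_sum (fun t _ => (card_le_card inter_subset_left).trans (hS.two t).le)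
      _ = 2 * (G.T x φ L).card := by rw [sum_const, smul_eq_mul, mul_comm]
      _ ≤ 2 * N := Nat.mul_le_mul_left _ (card_le_univ _)
  have hex : ∃ n, ∃ φ : E → Option K, ∃ L, G.State x β φ L ∧
      (2 * N + 1) * (G.T x φ L).card + (2 * N - G.P x φ L) = n := by
    obtain ⟨φ, L, hS⟩ := h
    exact ⟨_, φ, L, hS, rfl⟩
  obtain ⟨φ, L, hS, hn⟩ := Nat.find_spec hex
  refine ⟨φ, L, hS, fun φ' L' hS' hle => ?_⟩
  have hmin : Nat.find hex ≤ (2 * N + 1) * (G.T x φ' L').card + (2 * N - G.P x φ' L') :=
    Nat.find_min' hex ⟨φ', L', hS', rfl⟩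
  have h1 := hP φ L hS
  have h2 := hP φ' L' hS'
  have h3 : (G.T x φ' L').card = (G.T x φ L).card := by
    by_contra hne
    have hlt : (G.T x φ' L').card + 1 ≤ (G.T x φ L).card := by omega
    have := Nat.mul_le_mul_left (2 * N + 1) hlt
    rw [Nat.mul_add] at this
    omega
  refine ⟨h3, ?_⟩
  rw [h3] at hmin
  omega

/-- the token lists after a swap in `C` -/
noncomputable def swL (G : MG V E) (x : V) (L : G.El x → Finset K) (l ψ : K) (C : Finset V) :
    G.El x → Finset K :=
  fun e => if G.pos x e ∈ C then (L e).image (Equiv.swap l ψ) else L e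

theorem e10_mem_swL {l ψ c : K} {C : Finset V} {e : G.El x} (hc : c ∈ L e) (hcψ : c ≠ ψ)
    (hcl : c = l → G.pos x e ∉ C) : c ∈ G.swL x L l ψ C e := by
  unfold swL
  by_cases he : G.pos x e ∈ C
  · rw [if_pos he]
    have h1 : c ≠ l := fun h => hcl h he
    exact mem_image.2 ⟨c, hc, Equiv.swap_apply_of_ne_of_ne h1 hcψ⟩
  · rw [if_neg he]; exact hc

theorem e10_swL_mem {l ψ c : K} {C : Finset V} {e : G.El x} (hc : c ∈ G.swL x L l ψ C e)
    (hcψ : c ≠ ψ) (hψ : G.pos x e ∈ C → ψ ∉ L e) : c ∈ L e := by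
  unfold swL at hc
  by_cases he : G.pos x e ∈ C
  · rw [if_pos he] at hc
    obtain ⟨d, hd, hdc⟩ := mem_image.1 hc
    have h2 : d ≠ ψ := fun h => hψ he (h ▸ hd)
    by_cases h1 : d = l
    · rw [h1, Equiv.swap_apply_left] at hdc
      exact absurd hdc.symm hcψ
    · rw [Equiv.swap_apply_of_ne_of_ne h1 h2] at hdc
      exact hdc ▸ hd
  · rw [if_neg he] at hc; exact hc

/-- Row E10: swaps act on states. `f` is optimal and the owner of `l` is not in `C`; no special edge of colour `l` in `C`; `x ∉ C`; `x` misses `l`.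
Then the swapped state is a state, `f` is optimal for it. -/
theorem State.swap (H : G.Hyp x K β) (hng : ¬ G.Goal x K β) (hS : G.State x β φ L) {l ψ : K}
    (hlx : l ∈ G.mis φ x) (hψ : ψ ∈ G.clean φ) {C : Finset V} (hC : G.Closed φ l ψ C) (hx : x ∉ C)
    (hl : ∀ e ∈ G.S, φ e = some l → G.a e ∉ C) {f : G.El x → Option K}
    (hf : IsOpt (G.LL x φ L) f) (ho : ∀ e, f e = some l → G.pos x e ∉ C) :
    G.State x β (G.swp φ l ψ C) (G.swL x L l ψ C) ∧
      IsOpt (G.LL x (G.swp φ l ψ C) (G.swL x L l ψ C)) f := by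
  have hψx : ψ ∈ G.mis φ x := hS.st.clean_mis hψ
  have hcl : G.clean (G.swp φ l ψ C) = G.clean φ := G.clean_swp hψ hl
  have hmx : G.mis (G.swp φ l ψ C) x = G.mis φ x := G.mis_swp_not_mem hC hx
  have hpm : PM (G.LL x (G.swp φ l ψ C) (G.swL x L l ψ C)) f := by
    refine ⟨fun a c hac => ?_, hf.1.inj⟩
    have h1 := hf.1.mem a c hac
    unfold LL at h1 ⊢
    rw [hcl]
    rw [mem_sdiff] at h1 ⊢
    refine ⟨?_, h1.2⟩
    exact e10_mem_swL h1.1 (fun h => h1.2 (h ▸ hψ)) (fun h => ho a (h ▸ hac))
  have hopt := (hS.opt H hng hf).2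
  have hst : G.State x β (G.swp φ l ψ C) (G.swL x L l ψ C) := by
    refine ⟨hS.st.swp hψ hC, fun e => ?_, fun e => ?_, ⟨f, hpm, by rw [hcl]; omega⟩⟩
    · unfold lis swL
      rw [hmx]
      by_cases he : G.pos x e ∈ C
      · rw [if_pos he, G.mis_swp_mem hC he]
        intro c hc
        obtain ⟨d, hd, rfl⟩ := mem_image.1 hc
        have hd' := hS.sub e hd
        unfold lis at hd'
        rw [mem_inter] at hd' ⊢
        refine ⟨mem_image_of_mem _ hd'.1, ?_⟩
        by_cases h1 : d = l
        · rw [h1, Equiv.swap_apply_left]; exact hψx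
        · by_cases h2 : d = ψ
          · rw [h2, Equiv.swap_apply_right]; exact hlx
          · rw [Equiv.swap_apply_of_ne_of_ne h1 h2]; exact hd'.2
      · rw [if_neg he, G.mis_swp_not_mem hC he]
        exact hS.sub e
    · unfold swL
      by_cases he : G.pos x e ∈ C
      · rw [if_pos he, card_image_of_injective _ (Equiv.injective _)]
        exact hS.two e
      · rw [if_neg he]; exact hS.two e
  exact ⟨hst, hst.opt_of H hng hpm (by rw [hcl]; omega)⟩

/-- Row E10: if moreover `l ≠ ψ` and no element of `T` with token `ψ` is in `C`, then the new `T` is contained in the old one. Proof: `dm_closed`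
with `R = T`: the new special lists of elements of `T` are contained in the old ones. -/
theorem State.swap_T (H : G.Hyp x K β) (hng : ¬ G.Goal x K β) (hS : G.State x β φ L) {l ψ : K}
    (hlψ : l ≠ ψ) (hlx : l ∈ G.mis φ x) (hψ : ψ ∈ G.clean φ) {C : Finset V} (hC : G.Closed φ l ψ C) (hx : x ∉ C)
    (hl : ∀ e ∈ G.S, φ e = some l → G.a e ∉ C) {f : G.El x → Option K}
    (hf : IsOpt (G.LL x φ L) f) (ho : ∀ e, f e = some l → G.pos x e ∉ C)
    (hT : ∀ s ∈ G.T x φ L, ψ ∈ L s → G.pos x s ∉ C) :
    G.T x (G.swp φ l ψ C) (G.swL x L l ψ C) ⊆ G.T x φ L := by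
  have hcl : G.clean (G.swp φ l ψ C) = G.clean φ := G.clean_swp hψ hl
  have h := (hS.swap H hng hlx hψ hC hx hl hf ho).2
  refine dm_closed h (om_subset_TT hf) (fun t ht c hc => ?_)
  unfold LL at hc
  rw [hcl, mem_sdiff] at hc
  have hcψ : c ≠ ψ := fun h => hc.2 (h ▸ hψ)
  have h1 : c ∈ L t := e10_swL_mem hc.1 hcψ (fun h2 h3 => hT t ht h3 h2)
  exact dm_used hf ht (mem_sdiff.2 ⟨h1, hc.2⟩)

/-- an optimal matching whose owner of `l` is not in the component of `pos t` -/
theorem e11_owner (H : G.Hyp x K β) (hng : ¬ G.Goal x K β) (hS : G.State x β φ L) {l ψ : K}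
    (hψ : ψ ∈ G.clean φ) (hl : l ∉ G.clean φ) {t : G.El x} (ht : t ∈ G.X x φ L l)
    (h3 : 3 ≤ (G.X x φ L l).card) :
    ∃ f, IsOpt (G.LL x φ L) f ∧
      ∀ e, f e = some l → G.pos x e ∉ G.comp φ l ψ (G.pos x t) := by
  have hlψ : l ≠ ψ := fun h => hl (h ▸ hψ)
  have hX : ∀ s, s ∈ G.X x φ L l → s ∈ G.T x φ L ∧ l ∈ L s ∧ l ∈ G.LL x φ L s ∧
      l ∈ G.mis φ (G.pos x s) := by
    intro s hs
    obtain ⟨h1, h2⟩ := mem_filter.1 hs
    have h4 := hS.sub s h2
    unfold lis at h4
    exact ⟨h1, h2, mem_sdiff.2 ⟨h2, hl⟩, (mem_inter.1 h4).1⟩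
  have hown : ∀ f, IsOpt (G.LL x φ L) f → ∀ e, f e = some l → e ∈ G.X x φ L l := by
    intro f hf e he
    obtain ⟨s, hsT, hs⟩ := dm_used hf (hX t ht).1 (hX t ht).2.2.1
    have : e = s := hf.1.inj e s l he hs
    subst this
    exact mem_filter.2 ⟨hsT, (mem_sdiff.1 (hf.1.mem e l he)).1⟩
  by_cases hB : ∃ t' ∈ G.X x φ L l, t' ≠ t ∧ G.pos x t' ∈ G.comp φ l ψ (G.pos x t)
  · obtain ⟨t', ht', hne, htC⟩ := hB
    have hex : ∃ f, IsOpt (G.LL x φ L) f ∧ f t ≠ some l ∧ f t' ≠ some l := by
      by_contra hcon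
      push Not at hcon
      have h1 : ∀ f, IsOpt (G.LL x φ L) f → f t = none → f t' = some l := by
        intro f hf hft
        exact hcon f hf (by rw [hft]; simp)
      have h2 : ∀ f, IsOpt (G.LL x φ L) f → f t' = none → f t = some l := by
        intro f hf hft
        by_contra h4
        have := hcon f hf h4
        rw [hft] at this
        exact absurd this (by simp)
      have hpair := dm_pair hne.symm (hX t ht).1 (hX t' ht').1 (hX t ht).2.2.1
        (hX t' ht').2.2.1 h1 h2
      have hsub : G.X x φ L l ⊆ {t, t'} := by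
        intro s hs
        rcases hpair s (hX s hs).1 (hX s hs).2.2.1 with h | h <;> simp [h]
      have := card_le_card hsub
      have h5 : ({t, t'} : Finset (G.El x)).card ≤ 2 := card_le_two
      omega
    obtain ⟨f, hf, hft, hft'⟩ := hex
    refine ⟨f, hf, fun e he hmem => ?_⟩
    have heX := hown f hf e he
    have he1 : e ≠ t := fun h => hft (h ▸ he)
    have he2 : e ≠ t' := fun h => hft' (h ▸ he)
    exact G.three_ends hS.st.good.proper hlψ (G.comp_self l ψ (G.pos x t)) htC hmem
      (Or.inl (hX t ht).2.2.2) (Or.inl (hX t' ht').2.2.2) (Or.inl (hX e heX).2.2.2)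
      (fun h => hne (pos_inj h).symm) (fun h => he1 (pos_inj h).symm)
      (fun h => he2 (pos_inj h).symm)
  · push Not at hB
    obtain ⟨f, hf, hft⟩ := mem_TT.1 (hX t ht).1
    refine ⟨f, hf, fun e he => hB e (hown f hf e he) ?_⟩
    intro h
    rw [h, hft] at he
    exact absurd he (by simp)

/-- Row E11. `l` special, `|X l| ≥ 3`, `t ∈ X l`, the special edge of colour `l` is not in the `(l,ψ)`-component `C` of `pos t`. Then some
`s ∈ T` with token `ψ` is in `C`. Proof: suppose not. `x ∉ C` because `x` misses `l` (`l ∈ L t`) and `ψ` (`not_mem_comp`).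
There is an optimal `f` with the owner of `l` not in `C` (so that `f` is as in `State.swap`), with some element `t1 ∈ T` in `C` having token `l`:
if there is no `t'' ∈ X l`, `t'' ≠ t`, `pos t'' ∈ C`: any optimal `f` omitting `t` (its owner of `l` is in `X l` by `dm_used`), `t1 = t`. If there
is one (it is unique by `three_ends`), then `dm_pair` and `|X l| ≥ 3` give an optimal `f` omitting `t` with `f t'' ≠ l`, or one omitting `t''` with
`f t ≠ l`; so again the owner of `l` is an element of `X l` different from `t`, `t''`, not in `C`.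
By `State.swap`, `State.swap_T` and extremality `T' = T`; every clean token on `T` survives (elements of `T` in `C` have no token `ψ`; an element
with a token `l` in `C` gets the clean token `ψ` instead, the clean set is the same by `clean_swp`), and `t` gets a new one: `P' ≥ P + 1`. -/
theorem ext_swap (H : G.Hyp x K β) (hng : ¬ G.Goal x K β) (hE : G.Ext x β φ L) {l ψ : K}
    (hψ : ψ ∈ G.clean φ) (hl : l ∉ G.clean φ) {t : G.El x} (ht : t ∈ G.X x φ L l)
    (h3 : 3 ≤ (G.X x φ L l).card)
    (hs : ∀ e ∈ G.S, φ e = some l → G.a e ∉ G.comp φ l ψ (G.pos x t)) :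
    ∃ s ∈ G.T x φ L, ψ ∈ L s ∧ G.pos x s ∈ G.comp φ l ψ (G.pos x t) := by
  by_contra hno
  push Not at hno
  have hS := hE.state
  have hlψ : l ≠ ψ := fun h => hl (h ▸ hψ)
  obtain ⟨htT, hlt⟩ := mem_filter.1 ht
  have hlis := hS.sub t hlt
  unfold lis at hlis
  rw [mem_inter] at hlis
  have hψx : ψ ∈ G.mis φ x := hS.st.clean_mis hψ
  have hx : x ∉ G.comp φ l ψ (G.pos x t) :=
    G.not_mem_comp hlis.2 hψx (fun h => pos_ne t h.symm)
  have hC : G.Closed φ l ψ (G.comp φ l ψ (G.pos x t)) := G.comp_closed l ψ _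
  obtain ⟨f, hf, ho⟩ := e11_owner H hng hS hψ hl ht h3
  have hT : ∀ s ∈ G.T x φ L, ψ ∈ L s → G.pos x s ∉ G.comp φ l ψ (G.pos x t) :=
    fun s hs1 hs2 => hno s hs1 hs2
  have hsub := hS.swap_T H hng hlψ hlis.2 hψ hC hx hs hf ho hT
  have hst := (hS.swap H hng hlis.2 hψ hC hx hs hf ho).1
  have hext := hE.ext _ _ hst (card_le_card hsub)
  have hTeq := eq_of_subset_of_card_le hsub hext.1.ge
  have hcl : G.clean (G.swp φ l ψ (G.comp φ l ψ (G.pos x t))) = G.clean φ := G.clean_swp hψ hs
  have hlt2 : G.P x φ L < G.P x (G.swp φ l ψ (G.comp φ l ψ (G.pos x t)))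
      (G.swL x L l ψ (G.comp φ l ψ (G.pos x t))) := by
    unfold P
    rw [hTeq, hcl]
    have hle : ∀ s ∈ G.T x φ L, L s ∩ G.clean φ ⊆
        G.swL x L l ψ (G.comp φ l ψ (G.pos x t)) s ∩ G.clean φ := by
      intro s hs1 c hc
      rw [mem_inter] at hc ⊢
      refine ⟨?_, hc.2⟩
      by_cases hcψ : c = ψ
      · subst hcψ
        have := hT s hs1 hc.1
        unfold swL
        rw [if_neg this]
        exact hc.1
      · exact e10_mem_swL hc.1 hcψ (fun h => absurd hc.2 (h ▸ hl))
    refine sum_lt_sum (fun s hs1 => card_le_card (hle s hs1)) ⟨t, htT, card_lt_card ?_⟩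
    refine (ssubset_iff_of_subset (hle t htT)).2 ⟨ψ, ?_, ?_⟩
    · rw [mem_inter]
      refine ⟨?_, hψ⟩
      unfold swL
      rw [if_pos (G.comp_self l ψ _)]
      exact mem_image.2 ⟨l, hlt, Equiv.swap_apply_left _ _⟩
    · intro h
      exact hT t htT (mem_inter.1 h).1 (G.comp_self l ψ _)
  exact absurd hext.2 (not_le.2 hlt2)

end MG

end MP405E
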