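import Mathlib
import Pool.Agent.Lib.MP_405d56_lc.EState

/-! # Rich colours, parallel pairs, the final count (rows E12 to E16) -/

set_option autoImplicit false

namespace MP405E

open Finset Classical

variable {V E K : Type} [Fintype V] [Fintype E] [Fintype K]

namespace MG

variable {G : MG V E} {x : V} {β : ℕ} {φ : E → Option K} {L : G.El x → Finset K}

/- Row E12a. Proof: take an optimal `f0` and the unused special colour `c` of `free_colour`. Suppose `t1,t2,t3` are three different elements of `T`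
whose positions miss `ψ`. By `dm_exch` there are optimal `fi` omitting `ti` with the same used colours, so `c` is not used; by `claim3` the
special edge of colour `c` is in the `(c,ψ)`-component of `pos ti` for `i = 1,2,3`. These are three ends of one component, contradiction
to `three_ends`. -/

theorem E12.mem_X {l : K} {t : G.El x} : t ∈ G.X x φ L l ↔ t ∈ G.T x φ L ∧ l ∈ L t := by
  unfold X; rw [mem_filter]

theorem E12.mis_of_mem (hS : G.State x β φ L) {c : K} {t : G.El x} (h : c ∈ L t) :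
    c ∈ G.mis φ (G.pos x t) ∧ c ∈ G.mis φ x := by
  have := hS.sub t h
  unfold lis at this
  rwa [mem_inter] at this

theorem E12.pos_mem_of {l ψ : K} {v w : V} (h : v ∈ G.comp φ l ψ w) :
    w ∈ G.comp φ l ψ v := by
  rw [G.comp_eq h]; exact G.comp_self _ _ _

theorem two_clean (H : G.Hyp x K β) (hng : ¬ G.Goal x K β) (hS : G.State x β φ L) {ψ : K}
    (hψ : ψ ∈ G.clean φ) :
    ((G.T x φ L).filter fun t => ψ ∈ G.mis φ (G.pos x t)).card ≤ 2 := by
  by_contra hcon
  rw [not_le, Finset.two_lt_card] at hcon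
  obtain ⟨t1, ht1, t2, ht2, t3, ht3, h12, h13, h23⟩ := hcon
  rw [mem_filter] at ht1 ht2 ht3
  obtain ⟨f0, hf0⟩ := exists_opt (G.LL x φ L)
  obtain ⟨hsm0, hc0⟩ := hS.opt H hng hf0
  obtain ⟨c, hc1, hc2, hc3⟩ := free_colour H hS.st hsm0 hc0
  obtain ⟨e, heS, hec, -⟩ := hS.st.special hc1
  have key : ∀ t : G.El x, t ∈ G.T x φ L → ψ ∈ G.mis φ (G.pos x t) →
      G.pos x t ∈ G.comp φ c ψ (G.a e) := by
    intro t ht hψt
    obtain ⟨g, hg, hgt, hgu, -⟩ := dm_exch hf0 (show t ∈ TT (G.LL x φ L) from ht)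
    obtain ⟨hsm, hc⟩ := hS.opt H hng hg
    have hcf : ∀ e, g e ≠ some c := by
      intro e' he'
      obtain ⟨a, ha⟩ := (hgu c).1 ⟨e', he'⟩
      exact hc3 a ha
    exact E12.pos_mem_of (claim3 H hng hS.st hsm hc hgt hψ hψt hc1 hc2 hcf e heS hec)
  have hne : c ≠ ψ := by rintro rfl; exact hc1 hψ
  exact G.three_ends hS.st.good.proper hne (key t1 ht1.1 ht1.2) (key t2 ht2.1 ht2.2)
    (key t3 ht3.1 ht3.2) (Or.inr ht1.2) (Or.inr ht2.2) (Or.inr ht3.2)
    (fun h => h12 (pos_inj h)) (fun h => h13 (pos_inj h)) (fun h => h23 (pos_inj h))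

theorem card_X_clean (H : G.Hyp x K β) (hng : ¬ G.Goal x K β) (hS : G.State x β φ L) {ψ : K}
    (hψ : ψ ∈ G.clean φ) : (G.X x φ L ψ).card ≤ 2 := by
  refine (Finset.card_le_card ?_).trans (two_clean H hng hS hψ)
  intro t ht
  rw [E12.mem_X] at ht
  rw [mem_filter]
  exact ⟨ht.1, (E12.mis_of_mem hS ht.2).1⟩

theorem rich (H : G.Hyp x K β) (hng : ¬ G.Goal x K β) (hE : G.Ext x β φ L) {l ψ : K}
    (hψ : ψ ∈ G.clean φ) (h3 : 3 ≤ (G.X x φ L l).card) {e : E} (he : e ∈ G.S)
    (hel : φ e = some l) :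
    (G.X x φ L l).card ≤ 2 + (G.X x φ L ψ).card ∧
    ((∃ v, G.priv e v) → (G.X x φ L l).card ≤ 1 + (G.X x φ L ψ).card) ∧
    ∀ s ∈ G.T x φ L, ψ ∈ L s → ¬ G.inc e (G.pos x s) := by
  have hS := hE.state
  have hp := hS.st.good.proper
  have hl : l ∉ G.clean φ := by
    intro h
    unfold clean at h
    rw [mem_filter] at h
    exact h.2 e he hel
  have hne : l ≠ ψ := by rintro rfl; exact hl hψ
  set C0 : Finset V := G.comp φ l ψ (G.a e) with hC0
  have haC : G.a e ∈ C0 := G.comp_self _ _ _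
  have hbC : G.b e ∈ C0 := ((G.comp_closed l ψ (G.a e)) e (Or.inl hel)).1 haC
  have hincC : ∀ v, G.inc e v → v ∈ C0 := by
    rintro v (h | h)
    · rw [← h]; exact haC
    · rw [← h]; exact hbC
  -- no vertex of `C0` misses both colours
  have hboth : ∀ w ∈ C0, l ∈ G.mis φ w → ψ ∈ G.mis φ w → False := by
    intro w hw h1 h2
    have e1 : G.comp φ l ψ w = C0 := G.comp_eq hw
    have e2 := G.comp_isolated (φ := φ) h1 h2
    rw [e1] at e2
    rw [e2, mem_singleton] at haC hbC
    exact G.ne e (haC.trans hbC.symm)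
  set A := (G.X x φ L l).filter fun t => G.pos x t ∈ C0 with hA
  set B := (G.X x φ L ψ).filter fun t => G.pos x t ∈ C0 with hB
  have hdis : Disjoint A B := by
    rw [Finset.disjoint_left]
    intro t h1 h2
    rw [hA, mem_filter, E12.mem_X] at h1
    rw [hB, mem_filter, E12.mem_X] at h2
    exact hboth _ h1.2 (E12.mis_of_mem hS h1.1.2).1 (E12.mis_of_mem hS h2.1.2).1
  have hmemAB : ∀ t ∈ A ∪ B, G.pos x t ∈ C0 ∧
      (l ∈ G.mis φ (G.pos x t) ∨ ψ ∈ G.mis φ (G.pos x t)) := by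
    intro t ht
    rw [mem_union] at ht
    rcases ht with ht | ht
    · rw [hA, mem_filter, E12.mem_X] at ht
      exact ⟨ht.2, Or.inl (E12.mis_of_mem hS ht.1.2).1⟩
    · rw [hB, mem_filter, E12.mem_X] at ht
      exact ⟨ht.2, Or.inr (E12.mis_of_mem hS ht.1.2).1⟩
  have hAB : A.card + B.card ≤ 2 := by
    rw [← Finset.card_union_of_disjoint hdis]
    by_contra hcon
    rw [not_le, Finset.two_lt_card] at hcon
    obtain ⟨t1, ht1, t2, ht2, t3, ht3, h12, h13, h23⟩ := hcon
    exact G.three_ends hp hne (hmemAB _ ht1).1 (hmemAB _ ht2).1 (hmemAB _ ht3).1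
      (hmemAB _ ht1).2 (hmemAB _ ht2).2 (hmemAB _ ht3).2
      (fun h => h12 (pos_inj h)) (fun h => h13 (pos_inj h)) (fun h => h23 (pos_inj h))
  -- the injection
  have hsig : ∀ t ∈ G.X x φ L l \ A, ∃ s ∈ G.X x φ L ψ \ B,
      G.pos x s ∈ G.comp φ l ψ (G.pos x t) := by
    intro t ht
    rw [mem_sdiff] at ht
    have htC : G.pos x t ∉ C0 := fun h => ht.2 (by rw [hA, mem_filter]; exact ⟨ht.1, h⟩)
    have hs : ∀ e' ∈ G.S, φ e' = some l → G.a e' ∉ G.comp φ l ψ (G.pos x t) := by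
      intro e' he' hel' hmem
      have : e' = e := hS.st.good.rainbow e' he' e he l hel' hel
      rw [this] at hmem
      exact htC (E12.pos_mem_of hmem)
    obtain ⟨s, hsT, hsψ, hsC⟩ := ext_swap H hng hE hψ hl ht.1 h3 hs
    refine ⟨s, ?_, hsC⟩
    rw [mem_sdiff, E12.mem_X]
    refine ⟨⟨hsT, hsψ⟩, fun h => ?_⟩
    rw [hB, mem_filter] at h
    have e1 : G.comp φ l ψ (G.pos x s) = G.comp φ l ψ (G.pos x t) := G.comp_eq hsC
    have e2 : G.comp φ l ψ (G.pos x s) = C0 := G.comp_eq h.2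
    apply htC
    rw [← e2, e1]
    exact G.comp_self _ _ _
  choose! σ hσ1 hσ2 using hsig
  have hinj : Set.InjOn σ (↑(G.X x φ L l \ A) : Set (G.El x)) := by
    intro t ht t' ht' heq
    by_contra hne'
    rw [mem_coe] at ht ht'
    have k1 := hσ2 t ht
    have k2 := hσ2 t' ht'
    rw [← heq] at k2
    have c1 : G.comp φ l ψ (G.pos x (σ t)) = G.comp φ l ψ (G.pos x t) := G.comp_eq k1
    have c2 : G.comp φ l ψ (G.pos x (σ t)) = G.comp φ l ψ (G.pos x t') := G.comp_eq k2
    have htl := (E12.mis_of_mem hS (E12.mem_X.1 (mem_sdiff.1 ht).1).2).1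
    have htl' := (E12.mis_of_mem hS (E12.mem_X.1 (mem_sdiff.1 ht').1).2).1
    have hsψ := (E12.mis_of_mem hS (E12.mem_X.1 (mem_sdiff.1 (hσ1 t ht)).1).2).1
    have iso : ∀ u u' : G.El x, l ∈ G.mis φ (G.pos x u) → ψ ∈ G.mis φ (G.pos x u) →
        G.pos x u' ∈ G.comp φ l ψ (G.pos x u) → u' = u := by
      intro u u' h1 h2 h
      rw [G.comp_isolated (φ := φ) h1 h2, mem_singleton] at h
      exact pos_inj h
    by_cases hst : σ t = t
    · rw [hst] at hsψ
      apply hne'
      refine (iso t t' htl hsψ ?_).symm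
      rw [← c1, c2]; exact G.comp_self _ _ _
    by_cases hst' : σ t = t'
    · rw [hst'] at hsψ
      apply hne'
      refine iso t' t htl' hsψ ?_
      rw [← c2, c1]; exact G.comp_self _ _ _
    have m1 : G.pos x t ∈ G.comp φ l ψ (G.pos x (σ t)) := by
      rw [c1]; exact G.comp_self _ _ _
    have m2 : G.pos x t' ∈ G.comp φ l ψ (G.pos x (σ t)) := by
      rw [c2]; exact G.comp_self _ _ _
    exact G.three_ends hp hne m1 m2 (G.comp_self _ _ _) (Or.inl htl) (Or.inl htl')
      (Or.inr hsψ) (fun h => hne' (pos_inj h)) (fun h => hst (pos_inj h).symm)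
      (fun h => hst' (pos_inj h).symm)
  have hcard : (G.X x φ L l \ A).card ≤ (G.X x φ L ψ \ B).card :=
    Finset.card_le_card_of_injOn σ (fun t ht => hσ1 t ht) hinj
  have hAsub : A ⊆ G.X x φ L l := Finset.filter_subset _ _
  have hBsub : B ⊆ G.X x φ L ψ := Finset.filter_subset _ _
  have e1 := Finset.card_sdiff_add_card_eq_card hAsub
  have e2 := Finset.card_sdiff_add_card_eq_card hBsub
  have hXψ := card_X_clean H hng hS hψ
  refine ⟨by omega, ?_, ?_⟩
  · rintro ⟨v, hv⟩
    have hvC : v ∈ C0 := hincC v hv.1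
    have hvψ : ψ ∈ G.mis φ v := by
      unfold mis
      rw [mem_filter]
      refine ⟨mem_univ _, fun e' he' h => ?_⟩
      rw [hv.2 e' he', hel] at h
      exact hne (Option.some.inj h)
    have hvpos : ∀ t : G.El x, G.pos x t ≠ v := by
      intro t h
      have hto : t.1 ∉ G.S ∧ G.inc t.1 x := by
        have := t.2
        unfold ord at this
        rw [mem_filter] at this
        exact this.2
      have h1 : G.inc t.1 v := by
        rw [← h]; exact inc_oth G hto.2
      have := hv.2 t.1 h1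
      rw [this] at hto
      exact hto.1 he
    have hAB1 : A.card + B.card ≤ 1 := by
      rw [← Finset.card_union_of_disjoint hdis]
      by_contra hcon
      rw [not_le, Finset.one_lt_card] at hcon
      obtain ⟨t1, ht1, t2, ht2, h12⟩ := hcon
      exact G.three_ends hp hne (hmemAB _ ht1).1 (hmemAB _ ht2).1 hvC
        (hmemAB _ ht1).2 (hmemAB _ ht2).2 (Or.inr hvψ)
        (fun h => h12 (pos_inj h)) (hvpos t1) (hvpos t2)
    omega
  · intro s hsT hsψ hinc
    have hsB : s ∈ B := by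
      rw [hB, mem_filter, E12.mem_X]
      exact ⟨⟨hsT, hsψ⟩, hincC _ hinc⟩
    have : 1 ≤ B.card := Finset.card_pos.2 ⟨s, hsB⟩
    omega


/- Row E12b, rich colours. `e` is the special edge of colour `l`, `|X l| ≥ 3`. Proof: `C0 = comp φ l ψ (a e)`, `A = {t ∈ X l | pos t ∈ C0}`,
`B0 = {s ∈ X ψ | pos s ∈ C0}`. No position in `C0` misses both `l` and `ψ` (else `C0` is one vertex by `comp_isolated`, but both ends of `e` are in
`C0`), so by `three_ends` `|A| + |B0| ≤ 2`. For `t ∈ X l \ A` the special edge `e` is not in `comp φ l ψ (pos t)`, so by `ext_swap` there is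
`σ t ∈ X ψ` with `pos (σ t) ∈ comp φ l ψ (pos t)`, hence `σ t ∉ B0`. `σ` is injective: let `t ≠ t'`, `σ t = σ t' = s`; then `t,t',s` are in the same
component; if `s = t` then `pos t` misses `l` and `ψ`, the component is `{pos t}`, contradiction to `pos t' ≠ pos t`; otherwise three
ends. So `|X l| ≤ |A| + |X ψ| - |B0|`. This is (1). (2): the private end `v` of `e` is in `C0`, misses `ψ` and is not the position of an
element: `|A| + |B0| + 1 ≤ 2`. (3): if `e` is incident with `pos s` then `s ∈ B0`, `|X l| ≤ 2 + |X ψ| - 2 |B0| ≤ 2`, contradiction. -/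

/-- Row E13a. parallelity (`u`, `z` are never omitted together by an optimal matching) is transitive on `T`, by `dm_exch`:
if `f` omits `t` and `z` then there is an optimal `g` omitting `u` and at least one of `t`, `z`. -/
theorem par_trans {f : G.El x → Option K} (hf : IsOpt (G.LL x φ L) f) {u t z : G.El x}
    (hu : u ∈ G.T x φ L) (ht : f t = none) (hz : f z = none) (htz : t ≠ z) :
    (∃ g, IsOpt (G.LL x φ L) g ∧ g u = none ∧ g t = none) ∨
      (∃ g, IsOpt (G.LL x φ L) g ∧ g u = none ∧ g z = none) := by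
  obtain ⟨g, hg, hgu, -, b, hb, hgb⟩ := dm_exch hf hu
  by_cases h : t = b
  · exact Or.inr ⟨g, hg, hgu, hgb z hz (fun hzb => htz (h.trans hzb.symm))⟩
  · exact Or.inl ⟨g, hg, hgu, hgb t ht h⟩

/-- Row E13b, the swap: `f` optimal omits `u`, `w`, `u` misses the clean `ψ`, `w` misses the clean `ψ'`, `pos w` is not in the component of
`pos u`; then swap this component. -/
theorem e13_swap (H : G.Hyp x K β) (hng : ¬ G.Goal x K β) (hS : G.State x β φ L) {ψ ψ' : K}
    (hψ : ψ ∈ G.clean φ) (hψ' : ψ' ∈ G.clean φ) {u w : G.El x} (huw : u ≠ w)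
    (hψu : ψ ∈ G.mis φ (G.pos x u)) (hψw : ψ' ∈ G.mis φ (G.pos x w))
    {f : G.El x → Option K} (hf : IsOpt (G.LL x φ L) f) (hfu : f u = none) (hfw : f w = none)
    (hnot : G.pos x w ∉ G.comp φ ψ' ψ (G.pos x u)) : 2 ≤ G.ddeg (G.pos x u) := by
  obtain ⟨hSM, hfc⟩ := hS.opt H hng hf
  have hC : G.Closed φ ψ' ψ (G.comp φ ψ' ψ (G.pos x u)) := G.comp_closed ψ' ψ _
  have hx : x ∉ G.comp φ ψ' ψ (G.pos x u) :=
    G.not_mem_comp (hS.st.clean_mis hψ') (hS.st.clean_mis hψ) (pos_ne u).symm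
  have hl : ∀ e ∈ G.S, φ e = some ψ' → G.a e ∉ G.comp φ ψ' ψ (G.pos x u) := by
    intro e he hee
    exact absurd hee ((mem_filter.1 hψ').2 e he)
  have ho : ∀ e, f e = some ψ' → G.pos x e ∉ G.comp φ ψ' ψ (G.pos x u) := by
    intro e hee
    exact absurd hψ' (hSM.spec e ψ' hee)
  have hSM' := hSM.swp hS.st hψ hC hx hl ho
  have hSt' := hS.st.swp hψ hC
  have hcl := G.clean_swp (C := G.comp φ ψ' ψ (G.pos x u)) hψ hl
  have hself : G.pos x u ∈ G.comp φ ψ' ψ (G.pos x u) := G.comp_self ψ' ψ _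
  refine lemJ H hng hSt' hSM' (by rw [hcl]; exact hfc) huw hfu hfw (ψ := ψ')
    (by rw [hcl]; exact hψ') ?_ ?_
  · rw [G.mis_swp_mem hC hself]
    exact mem_image.2 ⟨ψ, hψu, Equiv.swap_apply_right ψ' ψ⟩
  · rw [G.mis_swp_not_mem hC hnot]
    exact hψw

/-- Row E13b. `X ψ` contains the parallel pair `u`, `z`; both have at most one double. Then every `w ∈ T` whose position misses a clean colour `ψ'`
is not omitted together with `u` (or `w = u`).
Proof: suppose `w ≠ u` and some optimal `f` omits `w` and `u`. Then `w ≠ z` (`u`, `z` parallel) and by `par_trans` (with `z` in the role of `u`)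
some optimal `f'` omits `w` and `z` (the other alternative, `u` and `z`, is impossible). `ψ' ≠ ψ`: otherwise `u,z,w` contradict
`two_clean`. `pos u` does not miss `ψ'` by `lemJ` (with `f`, `ψ'`, the pair `u`, `w`), and `pos z` does not (with `f'`).
Let `Ku`, `Kz` be the `(ψ',ψ)`-components of `pos u`, `pos z`; `x` is in neither, because `x` misses both (`not_mem_comp`).
If `pos w ∉ Ku`: swap `Ku`. The result is good (`St.swp`), `f` survives (`SM.swp`, `f` uses no clean colour), the clean colours are the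
same, `pos u` and `pos w` both miss `ψ'` now, `f` omits both: `lemJ` gives `ddeg (pos u) ≥ 2`, contradiction.
If `pos w ∈ Ku` then `pos w ∉ Kz`, because otherwise `pos u`, `pos z`, `pos w` are three ends of `Ku = Kz` (`w` misses `ψ'`, `u` and `z` miss `ψ`).
Swap `Kz` and use `f'`: `ddeg (pos z) ≥ 2`, contradiction. -/
theorem par_class (H : G.Hyp x K β) (hng : ¬ G.Goal x K β) (hS : G.State x β φ L) {ψ : K}
    (hψ : ψ ∈ G.clean φ) {u z : G.El x} (huz : u ≠ z) (hu : u ∈ G.T x φ L) (hz : z ∈ G.T x φ L)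
    (hψu : ψ ∈ G.mis φ (G.pos x u)) (hψz : ψ ∈ G.mis φ (G.pos x z))
    (hpar : ∀ f, IsOpt (G.LL x φ L) f → f u = none → f z ≠ none)
    (hdu : G.ddeg (G.pos x u) ≤ 1) (hdz : G.ddeg (G.pos x z) ≤ 1)
    {w : G.El x} (hw : w ∈ G.T x φ L) {ψ' : K} (hψ' : ψ' ∈ G.clean φ)
    (hψw : ψ' ∈ G.mis φ (G.pos x w)) {f : G.El x → Option K} (hf : IsOpt (G.LL x φ L) f)
    (hfu : f u = none) (hfw : f w = none) : w = u := by
  by_contra hwu
  have hwz : w ≠ z := by
    rintro rfl
    exact hpar f hf hfu hfw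
  obtain ⟨f', hf', hf'z, hf'w⟩ : ∃ g, IsOpt (G.LL x φ L) g ∧ g z = none ∧ g w = none := by
    rcases par_trans hf hz hfw hfu hwu with h | ⟨g, hg, hgz, hgu⟩
    · exact h
    · exact absurd hgz (hpar g hg hgu)
  have hne : ψ' ≠ ψ := by
    rintro rfl
    have h2 := two_clean H hng hS hψ
    have h3 : ({u, z, w} : Finset (G.El x)) ⊆
        (G.T x φ L).filter fun t => ψ' ∈ G.mis φ (G.pos x t) := by
      intro t ht
      rw [mem_insert, mem_insert, mem_singleton] at ht
      rcases ht with rfl | rfl | rfl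
      · exact mem_filter.2 ⟨hu, hψu⟩
      · exact mem_filter.2 ⟨hz, hψz⟩
      · exact mem_filter.2 ⟨hw, hψw⟩
    have h4 : ({u, z, w} : Finset (G.El x)).card = 3 :=
      card_eq_three.2 ⟨u, z, w, huz, Ne.symm hwu, Ne.symm hwz, rfl⟩
    have h5 := card_le_card h3
    omega
  by_cases hwK : G.pos x w ∈ G.comp φ ψ' ψ (G.pos x u)
  · by_cases hwK' : G.pos x w ∈ G.comp φ ψ' ψ (G.pos x z)
    · have e1 := G.comp_eq hwK
      have e2 := G.comp_eq hwK'
      have hzK : G.pos x z ∈ G.comp φ ψ' ψ (G.pos x u) := by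
        rw [← e1, e2]; exact G.comp_self ψ' ψ _
      exact G.three_ends hS.st.good.proper hne (G.comp_self ψ' ψ (G.pos x u)) hzK hwK
        (Or.inr hψu) (Or.inr hψz) (Or.inl hψw) (fun h => huz (pos_inj h))
        (fun h => hwu (pos_inj h).symm) (fun h => hwz (pos_inj h).symm)
    · have := e13_swap H hng hS hψ hψ' (Ne.symm hwz) hψz hψw hf' hf'z hf'w hwK'
      omega
  · have := e13_swap H hng hS hψ hψ' (Ne.symm hwu) hψu hψw hf hfu hfw hwK
    omega

/- Row E14. A parallel pair in `X ψ` contains a vertex with two doubles. Proof: suppose not. Let `f` be optimal, omitting `z`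
(`z ∈ T`, `mem_TT`), `Lz` = the special lists with the one of `z` replaced by `∅`. By `dm_del` `f` is optimal for `Lz` and
`TT Lz = {z} ∪ T1`, `T1 = {a ≠ z | some optimal g omits a and z}`. By `dm_card` for `Lz`: `|T1| + 1 = |A1| + |om f|`, where `A1` is the set of
colours in the special lists of `T1`, so `|T1| = |A1| + |clean| - β > |A1|` (by `St.card_clean` and `H.h4`: `|clean| ≥ 1 + β`).
Elements `a ∈ T1` have no clean token: if some optimal `g` omits `a` and `z` then by `par_trans` some optimal `g` omits `u` and `a` (not `u` and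
`z`), (if `a = u` this is excluded by `hpar`), and `par_class` gives `a = u`, contradiction. So `L a` is the special list, two colours, and
`∑_{l ∈ A1} |X l ∩ T1| = 2 |T1| > 2 |A1|`, some `l ∈ A1` has `|X l ∩ T1| ≥ 3`.
Let `e` be the special edge of colour `l`. By `three_ends` some `t ∈ X l ∩ T1` has `e` not in `C := comp φ l ψ (pos t)`. By `ext_swap`
some `s ∈ T` with token `ψ` is in `C`, `s = u` or `s = z` by `two_clean`. `pos t` does not miss `ψ` (`two_clean`, `t ≠ u, z`), so `pos s` does not miss `l`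
(else `C = {pos s}`). Let `s'` be the other one of `u`, `z`; `pos s' ∉ C` by `three_ends`. Let `g` be optimal omitting `t` and `s'` (for `s' = z` by
definition of `T1`, for `s' = u` by `par_trans`). The owner of `l` under `g` is not in `C`: it misses `l`, is not `t`, and the ends of `C` are
`t` and `s`. Swap `C` (`x ∉ C`, `not_mem_comp`): by `SM.swp` `g` survives, the clean set is the same, and now `pos t` and `pos s'` miss
`ψ`: `lemJ` (pair `s'`, `t`) gives `ddeg (pos s') ≥ 2`, contradiction. -/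

theorem E14.mem_X {l : K} {t : G.El x} : t ∈ G.X x φ L l ↔ t ∈ G.T x φ L ∧ l ∈ L t := by
  unfold X; rw [mem_filter]

theorem E14.mis_of_mem (hS : G.State x β φ L) {c : K} {t : G.El x} (h : c ∈ L t) :
    c ∈ G.mis φ (G.pos x t) ∧ c ∈ G.mis φ x := by
  have := hS.sub t h
  unfold lis at this
  rwa [mem_inter] at this

theorem E14.pos_mem_of {l ψ : K} {v w : V} (h : v ∈ G.comp φ l ψ w) :
    w ∈ G.comp φ l ψ v := by
  rw [G.comp_eq h]; exact G.comp_self _ _ _

/-- the last swap: `t` and `s'` both omitted by `g`, `C = comp l ψ (pos t)` avoids `pos s'` and the owner of `l`, `e ∉ C` -/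
theorem E14.swap_end (H : G.Hyp x K β) (hng : ¬ G.Goal x K β) (hS : G.State x β φ L) {l ψ : K}
    (hψ : ψ ∈ G.clean φ) (hl : l ∉ G.clean φ) (hlx : l ∈ G.mis φ x) {t s' : G.El x} (hts : s' ≠ t)
    (hlt : l ∈ G.mis φ (G.pos x t)) (hψs : ψ ∈ G.mis φ (G.pos x s'))
    (hsC : G.pos x s' ∉ G.comp φ l ψ (G.pos x t))
    (hs : ∀ e ∈ G.S, φ e = some l → G.a e ∉ G.comp φ l ψ (G.pos x t))
    {g : G.El x → Option K} (hg : IsOpt (G.LL x φ L) g) (hgt : g t = none) (hgs : g s' = none)
    (ho : ∀ e, g e = some l → G.pos x e ∉ G.comp φ l ψ (G.pos x t)) :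
    2 ≤ G.ddeg (G.pos x s') := by
  set C := G.comp φ l ψ (G.pos x t) with hCdef
  have hC : G.Closed φ l ψ C := G.comp_closed _ _ _
  have hψx : ψ ∈ G.mis φ x := hS.st.clean_mis hψ
  have hx : x ∉ C := G.not_mem_comp hlx hψx (fun h => pos_ne t h.symm)
  obtain ⟨hsm, hc⟩ := hS.opt H hng hg
  have hsm' := hsm.swp hS.st hψ hC hx hs ho
  have hst' := hS.st.swp hψ hC
  have hcl : G.clean (G.swp φ l ψ C) = G.clean φ := G.clean_swp hψ hs
  refine lemJ H hng hst' hsm' (by rw [hcl]; exact hc) hts hgs hgt (ψ := ψ) (by rw [hcl]; exact hψ)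
    ?_ ?_
  · rw [G.mis_swp_not_mem hC hsC]; exact hψs
  · rw [G.mis_swp_mem hC (G.comp_self _ _ _), mem_image]
    exact ⟨l, hlt, Equiv.swap_apply_left _ _⟩

theorem par (H : G.Hyp x K β) (hng : ¬ G.Goal x K β) (hE : G.Ext x β φ L) {ψ : K}
    (hψ : ψ ∈ G.clean φ) {u z : G.El x} (huz : u ≠ z) (hu : u ∈ G.X x φ L ψ) (hz : z ∈ G.X x φ L ψ)
    (hpar : ∀ f, IsOpt (G.LL x φ L) f → f u = none → f z ≠ none) :
    2 ≤ G.ddeg (G.pos x u) ∨ 2 ≤ G.ddeg (G.pos x z) := by
  by_contra hcon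
  rw [not_or, not_le, not_le] at hcon
  obtain ⟨hdu, hdz⟩ := hcon
  have hS := hE.state
  have hp := hS.st.good.proper
  rw [E14.mem_X] at hu hz
  have hψu := (E14.mis_of_mem hS hu.2).1
  have hψz := (E14.mis_of_mem hS hz.2).1
  obtain ⟨f, hf, hfz⟩ := mem_TT.1 (show z ∈ TT (G.LL x φ L) from hz.1)
  set Lz : G.El x → Finset K := fun a => if a = z then (∅ : Finset K) else G.LL x φ L a with hLz
  have hdel : IsOpt Lz f ∧ ∀ a, a ∈ TT Lz ↔
      ∃ g, IsOpt (G.LL x φ L) g ∧ g a = none ∧ g z = none := by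
    rw [hLz]
    convert dm_del hf hfz
  obtain ⟨hdel1, hdel2⟩ := hdel
  set T1 : Finset (G.El x) := (TT Lz).erase z with hT1
  have hzT : z ∈ TT Lz := by rw [hdel2]; exact ⟨f, hf, hfz, hfz⟩
  -- elements of T1
  have hT1mem : ∀ a ∈ T1, a ≠ z ∧ a ∈ G.T x φ L ∧ ∃ g, IsOpt (G.LL x φ L) g ∧ g a = none ∧ g z = none := by
    intro a ha
    rw [hT1, mem_erase, hdel2] at ha
    obtain ⟨h1, g, hg, hga, hgz⟩ := ha
    exact ⟨h1, mem_TT.2 ⟨g, hg, hga⟩, g, hg, hga, hgz⟩
  -- omitted together with u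
  have hT1u : ∀ a ∈ T1, a ≠ u ∧ ∃ g, IsOpt (G.LL x φ L) g ∧ g u = none ∧ g a = none := by
    intro a ha
    obtain ⟨h1, h2, g, hg, hga, hgz⟩ := hT1mem a ha
    refine ⟨?_, ?_⟩
    · rintro rfl; exact hpar g hg hga hgz
    · rcases par_trans hg hu.1 hga hgz h1 with h | ⟨g', hg', h3, h4⟩
      · exact h
      · exact absurd h4 (hpar g' hg' h3)
  -- no clean colours
  have hnoclean : ∀ a ∈ T1, ∀ c ∈ G.clean φ, c ∉ G.mis φ (G.pos x a) := by
    intro a ha c hc hmis
    obtain ⟨h1, h2, -⟩ := hT1mem a ha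
    obtain ⟨h3, g, hg, hgu, hga⟩ := hT1u a ha
    exact h3 (par_class H hng hS hψ huz hu.1 hz.1 hψu hψz hpar (by omega) (by omega) h2 hc hmis hg
      hgu hga)
  have hLT1 : ∀ a ∈ T1, Lz a = L a := by
    intro a ha
    obtain ⟨h1, h2, -⟩ := hT1mem a ha
    rw [hLz]
    simp only [if_neg h1, LL]
    rw [Finset.sdiff_eq_self_iff_disjoint, Finset.disjoint_left]
    intro c hc hcl
    exact hnoclean a ha c hcl (E14.mis_of_mem hS hc).1
  -- cardinalities
  have hcard := dm_card hdel1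
  set A1 : Finset K := (TT Lz).biUnion Lz with hA1
  obtain ⟨hsm, hfc⟩ := hS.opt H hng hf
  have hcl := hS.st.card_clean
  have hcT1 : T1.card + 1 = (TT Lz).card := Finset.card_erase_add_one hzT
  have hbig : A1.card < T1.card := by
    have := H.h4
    omega
  -- double counting
  have hex : ∃ l ∈ A1, 3 ≤ (T1.filter fun t => l ∈ L t).card := by
    by_contra hcon
    push Not at hcon
    have h1 : ∑ l ∈ A1, (T1.filter fun t => l ∈ L t).card ≤ A1.card * 2 := by
      rw [← smul_eq_mul]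
      exact Finset.sum_le_card_nsmul _ _ _ (fun l hl => by have := hcon l hl; omega)
    have h2 : ∑ l ∈ A1, (T1.filter fun t => l ∈ L t).card = ∑ t ∈ T1, (A1.filter fun l => l ∈ L t).card := by
      exact Finset.sum_card_bipartiteAbove_eq_sum_card_bipartiteBelow (fun l t => l ∈ L t)
    have h3 : ∀ t ∈ T1, (A1.filter fun l => l ∈ L t).card = 2 := by
      intro t ht
      rw [← hS.two t]
      congr 1
      ext l
      rw [mem_filter]
      refine ⟨fun h => h.2, fun h => ⟨?_, h⟩⟩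
      rw [hA1, mem_biUnion]
      refine ⟨t, Finset.mem_of_mem_erase ht, ?_⟩
      rw [hLT1 t ht]; exact h
    rw [h2, Finset.sum_congr rfl h3, Finset.sum_const, smul_eq_mul] at h1
    omega
  obtain ⟨l, hlA, h3⟩ := hex
  -- l is special and missing at x
  obtain ⟨t0, ht0⟩ : (T1.filter fun t => l ∈ L t).Nonempty := Finset.card_pos.1 (by omega)
  rw [mem_filter] at ht0
  have hlx : l ∈ G.mis φ x := (E14.mis_of_mem hS ht0.2).2
  have hl : l ∉ G.clean φ := fun h => hnoclean t0 ht0.1 l h (E14.mis_of_mem hS ht0.2).1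
  have hne : l ≠ ψ := by rintro rfl; exact hl hψ
  obtain ⟨e, heS, hel, heu⟩ := hS.st.special hl
  have hX3 : 3 ≤ (G.X x φ L l).card := by
    refine h3.trans (Finset.card_le_card ?_)
    intro t ht
    rw [mem_filter] at ht
    rw [E14.mem_X]
    exact ⟨(hT1mem t ht.1).2.1, ht.2⟩
  -- an element t with e not in the component
  have ht : ∃ t ∈ T1, l ∈ L t ∧ G.a e ∉ G.comp φ l ψ (G.pos x t) := by
    by_contra hcon
    push Not at hcon
    rw [← Nat.lt_iff_add_one_le, Finset.two_lt_card] at h3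
    obtain ⟨t1, ht1, t2, ht2, t3, ht3, h12, h13, h23⟩ := h3
    rw [mem_filter] at ht1 ht2 ht3
    have m1 := E14.pos_mem_of (hcon t1 ht1.1 ht1.2)
    have m2 := E14.pos_mem_of (hcon t2 ht2.1 ht2.2)
    have m3 := E14.pos_mem_of (hcon t3 ht3.1 ht3.2)
    exact G.three_ends hp hne m1 m2 m3 (Or.inl (E14.mis_of_mem hS ht1.2).1)
      (Or.inl (E14.mis_of_mem hS ht2.2).1) (Or.inl (E14.mis_of_mem hS ht3.2).1)
      (fun h => h12 (pos_inj h)) (fun h => h13 (pos_inj h)) (fun h => h23 (pos_inj h))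
  obtain ⟨t, htT1, hlt, hte⟩ := ht
  obtain ⟨htz, htT, g1, hg1, hg1t, hg1z⟩ := hT1mem t htT1
  obtain ⟨htu, g2, hg2, hg2u, hg2t⟩ := hT1u t htT1
  have hltm := (E14.mis_of_mem hS hlt).1
  have hs : ∀ e' ∈ G.S, φ e' = some l → G.a e' ∉ G.comp φ l ψ (G.pos x t) := by
    intro e' he' hel'
    rw [heu e' he' hel']; exact hte
  obtain ⟨s, hsT, hsψ, hsC⟩ := ext_swap H hng hE hψ hl (E14.mem_X.2 ⟨htT, hlt⟩) hX3 hs
  have hsψm := (E14.mis_of_mem hS hsψ).1
  have hψt : ψ ∉ G.mis φ (G.pos x t) := hnoclean t htT1 ψ hψ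
  -- s is u or z
  have hsuz : s = u ∨ s = z := by
    by_contra hcon
    rw [not_or] at hcon
    have h2 := two_clean H hng hS hψ
    rw [← not_lt] at h2
    apply h2
    rw [Finset.two_lt_card]
    refine ⟨u, ?_, z, ?_, s, ?_, huz, fun h => hcon.1 h.symm, fun h => hcon.2 h.symm⟩
    · rw [mem_filter]; exact ⟨hu.1, hψu⟩
    · rw [mem_filter]; exact ⟨hz.1, hψz⟩
    · rw [mem_filter]; exact ⟨hsT, hsψm⟩
  have hsl : l ∉ G.mis φ (G.pos x s) := by
    intro h
    have e1 : G.comp φ l ψ (G.pos x s) = G.comp φ l ψ (G.pos x t) := G.comp_eq hsC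
    have e2 := G.comp_isolated (φ := φ) h hsψm
    have e3 : G.pos x t ∈ G.comp φ l ψ (G.pos x s) := by rw [e1]; exact G.comp_self _ _ _
    rw [e2, mem_singleton] at e3
    apply hψt
    rw [e3]; exact hsψm
  -- general conclusion for s' = the other one
  have main : ∀ s' : G.El x, s' ≠ s → s' ≠ t → ψ ∈ G.mis φ (G.pos x s') →
      (∃ g, IsOpt (G.LL x φ L) g ∧ g s' = none ∧ g t = none) → 2 ≤ G.ddeg (G.pos x s') := by
    intro s' hs's hs't hψs' hg
    obtain ⟨g, hg, hgs', hgt⟩ := hg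
    have hst : s ≠ t := by
      rintro rfl; exact hψt hsψm
    refine E14.swap_end H hng hS hψ hl hlx hs't hltm hψs' ?_ hs hg hgt hgs' ?_
    · intro hmem
      exact G.three_ends hp hne (G.comp_self _ _ _) hsC hmem (Or.inl hltm) (Or.inr hsψm)
        (Or.inr hψs') (fun h => hst (pos_inj h).symm) (fun h => hs't (pos_inj h).symm)
        (fun h => hs's (pos_inj h).symm)
    · intro o ho hmem
      have hol : l ∈ G.mis φ (G.pos x o) := by
        have h1 := hg.1.mem o l ho
        unfold LL at h1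
        rw [mem_sdiff] at h1
        exact (E14.mis_of_mem hS h1.1).1
      have hot : o ≠ t := by rintro rfl; rw [hgt] at ho; exact absurd ho (by simp)
      have hos : o ≠ s := by rintro rfl; exact hsl hol
      exact G.three_ends hp hne (G.comp_self _ _ _) hsC hmem (Or.inl hltm) (Or.inr hsψm)
        (Or.inl hol) (fun h => hst (pos_inj h).symm) (fun h => hot (pos_inj h).symm)
        (fun h => hos (pos_inj h).symm)
  rcases hsuz with rfl | rfl
  · have := main z huz.symm htz.symm hψz ⟨g1, hg1, hg1z, hg1t⟩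
    omega
  · have := main u huz htu.symm hψu ⟨g2, hg2, hg2u, hg2t⟩
    omega

/-- Row E15a. Elements of `T` with a clean token at positions with two doubles: at least as many as clean colours `ψ` with `|X ψ| = 2`.
Proof: let `J` be this set. For `|X ψ| = 2`, `X ψ = {u,z}`: if some optimal matching omits both then `lemJ` gives `u,z ∈ J` (put `w(t,ψ) = 1/2` for both,
or count `2 = 1 + 1`); otherwise by `par` one of them, `j ψ`, is in `J` (`w(t,ψ) = 1` for `t = j ψ`, `0` for the other one; i.e. `2 = 2`), and then `|L t ∩ clean| ≤ 1` for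
both (an optimal matching omitting the other one matches `t` with a special token). So `∑_ψ 2 = ∑_{t ∈ J} ∑_ψ 2 w(t,ψ) ≤ ∑_{t ∈ J} 2`: a `t` with
two clean tokens has `2w ≤ 1` for each, a `t` with one clean token has `2w ≤ 2`. -/
theorem card_J (H : G.Hyp x K β) (hng : ¬ G.Goal x K β) (hE : G.Ext x β φ L) :
    ((G.clean φ).filter fun ψ => (G.X x φ L ψ).card = 2).card ≤
      ((G.T x φ L).filter fun t => 2 ≤ G.ddeg (G.pos x t) ∧ (L t ∩ G.clean φ).Nonempty).card := by
  have hS := hE.state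
  set J := (G.T x φ L).filter fun t => 2 ≤ G.ddeg (G.pos x t) ∧ (L t ∩ G.clean φ).Nonempty with hJ
  set Q := (G.clean φ).filter fun ψ => (G.X x φ L ψ).card = 2 with hQ
  -- twice the weights
  let w : G.El x → K → ℕ := fun t ψ =>
    if ψ ∈ L t ∩ G.clean φ then (if (L t ∩ G.clean φ).card = 2 then 1 else 2) else 0
  have hmis : ∀ (t : G.El x) (ψ : K), ψ ∈ L t → ψ ∈ G.mis φ (G.pos x t) := fun t ψ h =>
    (mem_inter.1 (hS.sub t h)).1
  have hle2 : ∀ t : G.El x, (L t ∩ G.clean φ).card ≤ 2 := fun t =>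
    (card_le_card inter_subset_left).trans (hS.two t).le
  -- columns
  have hcol : ∀ t ∈ J, ∑ ψ ∈ Q, w t ψ ≤ 2 := by
    intro t _
    have h1 : ∑ ψ ∈ Q, w t ψ ≤
        ∑ ψ ∈ L t ∩ G.clean φ, (if (L t ∩ G.clean φ).card = 2 then 1 else 2) := by
      rw [← sum_filter_add_sum_filter_not Q (fun ψ => ψ ∈ L t ∩ G.clean φ)]
      have h2 : ∑ ψ ∈ Q.filter (fun ψ => ¬ ψ ∈ L t ∩ G.clean φ), w t ψ = 0 := by
        refine sum_eq_zero fun ψ hψ => ?_
        exact if_neg (mem_filter.1 hψ).2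
      rw [h2, add_zero]
      have h3 : ∑ ψ ∈ Q.filter (fun ψ => ψ ∈ L t ∩ G.clean φ), w t ψ =
          ∑ ψ ∈ Q.filter (fun ψ => ψ ∈ L t ∩ G.clean φ),
            (if (L t ∩ G.clean φ).card = 2 then 1 else 2) :=
        sum_congr rfl fun ψ hψ => if_pos (mem_filter.1 hψ).2
      rw [h3]
      exact sum_le_sum_of_subset fun ψ hψ => (mem_filter.1 hψ).2
    refine h1.trans ?_
    rw [sum_const, smul_eq_mul]
    have := hle2 t
    split_ifs with h
    · omega
    · omega
  -- rows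
  have hrow : ∀ ψ ∈ Q, 2 ≤ ∑ t ∈ J, w t ψ := by
    intro ψ hψQ
    obtain ⟨hψ, hX⟩ := mem_filter.1 hψQ
    obtain ⟨u, z, huz, hXe⟩ := card_eq_two.1 hX
    have huX : u ∈ G.X x φ L ψ := by rw [hXe]; simp
    have hzX : z ∈ G.X x φ L ψ := by rw [hXe]; simp
    obtain ⟨huT, huL⟩ := mem_filter.1 huX
    obtain ⟨hzT, hzL⟩ := mem_filter.1 hzX
    have hui : ψ ∈ L u ∩ G.clean φ := mem_inter.2 ⟨huL, hψ⟩
    have hzi : ψ ∈ L z ∩ G.clean φ := mem_inter.2 ⟨hzL, hψ⟩
    by_cases hex : ∃ f, IsOpt (G.LL x φ L) f ∧ f u = none ∧ f z = none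
    · obtain ⟨f, hf, hfu, hfz⟩ := hex
      obtain ⟨hSM, hfc⟩ := hS.opt H hng hf
      have d1 := lemJ H hng hS.st hSM hfc huz hfu hfz hψ (hmis u ψ huL) (hmis z ψ hzL)
      have d2 := lemJ H hng hS.st hSM hfc (Ne.symm huz) hfz hfu hψ (hmis z ψ hzL) (hmis u ψ huL)
      have huJ : u ∈ J := mem_filter.2 ⟨huT, d1, ⟨ψ, hui⟩⟩
      have hzJ : z ∈ J := mem_filter.2 ⟨hzT, d2, ⟨ψ, hzi⟩⟩
      have hsub : ({u, z} : Finset (G.El x)) ⊆ J := by
        intro t ht
        rw [mem_insert, mem_singleton] at ht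
        rcases ht with rfl | rfl
        · exact huJ
        · exact hzJ
      have h4 : ∑ t ∈ ({u, z} : Finset (G.El x)), w t ψ ≤ ∑ t ∈ J, w t ψ :=
        sum_le_sum_of_subset hsub
      rw [sum_pair huz] at h4
      have h5 : 1 ≤ w u ψ := by
        show 1 ≤ if ψ ∈ L u ∩ G.clean φ then (if (L u ∩ G.clean φ).card = 2 then 1 else 2) else 0
        rw [if_pos hui]; split_ifs <;> omega
      have h6 : 1 ≤ w z ψ := by
        show 1 ≤ if ψ ∈ L z ∩ G.clean φ then (if (L z ∩ G.clean φ).card = 2 then 1 else 2) else 0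
        rw [if_pos hzi]; split_ifs <;> omega
      omega
    · have hpar : ∀ f, IsOpt (G.LL x φ L) f → f u = none → f z ≠ none := fun f hf h1 h2 =>
        hex ⟨f, hf, h1, h2⟩
      have hpar' : ∀ f, IsOpt (G.LL x φ L) f → f z = none → f u ≠ none := fun f hf h1 h2 =>
        hex ⟨f, hf, h2, h1⟩
      -- an element which is matched has only one clean token
      have hone : ∀ s t : G.El x, t ∈ G.T x φ L →
          (∀ f, IsOpt (G.LL x φ L) f → f t = none → f s ≠ none) →
          (L s ∩ G.clean φ).card ≠ 2 := by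
        intro s t ht hp h2
        obtain ⟨g, hg, hgt⟩ := mem_TT.1 ht
        have h7 := hp g hg hgt
        obtain ⟨c, hc⟩ := Option.ne_none_iff_exists'.1 h7
        have h8 := hg.1.mem s c hc
        obtain ⟨h9, h10⟩ := mem_sdiff.1 h8
        have h11 : L s ∩ G.clean φ = L s :=
          eq_of_subset_of_card_le inter_subset_left (by rw [h2]; exact (hS.two s).le)
        rw [← h11] at h9
        exact h10 (mem_inter.1 h9).2
      have hw2 : ∀ s : G.El x, ψ ∈ L s ∩ G.clean φ → (L s ∩ G.clean φ).card ≠ 2 → w s ψ = 2 := by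
        intro s h1 h2
        show (if ψ ∈ L s ∩ G.clean φ then (if (L s ∩ G.clean φ).card = 2 then 1 else 2) else 0) = 2
        rw [if_pos h1, if_neg h2]
      have hle : ∀ s ∈ J, w s ψ ≤ ∑ t ∈ J, w t ψ := fun s hs =>
        single_le_sum (f := fun t => w t ψ) (fun _ _ => Nat.zero_le _) hs
      rcases par H hng hE hψ huz huX hzX hpar with hd | hd
      · have huJ : u ∈ J := mem_filter.2 ⟨huT, hd, ⟨ψ, hui⟩⟩
        have h12 := hle u huJ
        rw [hw2 u hui (hone u z hzT hpar')] at h12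
        exact h12
      · have hzJ : z ∈ J := mem_filter.2 ⟨hzT, hd, ⟨ψ, hzi⟩⟩
        have h12 := hle z hzJ
        rw [hw2 z hzi (hone z u huT hpar)] at h12
        exact h12
  have h13 : ∑ ψ ∈ Q, 2 ≤ ∑ t ∈ J, 2 := by
    calc ∑ ψ ∈ Q, 2 ≤ ∑ ψ ∈ Q, ∑ t ∈ J, w t ψ := sum_le_sum hrow
      _ = ∑ t ∈ J, ∑ ψ ∈ Q, w t ψ := sum_comm
      _ ≤ ∑ t ∈ J, 2 := sum_le_sum hcol
  rw [sum_const, sum_const, smul_eq_mul, smul_eq_mul] at h13
  omega

/- Row E15b. The number of doubles incident with positions of a set `J` of elements with at least two doubles each is at least `|J|`. -/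

/-- Row E15b. The number of doubles incident with positions of a set `J` of elements with at least two doubles each is at least `|J|`. -/
theorem card_dbl (J : Finset (G.El x)) (hJ : ∀ t ∈ J, 2 ≤ G.ddeg (G.pos x t)) :
    J.card ≤ (G.dbl.filter fun e => ∃ t ∈ J, G.inc e (G.pos x t)).card := by
  set D := G.dbl.filter fun e => ∃ t ∈ J, G.inc e (G.pos x t) with hD
  have h1 : ∑ t ∈ J, (D.filter fun e => G.inc e (G.pos x t)).card =
      ∑ e ∈ D, (J.filter fun t => G.inc e (G.pos x t)).card :=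
    Finset.sum_card_bipartiteAbove_eq_sum_card_bipartiteBelow (fun t e => G.inc e (G.pos x t))
  have h2 : J.card * 2 ≤ ∑ t ∈ J, (D.filter fun e => G.inc e (G.pos x t)).card := by
    rw [← smul_eq_mul]
    refine Finset.card_nsmul_le_sum _ _ _ (fun t ht => ?_)
    refine (hJ t ht).trans (Finset.card_le_card ?_)
    intro e he
    rw [mem_filter] at he
    rw [mem_filter, hD, mem_filter]
    exact ⟨⟨he.2.1, t, ht, he.2.2⟩, he.2.2⟩
  have h3 : ∑ e ∈ D, (J.filter fun t => G.inc e (G.pos x t)).card ≤ D.card * 2 := by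
    rw [← smul_eq_mul]
    refine Finset.sum_le_card_nsmul _ _ _ (fun e _ => ?_)
    have : ((J.filter fun t => G.inc e (G.pos x t)).image (G.pos x)).card ≤
        ({G.a e, G.b e} : Finset V).card := by
      refine Finset.card_le_card ?_
      intro v hv
      rw [mem_image] at hv
      obtain ⟨t, ht, rfl⟩ := hv
      rw [mem_filter] at ht
      rcases ht.2 with h | h
      · rw [← h]; simp
      · rw [← h]; simp
    rw [Finset.card_image_of_injective _ (fun s t h => pos_inj h)] at this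
    exact this.trans Finset.card_le_two
  omega

/-- Row E15c. -/
theorem excess (H : G.Hyp x K β) (hng : ¬ G.Goal x K β) (hS : G.State x β φ L) :
    (∑ l ∈ (G.T x φ L).biUnion (G.LL x φ L), (G.X x φ L l).card) +
      (∑ ψ ∈ G.clean φ, (G.X x φ L ψ).card) + 2 * β =
    2 * ((G.T x φ L).biUnion (G.LL x φ L)).card + 2 * (G.clean φ).card + 2 := by
  obtain ⟨f, hf⟩ := exists_opt (G.LL x φ L)
  obtain ⟨-, hc⟩ := hS.opt H hng hf
  have hd : (G.T x φ L).card = ((G.T x φ L).biUnion (G.LL x φ L)).card + (om f).card := dm_card hf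
  set A := (G.T x φ L).biUnion (G.LL x φ L) with hA
  have hLL : ∀ t : G.El x, ∀ l, l ∈ G.LL x φ L t ↔ l ∈ L t ∧ l ∉ G.clean φ := by
    intro t l; unfold LL; rw [mem_sdiff]
  have h1 : ∑ l ∈ A, (G.X x φ L l).card = ∑ t ∈ G.T x φ L, (G.LL x φ L t).card := by
    have e2 : ∑ l ∈ A, (G.X x φ L l).card =
        ∑ t ∈ G.T x φ L, (A.filter fun l => l ∈ L t).card :=
      Finset.sum_card_bipartiteAbove_eq_sum_card_bipartiteBelow (fun l (t : G.El x) => l ∈ L t)
    rw [e2]
    refine Finset.sum_congr rfl (fun t ht => ?_)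
    congr 1
    ext l
    rw [mem_filter, hLL, hA, mem_biUnion]
    constructor
    · rintro ⟨⟨s, _, h2⟩, h3⟩
      rw [hLL] at h2
      exact ⟨h3, h2.2⟩
    · rintro ⟨h2, h3⟩
      exact ⟨⟨t, ht, by rw [hLL]; exact ⟨h2, h3⟩⟩, h2⟩
  have h2 : ∑ ψ ∈ G.clean φ, (G.X x φ L ψ).card = ∑ t ∈ G.T x φ L, (L t ∩ G.clean φ).card := by
    have e2 : ∑ ψ ∈ G.clean φ, (G.X x φ L ψ).card =
        ∑ t ∈ G.T x φ L, ((G.clean φ).filter fun l => l ∈ L t).card :=
      Finset.sum_card_bipartiteAbove_eq_sum_card_bipartiteBelow (fun l (t : G.El x) => l ∈ L t)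
    rw [e2]
    refine Finset.sum_congr rfl (fun t _ => ?_)
    congr 1
    ext l
    rw [mem_filter, mem_inter, and_comm]
  have h3 : ∑ t ∈ G.T x φ L, ((G.LL x φ L t).card + (L t ∩ G.clean φ).card) =
      (G.T x φ L).card * 2 := by
    rw [← smul_eq_mul, ← Finset.sum_const]
    refine Finset.sum_congr rfl (fun t _ => ?_)
    rw [← hS.two t]
    unfold LL
    exact Finset.card_sdiff_add_card_inter _ _
  rw [Finset.sum_add_distrib] at h3
  rw [h1, h2]
  omega

/- Row E15c. The excess formula: `∑_{l ∈ A} (|X l| - 2) + P = 2 (|clean| + 1 - β)`, `A` = the special colours in the lists of `T`; from `dm_card`,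
`|L t| = 2` and double counting. Written without subtraction. -/

/-- Row E15d, the final count: `p_i = #{ψ clean : |X ψ| = i}`, `p_0 + p_1 + p_2 = |clean|` (`card_X_clean`). `excess`: `∑_{l ∈ A}(|X l| - 2) =
2(1-β) + 2 p_0 + p_1`. If `p_0 > 0`: by `rich` (1) no `|X l| ≥ 3`, the sum is `≤ 0`, contradiction. So `p_0 = 0`. Let `D1` be the set of doubles
incident with positions of elements in the set of `card_J`; `|D1| ≥ p_2` by `card_J`, `card_dbl`. If `p_1 = 0` then `|dbl| ≥ p_2 = |clean|`. If `p_1 > 0`: every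
`l ∈ A` with `|X l| ≥ 3` is the colour of a double (`rich` (2)) with `|X l| = 3` (`rich` (1)) not in `D1` (`rich` (3)). So `p_1 ≤ ∑_{l ∈ A} (|X l| - 2) ≤
#{l ∈ A : |X l| = 3} ≤ |dbl \ D1|` and `|dbl| ≥ p_2 + p_1 = |clean|`. But `|clean| = |K| - |S| > |dbl|` (`St.card_clean`, `H.h3`). -/
theorem count (H : G.Hyp x K β) (hng : ¬ G.Goal x K β) (hE : G.Ext x β φ L) : False := by
  have hS := hE.state
  have hst := hS.st
  have hclean := hst.card_clean
  have h3 := H.h3
  have h4 := H.h4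
  have hβ := H.hβ
  have hX2 : ∀ ψ ∈ G.clean φ, (G.X x φ L ψ).card ≤ 2 := fun ψ hψ => card_X_clean H hng hS hψ
  have hex := excess H hng hS
  set A := (G.T x φ L).biUnion (G.LL x φ L) with hA
  have hAs : ∀ l ∈ A, l ∉ G.clean φ := by
    intro l hl
    rw [hA, mem_biUnion] at hl
    obtain ⟨t, -, ht⟩ := hl
    exact (mem_sdiff.1 ht).2
  -- every clean colour is a token on `T`
  have hX1 : ∀ ψ ∈ G.clean φ, 1 ≤ (G.X x φ L ψ).card := by
    intro ψ0 hψ0
    by_contra h0
    have h0' : (G.X x φ L ψ0).card = 0 := by omega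
    have hA2 : ∀ l ∈ A, (G.X x φ L l).card ≤ 2 := by
      intro l hl
      by_contra hc
      obtain ⟨e, he, hel, -⟩ := hst.special (hAs l hl)
      have h := (rich H hng hE hψ0 (by omega) he hel).1
      omega
    have h5 : (∑ l ∈ A, (G.X x φ L l).card) ≤ A.card * 2 := Finset.sum_le_card_nsmul _ _ _ hA2
    have h6 : (∑ ψ ∈ G.clean φ, (G.X x φ L ψ).card) ≤ ((G.clean φ).erase ψ0).card * 2 := by
      rw [← Finset.add_sum_erase _ _ hψ0, h0', zero_add]
      exact Finset.sum_le_card_nsmul _ _ _ fun ψ hψ => hX2 ψ (mem_of_mem_erase hψ)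
    rw [card_erase_of_mem hψ0] at h6
    have h7 := card_pos.2 ⟨ψ0, hψ0⟩
    omega
  set Q1 := (G.clean φ).filter fun ψ => (G.X x φ L ψ).card = 1 with hQ1
  set Q2 := (G.clean φ).filter fun ψ => (G.X x φ L ψ).card = 2 with hQ2
  have hQ : Q1.card + Q2.card = (G.clean φ).card := by
    rw [← Finset.card_filter_add_card_filter_not (s := G.clean φ)
      (fun ψ => (G.X x φ L ψ).card = 1)]
    congr 2
    rw [hQ2]
    refine Finset.filter_congr fun ψ hψ => ?_
    have := hX1 ψ hψ
    have := hX2 ψ hψ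
    omega
  have hsum : (∑ ψ ∈ G.clean φ, (G.X x φ L ψ).card) + Q1.card = 2 * (G.clean φ).card := by
    rw [hQ1, Finset.card_filter, ← Finset.sum_add_distrib, mul_comm, ← smul_eq_mul,
      ← Finset.sum_const]
    refine Finset.sum_congr rfl fun ψ hψ => ?_
    have h5 := hX1 ψ hψ
    have h6 := hX2 ψ hψ
    split_ifs with h
    · omega
    · omega
  set J := (G.T x φ L).filter fun t => 2 ≤ G.ddeg (G.pos x t) ∧ (L t ∩ G.clean φ).Nonempty with hJ
  set D1 := G.dbl.filter fun e => ∃ t ∈ J, G.inc e (G.pos x t) with hD1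
  have hJ2 : Q2.card ≤ J.card := card_J H hng hE
  have hJD : J.card ≤ D1.card := card_dbl J fun t ht => (mem_filter.1 ht).2.1
  have hD1s : D1 ⊆ G.dbl := filter_subset _ _
  have hD1c : D1.card ≤ G.dbl.card := card_le_card hD1s
  rcases Nat.eq_zero_or_pos Q1.card with hz | hpos
  · omega
  obtain ⟨ψ1, hψ1⟩ := card_pos.1 hpos
  obtain ⟨hψ1c, hψ1X⟩ := mem_filter.1 hψ1
  set A3 := A.filter fun l => 3 ≤ (G.X x φ L l).card with hA3
  have hl3 : ∀ l ∈ A, (G.X x φ L l).card ≤ 2 + (if 3 ≤ (G.X x φ L l).card then 1 else 0) := by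
    intro l hl
    split_ifs with h
    · obtain ⟨e, he, hel, -⟩ := hst.special (hAs l hl)
      have h := (rich H hng hE hψ1c h he hel).1
      omega
    · omega
  have hsumA : (∑ l ∈ A, (G.X x φ L l).card) ≤ 2 * A.card + A3.card := by
    refine (Finset.sum_le_sum hl3).trans ?_
    rw [Finset.sum_add_distrib, Finset.sum_const, hA3, Finset.card_filter]
    simp [mul_comm]
  -- the special edges of the rich colours
  have hA3D : A3.card ≤ (G.dbl \ D1).card := by
    have h5 : A3.image some ⊆ (G.dbl \ D1).image φ := by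
      intro o ho
      obtain ⟨l, hl, rfl⟩ := mem_image.1 ho
      obtain ⟨hlA, hlX⟩ := mem_filter.1 hl
      obtain ⟨e, he, hel, -⟩ := hst.special (hAs l hlA)
      refine mem_image.2 ⟨e, ?_, hel⟩
      have hr := rich H hng hE hψ1c hlX he hel
      rw [mem_sdiff]
      constructor
      · rw [dbl, mem_filter]
        refine ⟨he, fun v hv => ?_⟩
        have := hr.2.1 ⟨v, hv⟩
        omega
      · intro heD
        obtain ⟨-, t, htJ, hinc⟩ := mem_filter.1 heD
        obtain ⟨htT, -, ψ, hψ⟩ := mem_filter.1 htJ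
        rw [mem_inter] at hψ
        exact (rich H hng hE hψ.2 hlX he hel).2.2 t htT hψ.1 hinc
    calc A3.card = (A3.image some).card := (card_image_of_injective _ (Option.some_injective K)).symm
      _ ≤ ((G.dbl \ D1).image φ).card := card_le_card h5
      _ ≤ _ := card_image_le
  have hsd : (G.dbl \ D1).card + D1.card = G.dbl.card := card_sdiff_add_card_eq_card hD1s
  omega

/-- Row E16 (done here): the centre theorem -/
theorem center (H : G.Hyp x K β) (h : ∃ χ : E → Option K, G.Good χ ∧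
    (∀ e, χ e = none → e ∈ G.ord x) ∧ (univ.filter fun e => χ e = none).card + β ≤ 1) :
    G.Goal x K β := by
  by_contra hng
  obtain ⟨χ, h1, h2, h3⟩ := h
  obtain ⟨φ, L, hE⟩ := ext_exists (state_exists H h1 h2 h3)
  exact count H hng hE

end MG

end MP405E
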