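import Mathlib
import Pool.Agent.Lib.MP_405d56_lc.ECount

set_option autoImplicit false

namespace MP405E

open Finset Classical

section Final

variable {V K : Type} [Fintype V] [Fintype K]

/-- the boundary colours in use -/
noncomputable def usedc (B : V → Finset K) : Finset K := univ.filter fun c => ∃ v, c ∈ B v

/-- degree without instance problems -/
noncomputable def dg (Q : SimpleGraph V) (v : V) : ℕ := (univ.filter fun w => Q.Adj v w).card

/-- the boundary colours have been renamed injectively by `col`, and `C` is a proper colouring of `Q` avoiding the renamed colours -/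
structure GoodS (Q : SimpleGraph V) (B : V → Finset K) (C : Sym2 V → K) (col : K → K) : Prop where
  proper : ∀ e ∈ Q.edgeSet, ∀ e' ∈ Q.edgeSet, ∀ v, v ∈ e → v ∈ e' → C e = C e' → e = e'
  inj : ∀ c ∈ usedc B, ∀ c' ∈ usedc B, col c = col c' → c = c'
  avoid : ∀ v, ∀ c ∈ B v, ∀ e ∈ Q.edgeSet, v ∈ e → C e ≠ col c

theorem e17_out {V : Type} (e : Sym2 V) : s((Quot.out e).1, (Quot.out e).2) = e :=
  Quot.out_eq e

/-- the multigraph: one special edge per boundary colour in use, joining the (at most two) vertices with this colour; if there is only one, the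
other end is a private leaf -/
noncomputable def toMG (Q : SimpleGraph V) (B : V → Finset K) :
    MG (V ⊕ K) ({e : Sym2 V // e ∈ Q.edgeSet} ⊕ {c : K // c ∈ usedc B}) where
  a e := match e with
    | Sum.inl e => Sum.inl (Quot.out e.1).1
    | Sum.inr c => Sum.inl ((mem_filter.1 c.2).2).choose
  b e := match e with
    | Sum.inl e => Sum.inl (Quot.out e.1).2
    | Sum.inr c => if h : ∃ v, v ≠ ((mem_filter.1 c.2).2).choose ∧ c.1 ∈ B v then Sum.inl h.choose
        else Sum.inr c.1
  ne := by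
    intro e
    rcases e with e | c
    · have h := e.2
      have h2 : s((Quot.out e.1).1, (Quot.out e.1).2) ∈ Q.edgeSet := by rw [e17_out]; exact h
      have h3 : (Quot.out e.1).1 ≠ (Quot.out e.1).2 := (SimpleGraph.mem_edgeSet Q |>.mp h2).ne
      intro h4
      exact h3 (Sum.inl.inj h4)
    · by_cases h : ∃ v, v ≠ ((mem_filter.1 c.2).2).choose ∧ c.1 ∈ B v
      · intro h4
        simp only [dif_pos h] at h4
        exact h.choose_spec.1 (Sum.inl.inj h4).symm
      · intro h4
        simp only [dif_neg h] at h4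
        exact absurd h4 (by simp)
  S := univ.filter fun e => ∃ c, e = Sum.inr c
  simple := by
    intro e e' he he' h
    rcases e with e | c
    · rcases e' with e' | c'
      · congr 1
        apply Subtype.ext
        rw [← e17_out e.1, ← e17_out e'.1]
        have h1 := congrArg (Sym2.map (Sum.elim id fun _ => (Quot.out e.1).1)) h
        simpa using h1
      · exact absurd (mem_filter.2 ⟨mem_univ _, c', rfl⟩) he'
    · exact absurd (mem_filter.2 ⟨mem_univ _, c, rfl⟩) he

/-- Row E17: incidences -/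
theorem toMG_inc_inl (Q : SimpleGraph V) (B : V → Finset K) (e : {e : Sym2 V // e ∈ Q.edgeSet})
    (v : V) : (toMG Q B).inc (Sum.inl e) (Sum.inl v) ↔ v ∈ e.1 := by
  have h : v ∈ e.1 ↔ v ∈ s((Quot.out e.1).1, (Quot.out e.1).2) := by rw [e17_out]
  rw [h, Sym2.mem_iff]
  constructor
  · rintro (h | h)
    · exact Or.inl (Sum.inl.inj h).symm
    · exact Or.inr (Sum.inl.inj h).symm
  · rintro (h | h)
    · exact Or.inl (congrArg Sum.inl h.symm)
    · exact Or.inr (congrArg Sum.inl h.symm)

theorem toMG_inc_inr (Q : SimpleGraph V) (B : V → Finset K)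
    (h3 : ∀ c, (univ.filter fun v => c ∈ B v).card ≤ 2) (c : {c : K // c ∈ usedc B}) (v : V) :
    (toMG Q B).inc (Sum.inr c) (Sum.inl v) ↔ c.1 ∈ B v := by
  have h0 : c.1 ∈ B ((mem_filter.1 c.2).2).choose := ((mem_filter.1 c.2).2).choose_spec
  constructor
  · rintro (h | h)
    · rw [← Sum.inl.inj h]; exact h0
    · by_cases h1 : ∃ v, v ≠ ((mem_filter.1 c.2).2).choose ∧ c.1 ∈ B v
      · simp only [toMG, dif_pos h1] at h
        rw [← Sum.inl.inj h]
        exact h1.choose_spec.2
      · simp only [toMG, dif_neg h1] at h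
        exact absurd h (by simp)
  · intro hv
    by_cases h1 : v = ((mem_filter.1 c.2).2).choose
    · exact Or.inl (congrArg Sum.inl h1.symm)
    · have h2 : ∃ v, v ≠ ((mem_filter.1 c.2).2).choose ∧ c.1 ∈ B v := ⟨v, h1, hv⟩
      right
      simp only [toMG, dif_pos h2]
      congr 1
      by_contra h4
      have h5 : ({h2.choose, v, ((mem_filter.1 c.2).2).choose} : Finset V) ⊆
          univ.filter fun v => c.1 ∈ B v := by
        intro u hu
        simp only [mem_insert, mem_singleton] at hu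
        rw [mem_filter]
        refine ⟨mem_univ _, ?_⟩
        rcases hu with rfl | rfl | rfl
        · exact h2.choose_spec.2
        · exact hv
        · exact h0
      have h6 := (card_le_card h5).trans (h3 c.1)
      rw [card_eq_three.2 ⟨_, _, _, h4, h2.choose_spec.1, h1, rfl⟩] at h6
      omega

theorem toMG_inc_leaf (Q : SimpleGraph V) (B : V → Finset K) (e) (c : K) :
    (toMG Q B).inc e (Sum.inr c) → ∃ h : c ∈ usedc B, e = Sum.inr ⟨c, h⟩ := by
  rcases e with e | c'
  · rintro (h | h)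
    · exact absurd h (by simp [toMG])
    · exact absurd h (by simp [toMG])
  · rintro (h | h)
    · exact absurd h (by simp [toMG])
    · by_cases h1 : ∃ v, v ≠ ((mem_filter.1 c'.2).2).choose ∧ c'.1 ∈ B v
      · simp only [toMG, dif_pos h1] at h
        exact absurd h (by simp)
      · simp only [toMG, dif_neg h1] at h
        have h2 := Sum.inr.inj h
        subst h2
        exact ⟨c'.2, rfl⟩

theorem e17_card_inl (Q : SimpleGraph V) (v : V) :
    (univ.filter fun e : {e : Sym2 V // e ∈ Q.edgeSet} => v ∈ e.1).card = dg Q v := by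
  symm
  refine card_bij (fun w hw => ⟨s(v, w), (mem_filter.1 hw).2⟩) ?_ ?_ ?_
  · intro w hw
    rw [mem_filter]
    exact ⟨mem_univ _, Sym2.mem_mk_left _ _⟩
  · intro w hw w' hw' h
    exact Sym2.congr_right.mp (congrArg Subtype.val h)
  · rintro ⟨e, he⟩ hv
    rw [mem_filter] at hv
    obtain ⟨w, rfl⟩ := Sym2.mem_iff_exists.mp hv.2
    exact ⟨w, mem_filter.2 ⟨mem_univ _, he⟩, rfl⟩

theorem e17_card_inr (B : V → Finset K) (v : V) :
    (univ.filter fun c : {c : K // c ∈ usedc B} => c.1 ∈ B v).card = (B v).card := by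
  symm
  refine card_bij (fun c hc => ⟨c, mem_filter.2 ⟨mem_univ _, v, hc⟩⟩) ?_ ?_ ?_
  · intro c hc
    rw [mem_filter]
    exact ⟨mem_univ _, hc⟩
  · intro c hc c' hc' h
    exact congrArg Subtype.val h
  · rintro ⟨c, hc⟩ h
    rw [mem_filter] at h
    exact ⟨c, h.2, rfl⟩

theorem e17_card_sum {α β : Type} [Fintype α] [Fintype β] (p : α ⊕ β → Prop)
    [DecidablePred p] :
    (univ.filter p).card = (univ.filter fun x => p (Sum.inl x)).card +
      (univ.filter fun x => p (Sum.inr x)).card := by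
  rw [card_filter, card_filter, card_filter, Fintype.sum_sum_type]

theorem e17_card_sum' {α β : Type} [Fintype α] [Fintype β] (p : α ⊕ β → Prop)
    {_ : DecidablePred p} (A : Finset α) (B' : Finset β) (hA : ∀ x, x ∈ A ↔ p (Sum.inl x))
    (hB : ∀ x, x ∈ B' ↔ p (Sum.inr x)) : (univ.filter p).card = A.card + B'.card := by
  rw [e17_card_sum]
  congr 2
  · ext x; simp [hA]
  · ext x; simp [hB]

theorem e17_mem_S (Q : SimpleGraph V) (B : V → Finset K) (c : {c : K // c ∈ usedc B}) :
    (Sum.inr c : {e : Sym2 V // e ∈ Q.edgeSet} ⊕ {c : K // c ∈ usedc B}) ∈ (toMG Q B).S :=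
  mem_filter.2 ⟨mem_univ _, c, rfl⟩

theorem e17_not_mem_S (Q : SimpleGraph V) (B : V → Finset K) (e : {e : Sym2 V // e ∈ Q.edgeSet}) :
    (Sum.inl e : {e : Sym2 V // e ∈ Q.edgeSet} ⊕ {c : K // c ∈ usedc B}) ∉ (toMG Q B).S := by
  intro h
  obtain ⟨c, hc⟩ := (mem_filter.1 h).2
  exact absurd hc (by simp)

/-- Row E17: degrees -/
theorem toMG_tdeg (Q : SimpleGraph V) (B : V → Finset K)
    (h3 : ∀ c, (univ.filter fun v => c ∈ B v).card ≤ 2) (v : V) :
    (toMG Q B).tdeg (Sum.inl v) = dg Q v + (B v).card ∧ (toMG Q B).sdeg (Sum.inl v) = (B v).card := by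
  constructor
  · rw [MG.tdeg, e17_card_sum, ← e17_card_inl, ← e17_card_inr B v]
    congr 2
    · ext e
      rw [mem_filter, mem_filter, toMG_inc_inl]
    · ext c
      rw [mem_filter, mem_filter, toMG_inc_inr Q B h3]
  · rw [MG.sdeg, ← e17_card_inr B v]
    refine (e17_card_sum' _ ∅ (univ.filter fun c => c.1 ∈ B v) ?_ ?_).trans ?_
    · intro e
      refine iff_of_false (by simp) fun h => e17_not_mem_S Q B e h.1
    · intro c
      rw [mem_filter, toMG_inc_inr Q B h3]
      simp [e17_mem_S]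
    · rw [card_empty, zero_add]

theorem toMG_tdeg_leaf (Q : SimpleGraph V) (B : V → Finset K) (c : K) :
    (toMG Q B).tdeg (Sum.inr c) ≤ 1 := by
  rw [MG.tdeg, card_le_one]
  intro e he e' he'
  obtain ⟨h, rfl⟩ := toMG_inc_leaf Q B e c (mem_filter.1 he).2
  obtain ⟨h', rfl⟩ := toMG_inc_leaf Q B e' c (mem_filter.1 he').2
  rfl

/-- Row E17: a colour in two lists gives a special edge counted twice on the left, a colour in one list gives a special edge with a private leaf -/
theorem toMG_dbl (Q : SimpleGraph V) (B : V → Finset K)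
    (h3 : ∀ c, (univ.filter fun v => c ∈ B v).card ≤ 2) :
    (toMG Q B).dbl.card + (toMG Q B).S.card ≤ ∑ v, (B v).card := by
  have _ := h3
  have hS : (toMG Q B).S.card = ∑ _c : {c : K // c ∈ usedc B}, 1 := by
    have : (toMG Q B).S = univ.filter fun e => ∃ c, e = Sum.inr c := rfl
    rw [this, e17_card_sum]
    simp
  have hD : (toMG Q B).dbl.card = ∑ c : {c : K // c ∈ usedc B},
      if (Sum.inr c : {e : Sym2 V // e ∈ Q.edgeSet} ⊕ {c : K // c ∈ usedc B}) ∈ (toMG Q B).dbl
        then 1 else 0 := by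
    have : (toMG Q B).dbl = univ.filter fun e => e ∈ (toMG Q B).dbl := by ext e; simp
    rw [this, e17_card_sum, card_filter, card_filter]
    simp only [mem_filter, mem_univ, true_and]
    rw [Nat.add_eq_right]
    refine sum_eq_zero fun e _ => if_neg fun h => ?_
    exact e17_not_mem_S Q B e (mem_filter.1 h).1
  have hB : ∑ v, (B v).card = ∑ c : {c : K // c ∈ usedc B}, (univ.filter fun v => c.1 ∈ B v).card := by
    calc ∑ v, (B v).card = ∑ v, ∑ c : {c : K // c ∈ usedc B}, if c.1 ∈ B v then 1 else 0 := by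
          refine sum_congr rfl fun v _ => ?_
          rw [← e17_card_inr B v, card_filter]
      _ = ∑ c : {c : K // c ∈ usedc B}, ∑ v, if c.1 ∈ B v then 1 else 0 := sum_comm
      _ = _ := by
          refine sum_congr rfl fun c _ => ?_
          rw [card_filter]
  rw [hS, hD, hB, ← sum_add_distrib]
  refine sum_le_sum fun c _ => ?_
  have h0 : c.1 ∈ B ((mem_filter.1 c.2).2).choose := ((mem_filter.1 c.2).2).choose_spec
  by_cases h1 : ∃ v, v ≠ ((mem_filter.1 c.2).2).choose ∧ c.1 ∈ B v
  · have h2 : 2 ≤ (univ.filter fun v => c.1 ∈ B v).card := by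
      have h4 : ({h1.choose, ((mem_filter.1 c.2).2).choose} : Finset V) ⊆
          univ.filter fun v => c.1 ∈ B v := by
        intro u hu
        simp only [mem_insert, mem_singleton] at hu
        rw [mem_filter]
        refine ⟨mem_univ _, ?_⟩
        rcases hu with rfl | rfl
        · exact h1.choose_spec.2
        · exact h0
      have h5 := card_le_card h4
      rwa [card_pair h1.choose_spec.1] at h5
    split_ifs <;> omega
  · have h2 : (Sum.inr c : {e : Sym2 V // e ∈ Q.edgeSet} ⊕ {c : K // c ∈ usedc B}) ∉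
        (toMG Q B).dbl := by
      intro h
      refine (mem_filter.1 h).2 (Sum.inr c.1) ⟨Or.inr ?_, fun e' he' => ?_⟩
      · simp only [toMG, dif_neg h1]
      · obtain ⟨h', rfl⟩ := toMG_inc_leaf Q B e' c.1 he'
        rfl
    rw [if_neg h2, zero_add]
    exact card_pos.2 ⟨_, mem_filter.2 ⟨mem_univ _, h0⟩⟩

theorem e18_mem_clean {V E K : Type} [Fintype V] [Fintype E] [Fintype K] (G : MG V E)
    (φ : E → Option K) (c : K) : c ∈ G.clean φ ↔ ∀ e ∈ G.S, φ e ≠ some c := by
  simp only [MG.clean, mem_filter, mem_univ, true_and]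

theorem e18_mem_mis {V E K : Type} [Fintype V] [Fintype E] [Fintype K] (G : MG V E)
    (φ : E → Option K) (v : V) (c : K) : c ∈ G.mis φ v ↔ ∀ e, G.inc e v → φ e ≠ some c := by
  simp only [MG.mis, mem_filter, mem_univ, true_and]

/-- Row E18: a total good colouring of the multigraph gives `GoodS` -/
theorem toMG_good [Nonempty K] (Q : SimpleGraph V) (B : V → Finset K)
    (h3 : ∀ c, (univ.filter fun v => c ∈ B v).card ≤ 2)
    {χ : {e : Sym2 V // e ∈ Q.edgeSet} ⊕ {c : K // c ∈ usedc B} → Option K}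
    (hg : (toMG Q B).Good χ) (ht : ∀ e, χ e ≠ none) :
    ∃ C col, GoodS Q B C col ∧ (∀ c ∈ usedc B, col c ∉ (toMG Q B).clean χ) ∧
      ∀ y : V, ∀ c ∈ (toMG Q B).mis χ (Sum.inl y), ∀ e ∈ Q.edgeSet, y ∈ e → C e ≠ c := by
  have ht' : ∀ e, ∃ c, χ e = some c := fun e => Option.ne_none_iff_exists'.1 (ht e)
  choose D hD using ht'
  have hS : ∀ c, (Sum.inr c : {e : Sym2 V // e ∈ Q.edgeSet} ⊕ {c : K // c ∈ usedc B}) ∈
      (toMG Q B).S := fun c => by
    show _ ∈ univ.filter _
    exact mem_filter.2 ⟨mem_univ _, c, rfl⟩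
  have hused : ∀ v c, c ∈ B v → c ∈ usedc B := fun v c hc =>
    mem_filter.2 ⟨mem_univ _, v, hc⟩
  refine ⟨fun e => if h : e ∈ Q.edgeSet then D (Sum.inl ⟨e, h⟩) else Classical.arbitrary K,
    fun c => if h : c ∈ usedc B then D (Sum.inr ⟨c, h⟩) else c, ⟨?_, ?_, ?_⟩, ?_, ?_⟩
  · intro e he e' he' v hv hv' h
    simp only [dif_pos he, dif_pos he'] at h
    have h1 := hg.proper (Sum.inl ⟨e, he⟩) (Sum.inl ⟨e', he'⟩) (Sum.inl v) (D (Sum.inl ⟨e, he⟩))
      ((toMG_inc_inl Q B _ _).2 hv) ((toMG_inc_inl Q B _ _).2 hv') (hD _) (by rw [hD, h])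
    exact congrArg Subtype.val (Sum.inl.inj h1)
  · intro c hc c' hc' h
    simp only [dif_pos hc, dif_pos hc'] at h
    have h1 := hg.rainbow (Sum.inr ⟨c, hc⟩) (hS _) (Sum.inr ⟨c', hc'⟩) (hS _)
      (D (Sum.inr ⟨c, hc⟩)) (hD _) (by rw [hD, h])
    exact congrArg Subtype.val (Sum.inr.inj h1)
  · intro v c hc e he hv h
    have hc' := hused v c hc
    simp only [dif_pos he, dif_pos hc'] at h
    have h1 := hg.proper (Sum.inl ⟨e, he⟩) (Sum.inr ⟨c, hc'⟩) (Sum.inl v) (D (Sum.inl ⟨e, he⟩))
      ((toMG_inc_inl Q B _ _).2 hv) ((toMG_inc_inr Q B h3 _ _).2 hc) (hD _) (by rw [hD, h])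
    exact absurd h1 (by simp)
  · intro c hc h
    simp only [dif_pos hc] at h
    exact (e18_mem_clean _ _ _).1 h _ (hS ⟨c, hc⟩) (hD _)
  · intro y c hc e he hy h
    simp only [dif_pos he] at h
    exact (e18_mem_mis _ _ _ _).1 hc (Sum.inl ⟨e, he⟩) ((toMG_inc_inl Q B _ _).2 hy) (by rw [hD, h])

/-- Row E18: `GoodS` for `Q - e0` gives a good colouring of the multigraph of `Q` where only `e0` is not coloured (if it is an edge of `Q`) -/
theorem toMG_of_good (Q : SimpleGraph V) (B : V → Finset K)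
    (h3 : ∀ c, (univ.filter fun v => c ∈ B v).card ≤ 2) (e0 : Sym2 V) {C : Sym2 V → K}
    {col : K → K} (h : GoodS (Q.deleteEdges {e0}) B C col) :
    ∃ χ : {e : Sym2 V // e ∈ Q.edgeSet} ⊕ {c : K // c ∈ usedc B} → Option K,
      (toMG Q B).Good χ ∧ (∀ e, χ e = none ↔ ∃ e', e = Sum.inl e' ∧ e'.1 = e0) ∧
      (∀ c, (∀ c' ∈ usedc B, col c' ≠ c) → c ∈ (toMG Q B).clean χ) ∧
      ∀ y c, (∀ e ∈ (Q.deleteEdges {e0}).edgeSet, y ∈ e → C e ≠ c) → (∀ c' ∈ B y, col c' ≠ c) →
        c ∈ (toMG Q B).mis χ (Sum.inl y) := by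
  have hdel : ∀ e : Sym2 V, e ∈ Q.edgeSet → e ≠ e0 → e ∈ (Q.deleteEdges {e0}).edgeSet := by
    intro e he hne
    rw [SimpleGraph.edgeSet_deleteEdges]
    exact ⟨he, fun h => hne h⟩
  have hS : ∀ e, e ∈ (toMG Q B).S → ∃ c, e = Sum.inr c := fun e he => (mem_filter.1 he).2
  refine ⟨Sum.elim (fun e => if e.1 = e0 then none else some (C e.1)) fun c => some (col c.1),
    ⟨?_, ?_⟩, ?_, ?_, ?_⟩
  · intro e e' v c h1 h2 h4 h5
    rcases v with v | c0
    · rcases e with e | d <;> rcases e' with e' | d'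
      · rw [toMG_inc_inl] at h1 h2
        simp only [Sum.elim_inl] at h4 h5
        have hne : e.1 ≠ e0 := fun h => by simp [h] at h4
        have hne' : e'.1 ≠ e0 := fun h => by simp [h] at h5
        rw [if_neg hne] at h4
        rw [if_neg hne'] at h5
        have h6 := h.proper e.1 (hdel _ e.2 hne) e'.1 (hdel _ e'.2 hne') v h1 h2
          ((Option.some.inj h4).trans (Option.some.inj h5).symm)
        rw [Subtype.ext h6]
      · rw [toMG_inc_inl] at h1
        rw [toMG_inc_inr Q B h3] at h2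
        simp only [Sum.elim_inl, Sum.elim_inr] at h4 h5
        have hne : e.1 ≠ e0 := fun h => by simp [h] at h4
        rw [if_neg hne] at h4
        exact absurd ((Option.some.inj h4).trans (Option.some.inj h5).symm)
          (h.avoid v d'.1 h2 e.1 (hdel _ e.2 hne) h1)
      · rw [toMG_inc_inl] at h2
        rw [toMG_inc_inr Q B h3] at h1
        simp only [Sum.elim_inl, Sum.elim_inr] at h4 h5
        have hne : e'.1 ≠ e0 := fun h => by simp [h] at h5
        rw [if_neg hne] at h5
        exact absurd ((Option.some.inj h5).trans (Option.some.inj h4).symm)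
          (h.avoid v d.1 h1 e'.1 (hdel _ e'.2 hne) h2)
      · simp only [Sum.elim_inr] at h4 h5
        have h6 := h.inj d.1 d.2 d'.1 d'.2 ((Option.some.inj h4).trans (Option.some.inj h5).symm)
        rw [Subtype.ext h6]
    · obtain ⟨hc, rfl⟩ := toMG_inc_leaf Q B e c0 h1
      obtain ⟨hc', rfl⟩ := toMG_inc_leaf Q B e' c0 h2
      rfl
  · intro e he e' he' c h4 h5
    obtain ⟨d, rfl⟩ := hS e he
    obtain ⟨d', rfl⟩ := hS e' he'
    simp only [Sum.elim_inr] at h4 h5
    have h6 := h.inj d.1 d.2 d'.1 d'.2 ((Option.some.inj h4).trans (Option.some.inj h5).symm)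
    rw [Subtype.ext h6]
  · intro e
    rcases e with e | d
    · by_cases he : e.1 = e0
      · simp [he]
      · simp [he]
    · simp
  · intro c hc
    refine (e18_mem_clean _ _ _).2 fun e he h4 => ?_
    obtain ⟨d, rfl⟩ := hS e he
    simp only [Sum.elim_inr] at h4
    exact hc d.1 d.2 (Option.some.inj h4)
  · intro y c h1 h2
    refine (e18_mem_mis _ _ _ _).2 fun e he h4 => ?_
    rcases e with e | d
    · rw [toMG_inc_inl] at he
      simp only [Sum.elim_inl] at h4
      have hne : e.1 ≠ e0 := fun h => by simp [h] at h4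
      rw [if_neg hne] at h4
      exact h1 e.1 (hdel _ e.2 hne) he (Option.some.inj h4)
    · rw [toMG_inc_inr Q B h3] at he
      simp only [Sum.elim_inr] at h4
      exact h2 d.1 he (Option.some.inj h4)

theorem e19_inc_oth {V E : Type} (G : MG V E) {e : E} {v : V} (_h : G.inc e v) :
    G.inc e (G.oth e v) ∧ G.oth e v ≠ v := by
  unfold MG.oth
  by_cases ha : G.a e = v
  · rw [if_pos ha]
    exact ⟨Or.inr rfl, fun hb => G.ne e (ha.trans hb.symm)⟩
  · rw [if_neg ha]
    exact ⟨Or.inl rfl, ha⟩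

theorem e19_dg_mono {Q Q' : SimpleGraph V} (h : Q' ≤ Q) (v : V) : dg Q' v ≤ dg Q v := by
  refine card_le_card fun w hw => ?_
  rw [mem_filter] at hw ⊢
  exact ⟨hw.1, h hw.2⟩

theorem e19_dg_del (Q : SimpleGraph V) (e0 : Sym2 V) (v : V) :
    dg (Q.deleteEdges {e0}) v ≤ dg Q v := e19_dg_mono (SimpleGraph.deleteEdges_le {e0}) v

/-- number of edges -/
noncomputable def e19_nE (Q : SimpleGraph V) : ℕ := (univ.filter fun e : Sym2 V => e ∈ Q.edgeSet).card

theorem e19_nE_lt {Q Q' : SimpleGraph V} (h : ∀ e, e ∈ Q'.edgeSet → e ∈ Q.edgeSet) {e0 : Sym2 V}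
    (h1 : e0 ∈ Q.edgeSet) (h2 : e0 ∉ Q'.edgeSet) : e19_nE Q' < e19_nE Q := by
  refine card_lt_card ⟨fun e he => ?_, fun h' => ?_⟩
  · rw [mem_filter] at he
    exact mem_filter.2 ⟨he.1, h e he.2⟩
  · exact h2 (mem_filter.1 (h' (mem_filter.2 ⟨mem_univ e0, h1⟩))).2

/-- one step of the induction -/
theorem e19_step (Q : SimpleGraph V) (B : V → Finset K)
    (h1 : ∀ v, dg Q v + (B v).card + 1 ≤ Fintype.card K)
    (h2 : (∑ v, (B v).card) + 2 ≤ Fintype.card K)
    (h3 : ∀ c, (univ.filter fun v => c ∈ B v).card ≤ 2) (e0 : Sym2 V) (x : V)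
    (hx0 : x ∈ e0) (hx : ∀ v, Q.Adj x v → dg Q v + (B v).card + (B x).card + 1 ≤ Fintype.card K)
    (hI : ∃ C col, GoodS (Q.deleteEdges {e0}) B C col) :
    ∃ C col, GoodS Q B C col := by
  obtain ⟨C, col, hC⟩ := hI
  obtain ⟨χ, hg, hn, -, -⟩ := toMG_of_good Q B h3 e0 hC
  have hK : Nonempty K := Fintype.card_pos_iff.1 (by omega)
  have hS : ∀ e, e ∈ (toMG Q B).S ↔ ∃ c, e = Sum.inr c := fun e => by
    show e ∈ univ.filter _ ↔ _
    simp
  have hd := toMG_dbl Q B h3
  have hH : (toMG Q B).Hyp (Sum.inl x) K 0 := by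
    refine ⟨by omega, ?_, ?_, ?_, by omega, by omega⟩
    · rintro (v | c)
      · rw [(toMG_tdeg Q B h3 v).1]
        exact h1 v
      · have := toMG_tdeg_leaf Q B c
        omega
    · intro e he
      have he' := (MG.mem_ord _).1 he
      rcases e with e | d
      · obtain ⟨h4, h5⟩ := e19_inc_oth _ he'.2
        rw [(toMG_tdeg Q B h3 x).2]
        generalize (toMG Q B).oth (Sum.inl e) (Sum.inl x) = u at h4 h5
        rcases u with w | c
        · rw [toMG_inc_inl] at h4
          have h6 := (toMG_inc_inl Q B _ _).1 he'.2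
          have h7 : e.1 = s(x, w) := ((Sym2.mem_and_mem_iff fun h => h5 (by rw [h])).1 ⟨h6, h4⟩)
          have h8 : Q.Adj x w := by
            have := e.2
            rw [h7] at this
            exact this
          rw [(toMG_tdeg Q B h3 w).1]
          exact hx w h8
        · obtain ⟨_, h6⟩ := toMG_inc_leaf Q B _ c h4
          exact absurd h6 (by simp)
      · exact absurd ((hS _).2 ⟨d, rfl⟩) he'.1
    · rw [(toMG_tdeg Q B h3 x).1]
      exact h1 x
  have hcen := MG.center hH ⟨χ, hg, fun e he => ?_, ?_⟩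
  · obtain ⟨χ', hg', ht', -⟩ := hcen
    obtain ⟨C', col', h4, -⟩ := toMG_good Q B h3 hg' ht'
    exact ⟨C', col', h4⟩
  · obtain ⟨e', rfl, h4⟩ := (hn e).1 he
    refine (MG.mem_ord _).2 ⟨fun h => ?_, ?_⟩
    · obtain ⟨c, hc⟩ := (hS _).1 h
      exact absurd hc (by simp)
    · rw [toMG_inc_inl, h4]
      exact hx0
  · rw [add_zero, card_le_one]
    intro e he e1 he1
    obtain ⟨e', rfl, h4⟩ := (hn e).1 (mem_filter.1 he).2
    obtain ⟨e1', rfl, h5⟩ := (hn e1).1 (mem_filter.1 he1).2
    rw [Subtype.ext (h4.trans h5.symm)]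

/-- Row E19, no exceptional vertex. Proof: induction on the number of edges of `Q`. No edges: `GoodS` with `col = id` (`C` arbitrary; if `K` is
empty ... `K` is not empty because `|K| ≥ 2`). Otherwise:
Case 1: some edge `e0 = s(x,y)` of `Q` with `B x = ∅`. By induction `GoodS` for `Q - e0`, `toMG_of_good`, `MG.center` with centre `x`, `β = 0`
(`sdeg x = 0`, `tdeg ≤ |K| - 1` at all vertices), `toMG_good`.
Case 2: `B v ≠ ∅` for both ends of every edge. Take any edge `e0 = s(x,y)`; the same with centre `x`; the condition `h1`: for an edge `s(x,v)`: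
all neighbours `w` of `v` are in `W = {w | B w ≠ ∅}`, `dg v ≤ |W| - 1`, and `|W| ≤ ∑ |B w| - (|B x| - 1) - (|B v| - 1)`, so
`tdeg v + sdeg x ≤ |W| - 1 + |B v| + |B x| ≤ ∑ |B w| + 1 ≤ |K| - 1`. -/
theorem wires (Q : SimpleGraph V) (B : V → Finset K)
    (h1 : ∀ v, dg Q v + (B v).card + 1 ≤ Fintype.card K)
    (h2 : (∑ v, (B v).card) + 2 ≤ Fintype.card K)
    (h3 : ∀ c, (univ.filter fun v => c ∈ B v).card ≤ 2) :
    ∃ C col, GoodS Q B C col := by
  have hK : Nonempty K := Fintype.card_pos_iff.1 (by omega)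
  obtain ⟨n, hn⟩ : ∃ n, e19_nE Q = n := ⟨_, rfl⟩
  induction n using Nat.strong_induction_on generalizing Q with
  | _ n ih =>
    by_cases hne : ∃ e, e ∈ Q.edgeSet
    swap
    · refine ⟨fun _ => Classical.arbitrary K, id, ⟨?_, ?_, ?_⟩⟩
      · intro e he
        exact absurd ⟨e, he⟩ hne
      · intro c _ c' _ h
        exact h
      · intro v c _ e he
        exact absurd ⟨e, he⟩ hne
    have hI : ∀ e0 ∈ Q.edgeSet, ∃ C col, GoodS (Q.deleteEdges {e0}) B C col := by
      intro e0 he0
      refine ih _ ?_ (Q.deleteEdges {e0}) (fun v => ?_) rfl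
      · rw [← hn]
        refine e19_nE_lt (fun e he => ?_) he0 fun h => ?_
        · rw [SimpleGraph.edgeSet_deleteEdges] at he
          exact he.1
        · rw [SimpleGraph.edgeSet_deleteEdges] at h
          exact h.2 rfl
      · have := e19_dg_del Q e0 v
        have := h1 v
        omega
    by_cases hcase : ∃ e ∈ Q.edgeSet, ∃ x ∈ e, B x = ∅
    · obtain ⟨e0, he0, x, hx, hB⟩ := hcase
      refine e19_step Q B h1 h2 h3 e0 x hx (fun v _ => ?_) (hI e0 he0)
      rw [hB, card_empty, add_zero]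
      exact h1 v
    · push Not at hcase
      obtain ⟨e0, he0⟩ := hne
      induction e0 using Sym2.ind with
      | _ x y =>
        refine e19_step Q B h1 h2 h3 s(x, y) x (Sym2.mem_mk_left x y) (fun v hv => ?_)
          (hI _ he0)
        have hx1 : 1 ≤ (B x).card :=
          card_pos.2 (hcase s(x, v) hv x (Sym2.mem_mk_left x v))
        have hv1 : 1 ≤ (B v).card :=
          card_pos.2 (hcase s(x, v) hv v (Sym2.mem_mk_right x v))
        have hxv : x ≠ v := hv.ne
        set W : Finset V := univ.filter fun w => (B w).Nonempty with hW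
        have hdg : dg Q v + 1 ≤ W.card := by
          have h4 : insert v (univ.filter fun w => Q.Adj v w) ⊆ W := by
            intro w hw
            rw [mem_insert, mem_filter] at hw
            rw [hW, mem_filter]
            rcases hw with rfl | hw
            · exact ⟨mem_univ _, card_pos.1 hv1⟩
            · exact ⟨mem_univ _, hcase s(v, w) hw.2 w (Sym2.mem_mk_right v w)⟩
          have h5 := card_le_card h4
          rw [card_insert_of_notMem (by simp)] at h5
          exact h5
        have hsum : W.card + ((B x).card - 1) + ((B v).card - 1) ≤ ∑ w, (B w).card := by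
          have h4 : ∑ w, ((if w ∈ W then 1 else 0) + (if w = x then (B x).card - 1 else 0) +
              (if w = v then (B v).card - 1 else 0)) ≤ ∑ w, (B w).card := by
            refine sum_le_sum fun w _ => ?_
            by_cases hw : w ∈ W
            · have hw' : 1 ≤ (B w).card := card_pos.2 (mem_filter.1 hw).2
              rw [if_pos hw]
              by_cases hwx : w = x
              · subst hwx
                rw [if_pos rfl, if_neg hxv]
                omega
              · rw [if_neg hwx]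
                by_cases hwv : w = v
                · subst hwv
                  rw [if_pos rfl]
                  omega
                · rw [if_neg hwv]
                  omega
            · have hwx : w ≠ x := by
                rintro rfl
                exact hw (mem_filter.2 ⟨mem_univ _, card_pos.1 hx1⟩)
              have hwv : w ≠ v := by
                rintro rfl
                exact hw (mem_filter.2 ⟨mem_univ _, card_pos.1 hv1⟩)
              rw [if_neg hw, if_neg hwx, if_neg hwv]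
              omega
          rw [sum_add_distrib, sum_add_distrib, sum_ite_eq' univ x, sum_ite_eq' univ v,
            if_pos (mem_univ _), if_pos (mem_univ _), sum_boole] at h4
          simpa using h4
        omega

theorem e20_dg_le (Q Q' : SimpleGraph V) (v : V) (h : ∀ w, Q'.Adj v w → Q.Adj v w) :
    dg Q' v ≤ dg Q v := by
  unfold dg
  refine card_le_card (fun w hw => ?_)
  rw [mem_filter] at hw ⊢
  exact ⟨mem_univ _, h w hw.2⟩

theorem e20_dg_lt (Q Q' : SimpleGraph V) {v w : V} (h : ∀ w, Q'.Adj v w → Q.Adj v w)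
    (h1 : Q.Adj v w) (h2 : ¬ Q'.Adj v w) : dg Q' v + 1 ≤ dg Q v := by
  unfold dg
  refine Nat.succ_le_of_lt (card_lt_card ?_)
  refine (ssubset_iff_of_subset (fun u hu => ?_)).2 ⟨w, ?_, ?_⟩
  · rw [mem_filter] at hu ⊢
    exact ⟨mem_univ _, h u hu.2⟩
  · exact mem_filter.2 ⟨mem_univ _, h1⟩
  · intro hu
    exact h2 (mem_filter.1 hu).2

theorem e20_card_filter {V V' : Type*} [Fintype V] [Fintype V'] (e : V ≃ V') (p : V → Prop)
    (q : V' → Prop) [DecidablePred p] [DecidablePred q] (h : ∀ v, q (e v) ↔ p v) :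
    (univ.filter q).card = (univ.filter p).card := by
  symm
  refine card_bij (fun j _ => e j) ?_ ?_ ?_
  · intro j hj
    exact mem_filter.2 ⟨mem_univ _, (h j).2 (mem_filter.1 hj).2⟩
  · intro a _ b _ h
    exact e.injective h
  · intro b hb
    refine ⟨e.symm b, mem_filter.2 ⟨mem_univ _, ?_⟩, e.apply_symm_apply b⟩
    rw [← h, e.apply_symm_apply]
    exact (mem_filter.1 hb).2

theorem e20_mem_ord {V E : Type} [Fintype E] (G : MG V E) (e : E) (v : V) :
    e ∈ G.ord v ↔ e ∉ G.S ∧ G.inc e v := by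
  unfold MG.ord
  rw [mem_filter]
  exact ⟨fun h => h.2, fun h => ⟨mem_univ _, h⟩⟩

theorem e20_mem_S (Q : SimpleGraph V) (B : V → Finset K) (e : {e : Sym2 V // e ∈ Q.edgeSet}) :
    Sum.inl e ∉ (toMG Q B).S := by
  intro h
  obtain ⟨c, hc⟩ := (mem_filter.1 h).2
  exact absurd hc (by simp)

/-- insertion of the edge `e0` to the exceptional vertex `p` -/
theorem e20_step {V E : Type} [Fintype V] [Fintype E] (G : MG V E) {χ : E → Option K}
    (hg : G.Good χ) {z p : V} {e0 : E} (h0 : e0 ∈ G.ord z) (hpi : G.inc e0 p) (hpz : p ≠ z)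
    (hn : ∀ e, χ e = none ↔ e = e0) {ψ : K} (hψ : ψ ∈ G.mis χ z) (hψc : ψ ∈ G.clean χ)
    (hall : ∀ v, v ≠ p → G.tdeg v + 1 ≤ Fintype.card K) (hp : G.tdeg p ≤ Fintype.card K)
    (hs : G.sdeg z = 0) : ∃ χ' : E → Option K, G.Good χ' ∧ ∀ e, χ' e ≠ none := by
  have hb : G.Good (G.base χ z) := by
    refine MG.Good.mono _ hg (fun e c h => ?_)
    unfold MG.base at h
    split_ifs at h
    exact h
  have hoth0 : G.oth e0 z = p := by
    rcases (G.inc_iff ((e20_mem_ord G _ _).1 h0).2 _).1 hpi with h | h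
    · exact absurd h hpz
    · exact h.symm
  have hbn : ∀ e ∈ G.ord z, G.base χ z e = none := by
    intro e he
    unfold MG.base
    rw [if_pos (Or.inl he)]
  have hmz : G.mis (G.base χ z) z = univ := by
    have h4 := G.card_blocked hg (z := z)
    rw [hs, Nat.le_zero, card_eq_zero, sdiff_eq_empty_iff_subset] at h4
    exact (univ_subset_iff.1 h4)
  obtain ⟨χ3, hχ3, hn3, -, -⟩ := MG.insertion G hg h0 ((hn _).2 rfl) hψ
    hψc ∅ ∅ (by simp) (by simp) (by
      intro T hT h0T _ _
      have hge : ∀ e ∈ T, 1 ≤ ((G.mis (G.base χ z) (G.oth e z) ∩ G.mis (G.base χ z) z) \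
            (if e = e0 then (∅ : Finset K) else ∅)).card ∧
          (e ≠ e0 → 2 ≤ ((G.mis (G.base χ z) (G.oth e z) ∩ G.mis (G.base χ z) z) \
            (if e = e0 then (∅ : Finset K) else ∅)).card) := by
        intro e he
        have hinc := ((e20_mem_ord G _ _).1 (hT he)).2
        have h5 := G.card_mis_ge hb (G.inc_oth hinc) (hbn e (hT he))
        rw [hmz, inter_univ, ite_self, sdiff_empty]
        constructor
        · by_cases h6 : G.oth e z = p
          · rw [h6] at h5 ⊢
            omega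
          · have := hall _ h6
            omega
        · intro hne
          have h6 : G.oth e z ≠ p := by
            intro h6
            exact hne (G.oth_inj (hT he) h0 (by rw [h6, hoth0]))
          have := hall _ h6
          omega
      have h7 : (T.erase e0).card * 2 ≤ ∑ e ∈ T.erase e0,
          ((G.mis (G.base χ z) (G.oth e z) ∩ G.mis (G.base χ z) z) \
            (if e = e0 then (∅ : Finset K) else ∅)).card := by
        rw [← smul_eq_mul, ← sum_const]
        exact sum_le_sum (fun e he => (hge e (mem_of_mem_erase he)).2 (ne_of_mem_erase he))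
      have h8 := (hge _ h0T).1
      have h9 : (T.erase e0).card + 1 = T.card := card_erase_add_one h0T
      have h10 := add_sum_erase T (fun e =>
          ((G.mis (G.base χ z) (G.oth e z) ∩ G.mis (G.base χ z) z) \
            (if e = e0 then (∅ : Finset K) else ∅)).card) h0T
      beta_reduce at h10
      rw [← h10]
      omega)
  refine ⟨χ3, hχ3, fun e he => ?_⟩
  obtain ⟨h4, h5⟩ := (hn3 e).1 he
  exact h5 ((hn e).1 h4)

/-- the sum of the list sizes bounds the number of special edges -/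
theorem e20_exists_nbr (Q : SimpleGraph V) (B : V → Finset K) (p : V)
    (h : (∑ v, (B v).card) + 2 ≤ dg Q p + (B p).card) : ∃ y, Q.Adj p y ∧ B y = ∅ := by
  by_contra hno
  push Not at hno
  have h1 : dg Q p ≤ ∑ v ∈ univ.erase p, (B v).card := by
    unfold dg
    calc (univ.filter fun w => Q.Adj p w).card = ∑ w ∈ univ.filter (fun w => Q.Adj p w), 1 := by
          rw [card_eq_sum_ones]
      _ ≤ ∑ w ∈ univ.filter (fun w => Q.Adj p w), (B w).card := by
          refine sum_le_sum (fun w hw => ?_)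
          exact Nat.succ_le_of_lt (card_pos.2 (hno w (mem_filter.1 hw).2))
      _ ≤ ∑ v ∈ univ.erase p, (B v).card := by
          refine sum_le_sum_of_subset (fun w hw => ?_)
          rw [mem_erase]
          exact ⟨fun h => Q.loopless.irrefl p (h ▸ (mem_filter.1 hw).2), mem_univ _⟩
  have h2 : ∑ v ∈ univ.erase p, (B v).card + (B p).card = ∑ v, (B v).card :=
    sum_erase_add _ _ (mem_univ p)
  omega

/-- Row E20, one exceptional vertex `p` of total degree `|K|`. Proof: if `dg p + |B p| < |K|` use `wires`. Otherwise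
`dg p ≥ |K| - |B p| ≥ ∑_{v ≠ p} |B v| + 2`, so some neighbour `y` of `p` has `B y = ∅`. `Q' = Q - py`, `wires` for `Q'`; `toMG_of_good` (for `Q'`, with `e0`
not an edge) and `MG.center` with centre `y`, `β = 1` give a total good colouring of `toMG Q' B` with a clean colour `ψ` missing at `y`
(`tdeg y + 2 ≤ |K|`, `|S| + 2 ≤ ∑ |B v| + 2 ≤ |K|`). By `toMG_good`: `GoodS Q' B C col` with `ψ` not in the image of `usedc B` and not used at `y`.
`toMG_of_good` for `Q` and `e0 = s(p,y)`: `χ` good, only `e0` not coloured, `ψ` clean and missing at `y`. `MG.insertion` with `z = y`, `R = Y = ∅`: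
the counting condition: all colours are missing at `y` in `base χ y` (no special edges at `y`), for `e ∈ T`, `e ≠ e0`:
`|mis (oth e y)| ≥ |K| + 1 - tdeg ≥ 2`; for `e0`: `|mis p| ≥ |K| + 1 - |K| = 1`. Then `toMG_good`. -/
theorem wires_exc (Q : SimpleGraph V) (B : V → Finset K) (p : V)
    (h1 : ∀ v, v ≠ p → dg Q v + (B v).card + 1 ≤ Fintype.card K)
    (hp : dg Q p + (B p).card ≤ Fintype.card K)
    (h2 : (∑ v, (B v).card) + 2 ≤ Fintype.card K)
    (h3 : ∀ c, (univ.filter fun v => c ∈ B v).card ≤ 2) :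
    ∃ C col, GoodS Q B C col := by
  have hKne : Nonempty K := Fintype.card_pos_iff.1 (by omega)
  by_cases hp1 : dg Q p + (B p).card + 1 ≤ Fintype.card K
  · refine wires Q B (fun v => ?_) h2 h3
    by_cases hv : v = p
    · rw [hv]; exact hp1
    · exact h1 v hv
  obtain ⟨y, hpy, hBy⟩ := e20_exists_nbr Q B p (by omega)
  have hyp : y ≠ p := hpy.ne'
  set e0 : Sym2 V := s(p, y) with he0
  obtain ⟨Q', hQ'⟩ : ∃ Q', Q' = Q.deleteEdges {e0} := ⟨_, rfl⟩
  have hsub : ∀ v w, Q'.Adj v w → Q.Adj v w := by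
    intro v w h
    rw [hQ'] at h
    exact (SimpleGraph.deleteEdges_adj.1 h).1
  have hdy : dg Q' y + 1 ≤ dg Q y := by
    refine e20_dg_lt Q Q' (hsub y) hpy.symm (fun h => ?_)
    rw [hQ'] at h
    exact (SimpleGraph.deleteEdges_adj.1 h).2 (by rw [he0, Sym2.eq_swap]; exact Set.mem_singleton _)
  have hdp : dg Q' p + 1 ≤ dg Q p := by
    refine e20_dg_lt Q Q' (hsub p) hpy (fun h => ?_)
    rw [hQ'] at h
    exact (SimpleGraph.deleteEdges_adj.1 h).2 (by rw [he0]; exact Set.mem_singleton _)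
  have hd : ∀ v, dg Q' v ≤ dg Q v := fun v => e20_dg_le Q Q' v (hsub v)
  have hw1 : ∀ v, dg Q' v + (B v).card + 1 ≤ Fintype.card K := by
    intro v
    by_cases hv : v = p
    · subst hv; omega
    · have := h1 v hv
      have := hd v
      omega
  obtain ⟨C0, col0, hG0⟩ := wires Q' B hw1 h2 h3
  have hQQ : Q'.deleteEdges {e0} = Q' := by
    rw [hQ', SimpleGraph.deleteEdges_deleteEdges, Set.union_self]
  obtain ⟨χ0, hχ0, hn0, -, -⟩ := toMG_of_good Q' B h3 e0 (C := C0) (col := col0)
    (by rw [hQQ]; exact hG0)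
  have htot0 : ∀ e, χ0 e ≠ none := by
    intro e he
    obtain ⟨e', -, he'⟩ := (hn0 e).1 he
    have := e'.2
    rw [he', hQ', SimpleGraph.edgeSet_deleteEdges] at this
    exact this.2 (Set.mem_singleton _)
  -- the centre theorem
  have hS' : (toMG Q' B).dbl.card + (toMG Q' B).S.card ≤ ∑ v, (B v).card := toMG_dbl Q' B h3
  have hH : (toMG Q' B).Hyp (Sum.inl y) K 1 := by
    have hall : ∀ v, (toMG Q' B).tdeg v + 1 ≤ Fintype.card K := by
      intro v
      cases v with
      | inl v => rw [(toMG_tdeg Q' B h3 v).1]; exact hw1 v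
      | inr c => have := toMG_tdeg_leaf Q' B c; omega
    refine ⟨le_refl _, hall, fun e _ => ?_, ?_, by omega, by omega⟩
    · rw [(toMG_tdeg Q' B h3 y).2, hBy, card_empty]
      exact hall _
    · rw [(toMG_tdeg Q' B h3 y).1, hBy, card_empty]
      have := h1 y hyp
      omega
  obtain ⟨χ1, hχ1, ht1, hc1⟩ := MG.center hH ⟨χ0, hχ0, fun e he => absurd he (htot0 e), by
    rw [filter_false_of_mem (fun e _ => htot0 e), card_empty]⟩
  obtain ⟨ψ, hψ⟩ := card_pos.1 hc1
  rw [mem_inter] at hψ
  obtain ⟨C1, col1, hG1, hcol1, hmis1⟩ := toMG_good Q' B h3 hχ1 ht1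
  obtain ⟨χ2, hχ2, hn2, hcl2, hm2⟩ := toMG_of_good Q B h3 e0 (by rw [← hQ']; exact hG1)
  rw [← hQ'] at hm2
  have hψc : ψ ∈ (toMG Q B).clean χ2 :=
    hcl2 ψ (fun c' hc' h => hcol1 c' hc' (h ▸ hψ.2))
  have hψm : ψ ∈ (toMG Q B).mis χ2 (Sum.inl y) :=
    hm2 y ψ (hmis1 y ψ hψ.1) (fun c' hc' => by rw [hBy] at hc'; exact absurd hc' (notMem_empty _))
  have hmem0 : e0 ∈ Q.edgeSet := hpy
  have hall : ∀ v, v ≠ Sum.inl p → (toMG Q B).tdeg v + 1 ≤ Fintype.card K := by
    intro v hv
    cases v with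
    | inl v =>
      rw [(toMG_tdeg Q B h3 v).1]
      exact h1 v (fun h => hv (by rw [h]))
    | inr c => have := toMG_tdeg_leaf Q B c; omega
  obtain ⟨χ3, hχ3, hn3⟩ := e20_step (toMG Q B) hχ2 (z := Sum.inl y) (p := Sum.inl p)
    (e0 := Sum.inl ⟨e0, hmem0⟩)
    ((e20_mem_ord _ _ _).2 ⟨e20_mem_S Q B _, by
      rw [toMG_inc_inl]; exact Sym2.mem_mk_right p y⟩)
    (by rw [toMG_inc_inl]; exact Sym2.mem_mk_left p y) (fun h => hyp (Sum.inl.inj h).symm)
    (fun e => by
      rw [hn2]
      constructor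
      · rintro ⟨e', h6, h7⟩
        rw [h6]
        congr 1
        exact Subtype.ext h7
      · intro h
        exact ⟨_, h, rfl⟩) hψm hψc hall
    (by rw [(toMG_tdeg Q B h3 p).1]; exact hp) (by
      rw [(toMG_tdeg Q B h3 y).2, hBy, card_empty])
  obtain ⟨C, col, hG, -, -⟩ := toMG_good Q B h3 hχ3 hn3
  exact ⟨C, col, hG⟩

theorem e20_mem_usedc (B : V → Finset K) {c : K} {v : V} (h : c ∈ B v) : c ∈ usedc B :=
  mem_filter.2 ⟨mem_univ _, v, h⟩

/-- the light extension theorem in a small universe -/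
theorem e20_light (Q : SimpleGraph V) (k : ℕ) (B : V → Finset (Fin (k + 1))) (p : V)
    (h1 : ∀ v, v ≠ p → dg Q v + (B v).card ≤ k) (hp : dg Q p + (B p).card ≤ k + 1)
    (h2 : (∑ v, (B v).card) + 1 ≤ k)
    (h3 : ∀ c, (univ.filter fun v => c ∈ B v).card ≤ 2) :
    ∃ C : Sym2 V → Fin (k + 1),
      (∀ e ∈ Q.edgeSet, ∀ e' ∈ Q.edgeSet, ∀ v, v ∈ e → v ∈ e' → C e = C e' → e = e') ∧
      ∀ v, ∀ e ∈ Q.edgeSet, v ∈ e → C e ∉ B v := by
  have hK : Fintype.card (Fin (k + 1)) = k + 1 := Fintype.card_fin _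
  obtain ⟨C, col, hG⟩ := wires_exc Q B p
    (fun v hv => by rw [hK]; exact Nat.succ_le_succ (h1 v hv)) (by rw [hK]; exact hp)
    (by rw [hK]; exact Nat.succ_le_succ h2)
    (fun c => by
      convert h3 c)
  obtain ⟨g, hg⟩ := exists_equiv_extend_of_card_eq (α := Fin (k + 1)) (β := Fin (k + 1))
    (t := univ) (by simp) (s := usedc B) (f := col) (subset_univ _)
    (fun c hc c' hc' h => hG.inj c hc c' hc' h)
  have hgi : ∀ a b, g.symm ⟨a, mem_univ a⟩ = g.symm ⟨b, mem_univ b⟩ → a = b := by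
    intro a b h
    have := g.symm.injective h
    exact congrArg Subtype.val this
  refine ⟨fun e => g.symm ⟨C e, mem_univ _⟩, ?_, ?_⟩
  · intro e he e' he' v hv hv' h
    exact hG.proper e he e' he' v hv hv' (hgi _ _ h)
  · intro v e he hv hmem
    obtain ⟨c, hc⟩ : ∃ c, c = g.symm ⟨C e, mem_univ _⟩ := ⟨_, rfl⟩
    have h6 : c ∈ B v := by rw [hc]; exact hmem
    have h7 := hg c (e20_mem_usedc B h6)
    rw [hc, g.apply_symm_apply] at h7
    rw [← hc] at h7
    exact hG.avoid v c h6 e he hv h7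

/-- Row E20, LIGHT EXTENSION. Proof: `wires_exc`; let `π` be a permutation of `K` with `π (col c) = c` for `c ∈ usedc B`
(`Equiv.Perm` extending an injection: `Finset.exists_equiv_extend_of_card_eq` or `Function.Injective.exists_...`), colouring `u v ↦ π (C s(u,v))`.
Arbitrary universe: transfer along `Fintype.equivFin`. If `V` is empty everything is trivial (the vertex `p` excludes this). -/
theorem lightExt {V : Type*} [Fintype V] [DecidableEq V] (Q : SimpleGraph V) [DecidableRel Q.Adj]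
    (k : ℕ) (B : V → Finset (Fin (k + 1))) (p : V)
    (h1 : ∀ v, v ≠ p → (Q.neighborFinset v).card + (B v).card ≤ k)
    (hp : (Q.neighborFinset p).card + (B p).card ≤ k + 1)
    (h2 : (∑ v, (B v).card) + 1 ≤ k)
    (h3 : ∀ c, (univ.filter fun v => c ∈ B v).card ≤ 2) :
    ∃ C : V → V → Fin (k + 1), (∀ u v, C u v = C v u) ∧
      (∀ u v w, Q.Adj u v → Q.Adj u w → C u v = C u w → v = w) ∧
      ∀ u v, Q.Adj u v → C u v ∉ B u := by
  obtain ⟨e, -⟩ : ∃ e : V ≃ Fin (Fintype.card V), e = Fintype.equivFin V := ⟨_, rfl⟩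
  obtain ⟨Q', hQ'⟩ : ∃ Q' : SimpleGraph (Fin (Fintype.card V)), Q' = Q.comap e.symm := ⟨_, rfl⟩
  have hadj : ∀ u v, Q'.Adj (e u) (e v) ↔ Q.Adj u v := by
    intro u v
    rw [hQ', SimpleGraph.comap_adj, e.symm_apply_apply, e.symm_apply_apply]
  have hdg : ∀ u, dg Q' (e u) = (Q.neighborFinset u).card := by
    intro u
    unfold dg
    rw [e20_card_filter e (fun v => Q.Adj u v) (fun v => Q'.Adj (e u) v) (hadj u)]
    congr 1
    ext v
    rw [mem_filter, SimpleGraph.mem_neighborFinset]
    exact ⟨fun h => h.2, fun h => ⟨mem_univ _, h⟩⟩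
  obtain ⟨C, hC1, hC2⟩ := e20_light Q' k (fun i => B (e.symm i)) (e p) (fun i hi => by
      obtain ⟨v, rfl⟩ := e.surjective i
      rw [hdg, e.symm_apply_apply]
      exact h1 v (fun h => hi (by rw [h]))) (by
      rw [hdg, e.symm_apply_apply]
      exact hp) (by
      rw [Equiv.sum_comp e.symm (fun v => (B v).card)]
      exact h2) (fun c => by
      rw [e20_card_filter e (fun v => c ∈ B v) (fun v => c ∈ B (e.symm v))
        (fun v => by rw [e.symm_apply_apply])]
      exact h3 c)
  have hmem : ∀ u v, Q.Adj u v → s(e u, e v) ∈ Q'.edgeSet := by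
    intro u v h
    rw [SimpleGraph.mem_edgeSet]
    exact (hadj u v).2 h
  refine ⟨fun u v => C s(e u, e v), fun u v => congrArg C Sym2.eq_swap, ?_, ?_⟩
  · intro u v w huv huw h
    have h6 := hC1 _ (hmem u v huv) _ (hmem u w huw) (e u) (Sym2.mem_mk_left _ _)
      (Sym2.mem_mk_left _ _) h
    have h7 : e v = e w := by
      rw [Sym2.eq_iff] at h6
      rcases h6 with h | h
      · exact h.2
      · exact h.2.trans h.1
    exact e.injective h7
  · intro u v huv
    have := hC2 (e u) _ (hmem u v huv) (Sym2.mem_mk_left _ _)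
    rw [e.symm_apply_apply] at this
    exact this

end Final

end MP405E
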