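import Mathlib

set_option autoImplicit false
set_option linter.unusedSectionVars false

namespace Pool.MP405d56

open Finset

/-- `D` is an odd connected set inside the required set `R`, disjoint from `S`, all of whose
`G`-neighbours lie in `D ∪ S` (i.e. an odd component of `G - S` contained in `R`). -/
structure IsBarrierPart {V : Type*} (G : SimpleGraph V) (R S D : Finset V) : Prop where
  odd : Odd D.card
  sub : D ⊆ R
  disj : Disjoint D S
  closed : ∀ v ∈ D, ∀ w, G.Adj v w → w ∈ D ∨ w ∈ S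
  conn : (G.induce (D : Set V)).Connected

/-- **Tutte's theorem with a required set.** -/
theorem exists_matching_covering {V : Type*} [Fintype V] [DecidableEq V] (G : SimpleGraph V)
    (R : Finset V)
    (h : ∀ S : Finset V, ∀ 𝒟 : Finset (Finset V), (∀ D ∈ 𝒟, IsBarrierPart G R S D) →
       (∀ D ∈ 𝒟, ∀ D' ∈ 𝒟, D ≠ D' → Disjoint D D') → 𝒟.card ≤ S.card) :
    ∃ M : V → V, (∀ v, M (M v) = v) ∧ (∀ v, M v ≠ v → G.Adj v (M v)) ∧ ∀ v ∈ R, M v ≠ v := by
  classical
  let e := Fintype.card V % 2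
  let V' := V ⊕ Fin e
  let Opt : V' → Prop := fun a => ∀ v ∈ R, a ≠ Sum.inl v
  let G' : SimpleGraph V' :=
    { Adj := fun a b => a ≠ b ∧ ((∃ v w, a = Sum.inl v ∧ b = Sum.inl w ∧ G.Adj v w) ∨ (Opt a ∧ Opt b))
      symm := ⟨by
        rintro a b ⟨hab, h1 | h1⟩
        · obtain ⟨v, w, ha, hb, hvw⟩ := h1
          exact ⟨hab.symm, Or.inl ⟨w, v, hb, ha, hvw.symm⟩⟩
        · exact ⟨hab.symm, Or.inr ⟨h1.2, h1.1⟩⟩⟩
      loopless := ⟨fun a ha => ha.1 rfl⟩ }
  have hG'inl : ∀ v w, G.Adj v w → G'.Adj (Sum.inl v) (Sum.inl w) := by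
    intro v w hvw
    exact ⟨fun hh => hvw.ne (Sum.inl.inj hh), Or.inl ⟨v, w, rfl, rfl, hvw⟩⟩
  have hcardV' : Even (Nat.card V') := by
    have : Nat.card V' = Fintype.card V + Fintype.card V % 2 := by
      simp [V', e, Nat.card_eq_fintype_card, Fintype.card_sum]
    rw [this]
    rcases Nat.even_or_odd (Fintype.card V) with he | ho
    · rw [Nat.even_iff.mp he]; simpa using he
    · rw [Nat.odd_iff.mp ho]; exact ho.add_one
  -- existence of a perfect matching of G'
  have hPM : ∃ M : G'.Subgraph, M.IsPerfectMatching := by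
    rw [SimpleGraph.tutte]
    intro u hu
    unfold SimpleGraph.IsTutteViolator at hu
    set K := (⊤ : G'.Subgraph).deleteVerts u with hK
    set H := K.coe with hH
    have hverts : ∀ a : V', a ∈ K.verts ↔ a ∉ u := by
      intro a; simp [hK]
    have hHadj : ∀ a b : K.verts, H.Adj a b ↔ G'.Adj a.1 b.1 := by
      intro a b
      have ha := (hverts a.1).mp a.2
      have hb := (hverts b.1).mp b.2
      simp only [hH, SimpleGraph.Subgraph.coe_adj, hK, SimpleGraph.Subgraph.deleteVerts_adj]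
      simp [ha, hb]
    let S : Finset V := univ.filter (fun v => (Sum.inl v : V') ∈ u)
    have hScard : S.card ≤ u.ncard := by
      have : ((S.map ⟨(Sum.inl : V → V'), Sum.inl_injective⟩ : Finset V') : Set V') ⊆ u := by
        intro a ha
        simp only [Finset.coe_map, Function.Embedding.coeFn_mk, Set.mem_image, Finset.mem_coe] at ha
        obtain ⟨v, hv, rfl⟩ := ha
        exact (Finset.mem_filter.mp hv).2
      have h2 := Set.ncard_le_ncard this (Set.toFinite u)
      rwa [Set.ncard_coe_finset, Finset.card_map] at h2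
    let dset : H.ConnectedComponent → Finset V := fun C =>
      univ.filter (fun v => ∃ hv : (Sum.inl v : V') ∈ K.verts, (⟨Sum.inl v, hv⟩ : K.verts) ∈ C.supp)
    have hdset : ∀ C v, v ∈ dset C ↔
        ∃ hv : (Sum.inl v : V') ∈ K.verts, (⟨Sum.inl v, hv⟩ : K.verts) ∈ C.supp := by
      intro C v; simp [dset]
    let O1 : Set H.ConnectedComponent := {C ∈ H.oddComponents | ∀ x ∈ C.supp, ¬ Opt x.1}
    let O2 : Set H.ConnectedComponent := {C ∈ H.oddComponents | ∃ x ∈ C.supp, Opt x.1}
    have hO : H.oddComponents ⊆ O1 ∪ O2 := by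
      intro C hC
      by_cases hx : ∃ x ∈ C.supp, Opt x.1
      · exact Or.inr ⟨hC, hx⟩
      · push Not at hx
        exact Or.inl ⟨hC, hx⟩
    have hO2 : O2.ncard ≤ 1 := by
      rw [Set.ncard_le_one (Set.toFinite _)]
      rintro C ⟨_, x, hx, hxo⟩ C' ⟨_, x', hx', hxo'⟩
      rw [SimpleGraph.ConnectedComponent.mem_supp_iff] at hx hx'
      rw [← hx, ← hx']
      by_cases hxx : x = x'
      · rw [hxx]
      · apply SimpleGraph.ConnectedComponent.sound
        apply SimpleGraph.Adj.reachable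
        rw [hHadj]
        exact ⟨fun hh => hxx (Subtype.ext hh), Or.inr ⟨hxo, hxo'⟩⟩
    have hform : ∀ C ∈ O1, ∀ x ∈ C.supp, ∃ v ∈ R, x.1 = Sum.inl v := by
      rintro C ⟨_, hC⟩ x hx
      have := hC x hx
      simp only [Opt] at this
      push Not at this
      exact this
    have hinj : Set.InjOn dset O1 := by
      intro C hC C' hC' hCC
      obtain ⟨x, hx⟩ := C.nonempty_supp
      obtain ⟨v, hv, hxv⟩ := hform C hC x hx
      have hmem : v ∈ dset C := by
        rw [hdset]
        refine ⟨by rw [← hxv]; exact x.2, ?_⟩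
        have : (⟨Sum.inl v, by rw [← hxv]; exact x.2⟩ : K.verts) = x := Subtype.ext hxv.symm
        rw [this]; exact hx
      rw [hCC, hdset] at hmem
      obtain ⟨hv', hmem'⟩ := hmem
      have : (⟨Sum.inl v, hv'⟩ : K.verts) = x := Subtype.ext hxv.symm
      rw [this] at hmem'
      rw [SimpleGraph.ConnectedComponent.mem_supp_iff] at hx hmem'
      rw [← hx, ← hmem']
    -- the family
    have hO1fin : O1.Finite := Set.toFinite _
    let 𝒟 : Finset (Finset V) := hO1fin.toFinset.image dset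
    have h𝒟card : 𝒟.card = O1.ncard := by
      rw [Finset.card_image_of_injOn (by rw [Set.Finite.coe_toFinset]; exact hinj),
        Set.ncard_eq_toFinset_card O1 hO1fin]
    have hpart : ∀ D ∈ 𝒟, IsBarrierPart G R S D := by
      intro D hD
      obtain ⟨C, hC, rfl⟩ := Finset.mem_image.mp hD
      have hC1 : C ∈ O1 := (Set.Finite.mem_toFinset hO1fin).mp hC
      have hbij : (dset C).card = C.supp.ncard := by
        have himg : ((dset C).map ⟨(Sum.inl : V → V'), Sum.inl_injective⟩ : Finset V') =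
            (Subtype.val '' C.supp : Set V') := by
          ext a
          simp only [Finset.coe_map, Function.Embedding.coeFn_mk, Set.mem_image, Finset.mem_coe]
          constructor
          · rintro ⟨v, hv, rfl⟩
            obtain ⟨hv', hm⟩ := (hdset C v).mp hv
            exact ⟨⟨Sum.inl v, hv'⟩, hm, rfl⟩
          · rintro ⟨x, hx, rfl⟩
            obtain ⟨v, _, hxv⟩ := hform C hC1 x hx
            refine ⟨v, (hdset C v).mpr ⟨by rw [← hxv]; exact x.2, ?_⟩, hxv.symm⟩
            have : (⟨Sum.inl v, by rw [← hxv]; exact x.2⟩ : K.verts) = x := Subtype.ext hxv.symm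
            rw [this]; exact hx
        have h1 : (Subtype.val '' C.supp : Set V').ncard = C.supp.ncard :=
          Set.ncard_image_of_injective _ Subtype.val_injective
        rw [← h1, ← himg, Set.ncard_coe_finset, Finset.card_map]
      refine ⟨?_, ?_, ?_, ?_, ?_⟩
      · rw [hbij]; exact hC1.1
      · intro v hv
        obtain ⟨hv', hm⟩ := (hdset C v).mp hv
        obtain ⟨w, hw, hvw⟩ := hform C hC1 _ hm
        have : v = w := Sum.inl.inj hvw
        rw [this]; exact hw
      · rw [Finset.disjoint_left]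
        intro v hv hvS
        obtain ⟨hv', _⟩ := (hdset C v).mp hv
        exact (hverts _).mp hv' (Finset.mem_filter.mp hvS).2
      · intro v hv w hvw
        obtain ⟨hv', hm⟩ := (hdset C v).mp hv
        by_cases hw : (Sum.inl w : V') ∈ u
        · right; exact Finset.mem_filter.mpr ⟨Finset.mem_univ _, hw⟩
        · left
          rw [hdset]
          refine ⟨(hverts _).mpr hw, ?_⟩
          rw [SimpleGraph.ConnectedComponent.mem_supp_iff] at hm ⊢
          rw [← hm]
          apply SimpleGraph.ConnectedComponent.sound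
          apply SimpleGraph.Adj.reachable
          rw [hHadj]
          exact hG'inl w v hvw.symm
      · -- connected
        have hcon := C.connected_toSimpleGraph
        let f : C.toSimpleGraph →g G.induce ((dset C : Finset V) : Set V) :=
          { toFun := fun x => ⟨Classical.choose (hform C hC1 x.1 x.2), by
              have hs := Classical.choose_spec (hform C hC1 x.1 x.2)
              refine Finset.mem_coe.mpr ((hdset C _).mpr ⟨by rw [← hs.2]; exact x.1.2, ?_⟩)
              have : (⟨Sum.inl (Classical.choose (hform C hC1 x.1 x.2)), by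
                rw [← hs.2]; exact x.1.2⟩ : K.verts) = x.1 := Subtype.ext hs.2.symm
              rw [this]; exact x.2⟩
            map_rel' := by
              intro x y hxy
              have hsx := Classical.choose_spec (hform C hC1 x.1 x.2)
              have hsy := Classical.choose_spec (hform C hC1 y.1 y.2)
              have hxy' : H.Adj x.1 y.1 := hxy
              rw [hHadj] at hxy'
              obtain ⟨_, hh | hh⟩ := hxy'
              · obtain ⟨v, w, hv, hw, hvw⟩ := hh
                have e1 : Classical.choose (hform C hC1 x.1 x.2) = v :=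
                  Sum.inl.inj (hsx.2.symm.trans hv)
                have e2 : Classical.choose (hform C hC1 y.1 y.2) = w :=
                  Sum.inl.inj (hsy.2.symm.trans hw)
                show G.Adj (Classical.choose (hform C hC1 x.1 x.2)) (Classical.choose (hform C hC1 y.1 y.2))
                rw [e1, e2]; exact hvw
              · exact absurd hh.1 (hC1.2 x.1 x.2) }
        refine SimpleGraph.Connected.map f ?_ hcon
        rintro ⟨v, hv⟩
        obtain ⟨hv', hm⟩ := (hdset C v).mp (Finset.mem_coe.mp hv)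
        refine ⟨⟨⟨Sum.inl v, hv'⟩, hm⟩, ?_⟩
        apply Subtype.ext
        have hs := Classical.choose_spec (hform C hC1 ⟨Sum.inl v, hv'⟩ hm)
        exact (Sum.inl.inj hs.2).symm
    have hdisj : ∀ D ∈ 𝒟, ∀ D' ∈ 𝒟, D ≠ D' → Disjoint D D' := by
      intro D hD D' hD' hne
      obtain ⟨C, hC, rfl⟩ := Finset.mem_image.mp hD
      obtain ⟨C', hC', rfl⟩ := Finset.mem_image.mp hD'
      rw [Finset.disjoint_left]
      intro v hv hv'
      obtain ⟨a, ha⟩ := (hdset C v).mp hv
      obtain ⟨b, hb⟩ := (hdset C' v).mp hv'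
      rw [SimpleGraph.ConnectedComponent.mem_supp_iff] at ha hb
      apply hne
      rw [← ha, ← hb]
    have hmain := h S 𝒟 hpart hdisj
    rw [h𝒟card] at hmain
    have hle : H.oddComponents.ncard ≤ O1.ncard + 1 := by
      calc H.oddComponents.ncard ≤ (O1 ∪ O2).ncard := Set.ncard_le_ncard hO (Set.toFinite _)
        _ ≤ O1.ncard + O2.ncard := Set.ncard_union_le _ _
        _ ≤ O1.ncard + 1 := by omega
    have heq : H.oddComponents.ncard = u.ncard + 1 := by omega
    have hpar := SimpleGraph.odd_ncard_oddComponents (G := H)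
    have hcardK : Nat.card K.verts + u.ncard = Nat.card V' := by
      have : K.verts = uᶜ := by
        ext a; rw [hverts]; rfl
      rw [this]
      have := Set.ncard_add_ncard_compl u (Set.toFinite _) (Set.toFinite _)
      rw [Nat.card_coe_set_eq]
      omega
    rw [heq] at hpar
    rcases hcardV' with ⟨m, hm⟩
    rcases Nat.even_or_odd u.ncard with ⟨t, ht⟩ | ⟨t, ht⟩
    · have h1 : Odd (u.ncard + 1) := ⟨t, by omega⟩
      obtain ⟨s, hs⟩ := hpar.mp h1
      omega
    · have h1 : Odd (Nat.card K.verts) := ⟨m - t - 1, by omega⟩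
      obtain ⟨s, hs⟩ := hpar.mpr h1
      omega
  obtain ⟨M, hM⟩ := hPM
  rw [SimpleGraph.Subgraph.isPerfectMatching_iff] at hM
  choose p hp hpu using hM
  have hpp : ∀ a, p (p a) = a := fun a => (hpu (p a) a (hp a).symm).symm
  let F : V → V := fun v => if hh : ∃ w, p (Sum.inl v) = Sum.inl w ∧ G.Adj v w then
    Classical.choose hh else v
  have hF1 : ∀ v w, p (Sum.inl v) = Sum.inl w → G.Adj v w → F v = w := by
    intro v w hvw hadj
    have hh : ∃ w, p (Sum.inl v) = Sum.inl w ∧ G.Adj v w := ⟨w, hvw, hadj⟩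
    have hs := Classical.choose_spec hh
    simp only [F, dif_pos hh]
    exact Sum.inl.inj (hs.1.symm.trans hvw)
  have hF2 : ∀ v, (¬ ∃ w, p (Sum.inl v) = Sum.inl w ∧ G.Adj v w) → F v = v := by
    intro v hh
    simp only [F, dif_neg hh]
  refine ⟨F, fun v => ?_, fun v hv => ?_, fun v hv => ?_⟩
  · by_cases hh : ∃ w, p (Sum.inl v) = Sum.inl w ∧ G.Adj v w
    · obtain ⟨w, hw, hadj⟩ := hh
      rw [hF1 v w hw hadj]
      apply hF1 w v _ hadj.symm
      rw [← hw, hpp]
    · rw [hF2 v hh, hF2 v hh]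
  · by_cases hh : ∃ w, p (Sum.inl v) = Sum.inl w ∧ G.Adj v w
    · obtain ⟨w, hw, hadj⟩ := hh
      rw [hF1 v w hw hadj]; exact hadj
    · exact absurd (hF2 v hh) hv
  · have hadj : G'.Adj (Sum.inl v) (p (Sum.inl v)) := (hp (Sum.inl v)).adj_sub
    obtain ⟨_, hh | hh⟩ := hadj
    · obtain ⟨v', w, hv', hw, hvw⟩ := hh
      have hvv : v = v' := Sum.inl.inj hv'
      subst hvv
      rw [hF1 v w hw hvw]
      exact hvw.ne'
    · exact absurd rfl (hh.1 v hv)

end Pool.MP405d56

namespace Pool.MP405d56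

open Finset

/-- weight identity for a barrier: the total weight at `S` is distributed to the parts, to the rest
and to the pairs inside `S`. -/
theorem barrier_weight_identity {V : Type*} [Fintype V] [DecidableEq V] (G : SimpleGraph V)
    (R S : Finset V) (𝒟 : Finset (Finset V)) (x : V → V → ℝ)
    (hsymm : ∀ v w, x v w = x w v) (hsupp : ∀ v w, ¬ G.Adj v w → x v w = 0)
    (hpart : ∀ D ∈ 𝒟, IsBarrierPart G R S D)
    (hdisj : ∀ D ∈ 𝒟, ∀ D' ∈ 𝒟, D ≠ D' → Disjoint D D') :
    (∑ D ∈ 𝒟, ∑ v ∈ D, ∑ w ∈ Dᶜ, x v w) + (∑ s ∈ S, ∑ w ∈ (S ∪ 𝒟.biUnion id)ᶜ, x s w)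
      + (∑ s ∈ S, ∑ t ∈ S, x s t) = ∑ s ∈ S, ∑ w, x s w := by
  classical
  have hdisjS : Disjoint S (𝒟.biUnion id) := by
    rw [Finset.disjoint_biUnion_right]
    intro D hD
    exact (hpart D hD).disj.symm
  have hpw : (𝒟 : Set (Finset V)).PairwiseDisjoint id := by
    intro D hD D' hD' hne
    exact hdisj D hD D' hD' hne
  have h1 : ∀ s ∈ S, ∑ w, x s w = ∑ w ∈ (S ∪ 𝒟.biUnion id)ᶜ, x s w + ∑ t ∈ S, x s t +
      ∑ D ∈ 𝒟, ∑ w ∈ D, x s w := by
    intro s _
    rw [← Finset.sum_add_sum_compl (S ∪ 𝒟.biUnion id) (fun w => x s w),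
      Finset.sum_union hdisjS, Finset.sum_biUnion hpw]
    simp only [id]
    ring
  rw [Finset.sum_congr rfl h1, Finset.sum_add_distrib, Finset.sum_add_distrib]
  have h2 : ∑ s ∈ S, ∑ D ∈ 𝒟, ∑ w ∈ D, x s w = ∑ D ∈ 𝒟, ∑ v ∈ D, ∑ w ∈ Dᶜ, x v w := by
    rw [Finset.sum_comm]
    apply Finset.sum_congr rfl
    intro D hD
    rw [Finset.sum_comm]
    apply Finset.sum_congr rfl
    intro v hv
    have hsub : S ⊆ Dᶜ := by
      intro s hs
      rw [Finset.mem_compl]
      intro hsD
      exact (Finset.disjoint_left.mp (hpart D hD).disj) hsD hs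
    rw [← Finset.sum_subset hsub (f := fun w => x v w)]
    · exact Finset.sum_congr rfl (fun s _ => hsymm s v)
    · intro w hw hwS
      apply hsupp
      intro hadj
      rcases (hpart D hD).closed v hv w hadj with h | h
      · exact (Finset.mem_compl.mp hw) h
      · exact hwS h
  rw [h2]
  ring

/-- integrality form: total excess `< 1` at `S` is harmless. -/
theorem barrier_card_le {V : Type*} [Fintype V] [DecidableEq V] (G : SimpleGraph V)
    (R S : Finset V) (𝒟 : Finset (Finset V)) (x : V → V → ℝ) (c : ℝ) (hc : c < 1)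
    (hx0 : ∀ v w, 0 ≤ x v w)
    (hsymm : ∀ v w, x v w = x w v) (hsupp : ∀ v w, ¬ G.Adj v w → x v w = 0)
    (hpart : ∀ D ∈ 𝒟, IsBarrierPart G R S D)
    (hdisj : ∀ D ∈ 𝒟, ∀ D' ∈ 𝒟, D ≠ D' → Disjoint D D')
    (hbd : ∀ D ∈ 𝒟, 1 ≤ ∑ v ∈ D, ∑ w ∈ Dᶜ, x v w)
    (hS : ∑ s ∈ S, ∑ w, x s w ≤ S.card + c + (∑ s ∈ S, ∑ w ∈ (S ∪ 𝒟.biUnion id)ᶜ, x s w)
      + (∑ s ∈ S, ∑ t ∈ S, x s t)) :
    𝒟.card ≤ S.card := by
  have h1 := barrier_weight_identity G R S 𝒟 x hsymm hsupp hpart hdisj
  have h2 : (𝒟.card : ℝ) ≤ ∑ D ∈ 𝒟, ∑ v ∈ D, ∑ w ∈ Dᶜ, x v w := by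
    calc (𝒟.card : ℝ) = ∑ _D ∈ 𝒟, (1 : ℝ) := by simp
      _ ≤ _ := Finset.sum_le_sum hbd
  have h3 : (𝒟.card : ℝ) < S.card + 1 := by linarith
  have h4 : (𝒟.card : ℝ) < ((S.card + 1 : ℕ) : ℝ) := by push_cast; exact h3
  have := Nat.cast_lt.mp h4
  omega

end Pool.MP405d56
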