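import Mathlib

set_option autoImplicit false
set_option linter.unusedSectionVars false

namespace Pool.MP405d56

open Finset

variable {ι V : Type*} [Fintype ι] [DecidableEq ι] [DecidableEq V]

/-- partial independent transversals: functions which choose from `A i` for `i ∈ S` (and `v0` elsewhere) -/
noncomputable def ITset (G : SimpleGraph V) (A : ι → Finset V) (v0 : V) (S : Finset ι) :
    Finset (ι → V) := by
  classical
  exact (Fintype.piFinset (fun i => if i ∈ S then A i else {v0})).filter
    (fun f => ∀ i ∈ S, ∀ j ∈ S, i ≠ j → ¬ G.Adj (f i) (f j))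

theorem mem_ITset (G : SimpleGraph V) (A : ι → Finset V) (v0 : V) (S : Finset ι) (f : ι → V) :
    f ∈ ITset G A v0 S ↔ (∀ i ∈ S, f i ∈ A i) ∧ (∀ i, i ∉ S → f i = v0) ∧
      ∀ i ∈ S, ∀ j ∈ S, i ≠ j → ¬ G.Adj (f i) (f j) := by
  classical
  unfold ITset
  rw [Finset.mem_filter, Fintype.mem_piFinset]
  constructor
  · rintro ⟨h1, h2⟩
    refine ⟨fun i hi => by simpa [hi] using h1 i, fun i hi => by simpa [hi] using h1 i, h2⟩
  · rintro ⟨h1, h2, h3⟩
    refine ⟨fun i => ?_, h3⟩
    by_cases hi : i ∈ S
    · simpa [hi] using h1 i hi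
    · simpa [hi] using h2 i hi

theorem ITset_fiber_le (G : SimpleGraph V) (A : ι → Finset V) (v0 : V) (S : Finset ι) (j : ι)
    (hj : j ∈ S) (u : V) :
    ((ITset G A v0 S).filter (fun g => g j = u)).card ≤ (ITset G A v0 (S.erase j)).card := by
  classical
  apply Finset.card_le_card_of_injOn (fun g => Function.update g j v0)
  · intro g hg
    have hg' := (Finset.mem_filter.mp (Finset.mem_coe.mp hg)).1
    rw [mem_ITset] at hg'
    show Function.update g j v0 ∈ ITset G A v0 (S.erase j)
    rw [mem_ITset]
    refine ⟨fun i hi => ?_, fun i hi => ?_, fun i hi k hk hik => ?_⟩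
    · rw [Finset.mem_erase] at hi
      rw [Function.update_of_ne hi.1]
      exact hg'.1 i hi.2
    · by_cases hij : i = j
      · subst hij; simp
      · rw [Function.update_of_ne hij]
        exact hg'.2.1 i (fun h => hi (Finset.mem_erase.mpr ⟨hij, h⟩))
    · rw [Finset.mem_erase] at hi hk
      rw [Function.update_of_ne hi.1, Function.update_of_ne hk.1]
      exact hg'.2.2 i hi.2 k hk.2 hik
  · intro g hg g' hg' h
    have h1 := (Finset.mem_filter.mp (Finset.mem_coe.mp hg)).2
    have h2 := (Finset.mem_filter.mp (Finset.mem_coe.mp hg')).2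
    funext i
    by_cases hij : i = j
    · subst hij; rw [h1, h2]
    · have := congrFun h i
      simpa [Function.update_of_ne hij] using this

theorem ITset_insert_ge (G : SimpleGraph V) [DecidableRel G.Adj] (A : ι → Finset V) (v0 : V)
    (hA : ∀ i j, i ≠ j → Disjoint (A i) (A j)) (D : ℕ) (hD : 0 < D)
    (hdeg : ∀ i, ∀ v ∈ A i, ((univ.biUnion A).filter (fun w => G.Adj v w)).card ≤ D)
    (hsize : ∀ i, 4 * D ≤ (A i).card) (n : ℕ) :
    ∀ S : Finset ι, S.card = n → ∀ i, i ∉ S →
      2 * D * (ITset G A v0 S).card ≤ (ITset G A v0 (insert i S)).card := by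
  classical
  induction n using Nat.strong_induction_on with
  | _ n ih =>
  intro S hS i hi
  -- key: for each v ∈ A i
  have key : ∀ v ∈ A i, (ITset G A v0 S).card ≤
      2 * ((ITset G A v0 S).filter (fun g => ∀ j ∈ S, ¬ G.Adj v (g j))).card := by
    intro v hv
    set W := (univ.biUnion A).filter (fun w => G.Adj v w) with hW
    have hWc : W.card ≤ D := hdeg i v hv
    -- bad functions
    have hbad : ((ITset G A v0 S).filter (fun g => ¬ ∀ j ∈ S, ¬ G.Adj v (g j))) ⊆
        W.biUnion (fun u => (S.filter (fun j => u ∈ A j)).biUnion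
          (fun j => (ITset G A v0 S).filter (fun g => g j = u))) := by
      intro g hg
      rw [Finset.mem_filter] at hg
      obtain ⟨hg1, hg2⟩ := hg
      push Not at hg2
      obtain ⟨j, hj, hadj⟩ := hg2
      have hgj := ((mem_ITset G A v0 S g).mp hg1).1 j hj
      rw [Finset.mem_biUnion]
      refine ⟨g j, ?_, ?_⟩
      · rw [hW, Finset.mem_filter]
        exact ⟨Finset.mem_biUnion.mpr ⟨j, Finset.mem_univ _, hgj⟩, hadj⟩
      · rw [Finset.mem_biUnion]
        exact ⟨j, Finset.mem_filter.mpr ⟨hj, hgj⟩, Finset.mem_filter.mpr ⟨hg1, rfl⟩⟩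
    have hfib : ∀ u ∈ W, 2 * D * ((S.filter (fun j => u ∈ A j)).biUnion
          (fun j => (ITset G A v0 S).filter (fun g => g j = u))).card ≤ (ITset G A v0 S).card := by
      intro u hu
      rcases (S.filter (fun j => u ∈ A j)).eq_empty_or_nonempty with he | ⟨j, hj⟩
      · rw [he]; simp
      · have hj' := Finset.mem_filter.mp hj
        have hsing : (S.filter (fun j => u ∈ A j)) = {j} := by
          apply Finset.eq_singleton_iff_unique_mem.mpr
          refine ⟨hj, fun k hk => ?_⟩
          by_contra hne
          have hk' := Finset.mem_filter.mp hk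
          exact (Finset.disjoint_left.mp (hA k j hne)) hk'.2 hj'.2
        rw [hsing, Finset.singleton_biUnion]
        have h1 := ITset_fiber_le G A v0 S j hj'.1 u
        have hcard : (S.erase j).card < n := by
          rw [Finset.card_erase_of_mem hj'.1, hS]
          have : 0 < S.card := Finset.card_pos.mpr ⟨j, hj'.1⟩
          omega
        have h2 := ih _ hcard (S.erase j) rfl j (Finset.notMem_erase j S)
        rw [Finset.insert_erase hj'.1] at h2
        exact le_trans (Nat.mul_le_mul_left _ h1) h2
    have hbadcard : 2 * D * ((ITset G A v0 S).filter (fun g => ¬ ∀ j ∈ S, ¬ G.Adj v (g j))).card ≤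
        D * (ITset G A v0 S).card := by
      calc 2 * D * ((ITset G A v0 S).filter (fun g => ¬ ∀ j ∈ S, ¬ G.Adj v (g j))).card
          ≤ 2 * D * (W.biUnion (fun u => (S.filter (fun j => u ∈ A j)).biUnion
          (fun j => (ITset G A v0 S).filter (fun g => g j = u)))).card :=
            Nat.mul_le_mul_left _ (Finset.card_le_card hbad)
        _ ≤ 2 * D * ∑ u ∈ W, ((S.filter (fun j => u ∈ A j)).biUnion
          (fun j => (ITset G A v0 S).filter (fun g => g j = u))).card :=
            Nat.mul_le_mul_left _ Finset.card_biUnion_le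
        _ = ∑ u ∈ W, 2 * D * ((S.filter (fun j => u ∈ A j)).biUnion
          (fun j => (ITset G A v0 S).filter (fun g => g j = u))).card := by
            rw [Finset.mul_sum]
        _ ≤ ∑ u ∈ W, (ITset G A v0 S).card := Finset.sum_le_sum hfib
        _ = W.card * (ITset G A v0 S).card := by rw [Finset.sum_const, smul_eq_mul]
        _ ≤ D * (ITset G A v0 S).card := Nat.mul_le_mul_right _ hWc
    have hbad2 : 2 * ((ITset G A v0 S).filter (fun g => ¬ ∀ j ∈ S, ¬ G.Adj v (g j))).card ≤
        (ITset G A v0 S).card := by
      have : D * (2 * ((ITset G A v0 S).filter (fun g => ¬ ∀ j ∈ S, ¬ G.Adj v (g j))).card) ≤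
          D * (ITset G A v0 S).card := by
        calc D * (2 * ((ITset G A v0 S).filter (fun g => ¬ ∀ j ∈ S, ¬ G.Adj v (g j))).card)
            = 2 * D * ((ITset G A v0 S).filter (fun g => ¬ ∀ j ∈ S, ¬ G.Adj v (g j))).card := by ring
          _ ≤ _ := hbadcard
      exact Nat.le_of_mul_le_mul_left this hD
    have hsplit := Finset.card_filter_add_card_filter_not (s := ITset G A v0 S)
      (fun g => ∀ j ∈ S, ¬ G.Adj v (g j))
    omega
  -- build the sigma injection
  have hinj : ((A i).sigma (fun v => (ITset G A v0 S).filter (fun g => ∀ j ∈ S, ¬ G.Adj v (g j)))).card ≤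
      (ITset G A v0 (insert i S)).card := by
    apply Finset.card_le_card_of_injOn (fun p => Function.update p.2 i p.1)
    · rintro ⟨v, g⟩ hp
      have hp' := Finset.mem_sigma.mp (Finset.mem_coe.mp hp)
      obtain ⟨hv, hg⟩ := hp'
      simp only at hv hg
      rw [Finset.mem_filter] at hg
      obtain ⟨hg1, hg2⟩ := hg
      rw [mem_ITset] at hg1
      obtain ⟨a1, a2, a3⟩ := hg1
      show Function.update g i v ∈ ITset G A v0 (insert i S)
      rw [mem_ITset]
      refine ⟨fun k hk => ?_, fun k hk => ?_, fun k hk l hl hkl => ?_⟩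
      · by_cases hki : k = i
        · subst hki; simpa using hv
        · rw [Function.update_of_ne hki]
          exact a1 k ((Finset.mem_insert.mp hk).resolve_left hki)
      · have hki : k ≠ i := fun h => hk (by rw [h]; exact Finset.mem_insert_self _ _)
        rw [Function.update_of_ne hki]
        exact a2 k (fun h => hk (Finset.mem_insert_of_mem h))
      · by_cases hki : k = i
        · subst hki
          have hlk : l ≠ k := fun h => hkl h.symm
          rw [Function.update_self, Function.update_of_ne hlk]
          exact hg2 l ((Finset.mem_insert.mp hl).resolve_left hlk)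
        · by_cases hli : l = i
          · subst hli
            rw [Function.update_self, Function.update_of_ne hki]
            intro h
            exact hg2 k ((Finset.mem_insert.mp hk).resolve_left hki) h.symm
          · rw [Function.update_of_ne hki, Function.update_of_ne hli]
            exact a3 k ((Finset.mem_insert.mp hk).resolve_left hki) l
              ((Finset.mem_insert.mp hl).resolve_left hli) hkl
    · rintro ⟨v, g⟩ hp ⟨v', g'⟩ hp' h
      have hp1 := Finset.mem_sigma.mp (Finset.mem_coe.mp hp)
      have hp2 := Finset.mem_sigma.mp (Finset.mem_coe.mp hp')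
      have e1 : g i = v0 := ((mem_ITset G A v0 S g).mp (Finset.mem_filter.mp hp1.2).1).2.1 i hi
      have e2 : g' i = v0 := ((mem_ITset G A v0 S g').mp (Finset.mem_filter.mp hp2.2).1).2.1 i hi
      simp only at h
      have hv : v = v' := by
        have := congrFun h i
        simpa using this
      have hg : g = g' := by
        funext k
        by_cases hki : k = i
        · subst hki; rw [e1, e2]
        · have := congrFun h k
          simpa [Function.update_of_ne hki] using this
      subst hv; subst hg; rfl
  have hsum : (A i).card * (ITset G A v0 S).card ≤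
      2 * ((A i).sigma (fun v => (ITset G A v0 S).filter (fun g => ∀ j ∈ S, ¬ G.Adj v (g j)))).card := by
    rw [Finset.card_sigma, Finset.mul_sum]
    calc (A i).card * (ITset G A v0 S).card = ∑ _v ∈ A i, (ITset G A v0 S).card := by
          rw [Finset.sum_const, smul_eq_mul]
      _ ≤ _ := Finset.sum_le_sum key
  have h4 : 4 * D * (ITset G A v0 S).card ≤ (A i).card * (ITset G A v0 S).card :=
    Nat.mul_le_mul_right _ (hsize i)
  have h5 : 2 * (2 * D * (ITset G A v0 S).card) ≤ 2 * (ITset G A v0 (insert i S)).card := by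
    calc 2 * (2 * D * (ITset G A v0 S).card) = 4 * D * (ITset G A v0 S).card := by ring
      _ ≤ _ := h4
      _ ≤ _ := hsum
      _ ≤ _ := Nat.mul_le_mul_left _ hinj
  omega

/-- **Independent transversals by counting.**  Disjoint classes of size `≥ 4D` in a graph whose
conflict degrees (inside the union of the classes) are at most `D` have an independent transversal. -/
theorem exists_indep_transversal (G : SimpleGraph V) (A : ι → Finset V)
    (hA : ∀ i j, i ≠ j → Disjoint (A i) (A j)) (D : ℕ)
    (hdeg : ∀ i, ∀ v ∈ A i, {w | (∃ j, w ∈ A j) ∧ G.Adj v w}.ncard ≤ D)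
    (hsize : ∀ i, 4 * D ≤ (A i).card) (hne : ∀ i, (A i).Nonempty) :
    ∃ f : ι → V, (∀ i, f i ∈ A i) ∧ ∀ i j, i ≠ j → ¬ G.Adj (f i) (f j) := by
  classical
  have hset : ∀ v, {w | (∃ j, w ∈ A j) ∧ G.Adj v w} =
      (((univ.biUnion A).filter (fun w => G.Adj v w) : Finset V) : Set V) := by
    intro v; ext w; simp
  rcases Nat.eq_zero_or_pos D with hD0 | hD
  · -- no conflicts at all
    choose f hf using hne
    refine ⟨f, hf, fun i j hij hadj => ?_⟩
    have := hdeg i (f i) (hf i)
    rw [hset, Set.ncard_coe_finset, hD0, Nat.le_zero, Finset.card_eq_zero] at this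
    have hmem : f j ∈ ((univ.biUnion A).filter (fun w => G.Adj (f i) w)) :=
      Finset.mem_filter.mpr ⟨Finset.mem_biUnion.mpr ⟨j, Finset.mem_univ _, hf j⟩, hadj⟩
    rw [this] at hmem
    simp at hmem
  · rcases isEmpty_or_nonempty ι with he | ⟨⟨i0⟩⟩
    · exact ⟨fun i => (he.false i).elim, fun i => (he.false i).elim, fun i => (he.false i).elim⟩
    obtain ⟨v0, _⟩ := hne i0
    have hdeg' : ∀ i, ∀ v ∈ A i, ((univ.biUnion A).filter (fun w => G.Adj v w)).card ≤ D := by
      intro i v hv
      have := hdeg i v hv
      rwa [hset, Set.ncard_coe_finset] at this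
    have hpos : ∀ S : Finset ι, 0 < (ITset G A v0 S).card := by
      intro S
      induction S using Finset.induction_on with
      | empty =>
        apply Finset.card_pos.mpr
        exact ⟨fun _ => v0, (mem_ITset G A v0 ∅ _).mpr ⟨by simp, by simp, by simp⟩⟩
      | insert a S ha ih =>
        have := ITset_insert_ge G A v0 hA D hD hdeg' hsize S.card S rfl a ha
        have h2 : 0 < 2 * D * (ITset G A v0 S).card := by positivity
        omega
    obtain ⟨f, hf⟩ := Finset.card_pos.mp (hpos univ)
    rw [mem_ITset] at hf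
    exact ⟨f, fun i => hf.1 i (Finset.mem_univ _), fun i j hij =>
      hf.2.2 i (Finset.mem_univ _) j (Finset.mem_univ _) hij⟩

end Pool.MP405d56
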